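import Pool.Agent.Lib.MP_a3366f_nt.H28.Hecke

open PowerSeries Finset

namespace Pool.Agent.Lib.MP_a3366f_nt.H28

/-- square roots occurring in the theta series -/
def Jset (κ N : ℕ) : Finset ℕ := (range ((κ * N + 1).sqrt + 1)).filter fun j => j ^ 2 % κ = 1

lemma Good.sq_eq {κ κ' : ℕ} (_ : Good κ κ') {j : ℕ} (h : j ^ 2 % κ = 1) :
    κ * (j ^ 2 / κ) + 1 = j ^ 2 := by
  have := Nat.div_add_mod (j ^ 2) κ; omega

lemma Good.one_lt {κ κ' : ℕ} (hκ : Good κ κ') : 1 < κ := by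
  rcases hκ with ⟨rfl, _⟩ | ⟨rfl, _⟩ <;> norm_num

lemma mem_Jset {κ N j : ℕ} : j ∈ Jset κ N ↔ j ^ 2 ≤ κ * N + 1 ∧ j ^ 2 % κ = 1 := by
  rw [Jset, mem_filter, mem_range, Nat.lt_succ_iff, Nat.le_sqrt']

lemma Good.div_le {κ κ' : ℕ} (hκ : Good κ κ') {N j : ℕ} (h : j ∈ Jset κ N) : j ^ 2 / κ ≤ N := by
  rw [mem_Jset] at h
  have h1 := hκ.sq_eq h.2
  exact Nat.le_of_mul_le_mul_left (by omega : κ * (j ^ 2 / κ) ≤ κ * N) hκ.pos

lemma Good.odd_of {κ κ' : ℕ} (hκ : Good κ κ') {j : ℕ} (h : j ^ 2 % κ = 1) : Odd j := by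
  have h1 := hκ.mod_eight (j ^ 2 / κ)
  rw [hκ.sq_eq h] at h1
  have : Odd (j ^ 2) := by rw [Nat.odd_iff]; omega
  exact (Nat.odd_pow_iff two_ne_zero).mp this

lemma vec_eq_J {κ κ' : ℕ} (hκ : Good κ κ') (r : ℕ) (c : (ZMod 2)⟦X⟧) (N : ℕ) :
    vec r κ c N = ∑ j ∈ Jset κ N,
      AddMonoidAlgebra.single (lg r (j ^ 2)) (coeff (N - j ^ 2 / κ) c) := by
  symm
  refine Finset.sum_bij_ne_zero (fun j _ _ => j ^ 2 / κ) (fun j hj _ => ?_)
    (fun j hj _ j' hj' _ h => ?_) (fun g hg hne => ?_) (fun j hj _ => ?_)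
  · exact mem_range.mpr (Nat.lt_succ_of_le (hκ.div_le hj))
  · have h1 := hκ.sq_eq (mem_Jset.mp hj).2
    have h2 := hκ.sq_eq (mem_Jset.mp hj').2
    rw [h] at h1
    exact Nat.pow_left_injective two_ne_zero (h1.symm.trans h2)
  · have h1 : IsSquare (κ * g + 1) := by
      by_contra h; apply hne; simp [th2, h]
    obtain ⟨j, hj⟩ := h1
    rw [← sq] at hj
    have h2 : j ^ 2 / κ = g := by
      rw [← hj, Nat.mul_add_div hκ.pos, Nat.div_eq_of_lt hκ.one_lt, add_zero]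
    refine ⟨j, mem_Jset.mpr ⟨?_, ?_⟩, ?_, h2⟩
    · rw [← hj]; have := mem_range.mp hg
      exact Nat.succ_le_succ (Nat.mul_le_mul_left _ (by omega))
    · rw [← hj, Nat.mul_add_mod, Nat.mod_eq_of_lt hκ.one_lt]
    · rw [h2, ← hj]; intro h0; apply hne
      rw [AddMonoidAlgebra.single_eq_zero] at h0 ⊢
      rw [h0, zero_mul]
  · have h1 := hκ.sq_eq (mem_Jset.mp hj).2
    rw [h1, th2, h1, if_pos ⟨j, sq j⟩, mul_one]

lemma sig_mul (r : ℕ) {m n : ℕ} (h : Nat.Coprime m n) (hm : Odd m) (hn : Odd n) :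
    sig r (m * n) = sig r m * sig r n := by
  rw [sig, sig, sig, Nat.divisors_mul, Finset.mul_def, Finset.sum_image h.mul_injOn_divisors,
    Finset.sum_mul_sum, ← Finset.sum_product']
  refine Finset.sum_congr rfl fun p hp => ?_
  rw [mem_product] at hp
  rw [AddMonoidAlgebra.single_mul_single, mul_pow,
    lg_mul r (sq_mod_eight (hm.of_dvd_nat (Nat.dvd_of_mem_divisors hp.1)))
      (sq_mod_eight (hn.of_dvd_nat (Nat.dvd_of_mem_divisors hp.2))), mul_one]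

lemma sig_prime (r : ℕ) {p : ℕ} (hp : p.Prime) :
    sig r p = 1 + AddMonoidAlgebra.single (lg r (p ^ 2)) 1 := by
  rw [sig, hp.divisors, sum_pair hp.one_lt.ne, one_pow, lg_one, AddMonoidAlgebra.one_def]

lemma card_le_of_modEq {S : Finset ℕ} {Y q : ℕ} (hS : ∀ j ∈ S, j ≤ Y)
    (h : ∀ j ∈ S, ∀ j' ∈ S, (q : ℤ) ∣ j - j') : S.card ≤ Y / q + 1 := by
  rw [← card_range (Y / q + 1)]
  refine card_le_card_of_injOn (fun j => j / q) (fun j hj => ?_) (fun j hj j' hj' hh => ?_)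
  · simp only [coe_range, Set.mem_Iio]
    exact Nat.lt_succ_of_le (Nat.div_le_div_right (hS j hj))
  · have h1 : j' % q = j % q := (Nat.modEq_iff_dvd).mpr (h j hj j' hj')
    rw [← Nat.div_add_mod j q, ← Nat.div_add_mod j' q, h1]
    simp only at hh
    rw [hh]

lemma two_pow_sq {a : ℕ} {j j' : ℤ} (hj : Odd j) (h : 2 ^ (a + 1) ∣ j' ^ 2 - j ^ 2) :
    2 ^ a ∣ j' - j ∨ 2 ^ a ∣ j' + j := by
  have hj' : Odd j' := by
    have h1 : Even (j' ^ 2 - j ^ 2) :=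
      even_iff_two_dvd.mpr ((dvd_pow_self 2 (Nat.succ_ne_zero a)).trans h)
    have h2 : Odd (j' ^ 2) := by
      have := h1.add_odd (hj.pow (n := 2)); rwa [sub_add_cancel] at this
    exact (Int.odd_pow' two_ne_zero).mp h2
  obtain ⟨x, hx⟩ := hj
  obtain ⟨y, hy⟩ := hj'
  have h2 : j' ^ 2 - j ^ 2 = 2 * ((j' - j) * (x + y + 1)) := by rw [hx, hy]; ring
  have h3 : j' ^ 2 - j ^ 2 = 2 * ((y - x) * (j' + j)) := by rw [hx, hy]; ring
  rcases Int.even_or_odd (y - x) with he | ho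
  · left
    rw [h2, pow_succ'] at h
    refine Int.prime_two.pow_dvd_of_dvd_mul_right a ?_ (Int.dvd_of_mul_dvd_mul_left two_ne_zero h)
    obtain ⟨z, hz⟩ := he
    omega
  · right
    rw [h3, pow_succ'] at h
    refine Int.prime_two.pow_dvd_of_dvd_mul_left a ?_ (Int.dvd_of_mul_dvd_mul_left two_ne_zero h)
    obtain ⟨z, hz⟩ := ho
    omega

lemma card_roots {S : Finset ℕ} {Y a p : ℕ} (hp : p = 1 ∨ (p.Prime ∧ p ≠ 2))
    (hS : ∀ j ∈ S, j ≤ Y ∧ Odd j)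
    (h : ∀ j ∈ S, ∀ j' ∈ S, ((2 ^ (a + 1) * p : ℕ) : ℤ) ∣ j' ^ 2 - j ^ 2) :
    S.card ≤ 4 * (Y / (2 ^ a * p) + 1) := by
  rcases S.eq_empty_or_nonempty with rfl | ⟨j0, hj0⟩
  · simp
  have hc : IsCoprime ((2 : ℤ) ^ a) p := by
    rcases hp with rfl | ⟨hp, hp2⟩
    · simp [isCoprime_one_right]
    · have : Nat.Coprime (2 ^ a) p :=
        Nat.Coprime.pow_left _ ((Nat.coprime_primes Nat.prime_two hp).mpr hp2.symm)
      exact_mod_cast Nat.isCoprime_iff_coprime.mpr this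
  have key : ∀ s t : ℤ, (S.filter fun j : ℕ => (2 : ℤ) ^ a ∣ j - s ∧ (p : ℤ) ∣ j - t).card ≤
      Y / (2 ^ a * p) + 1 := fun s t => by
    refine card_le_of_modEq (fun j hj => (hS j (mem_filter.mp hj).1).1) fun j hj j' hj' => ?_
    rw [mem_filter] at hj hj'
    push_cast
    refine hc.mul_dvd ?_ ?_
    · simpa using dvd_sub hj.2.1 hj'.2.1
    · simpa using dvd_sub hj.2.2 hj'.2.2
  have hsub : S ⊆ ((S.filter fun j : ℕ => (2 : ℤ) ^ a ∣ j - j0 ∧ (p : ℤ) ∣ j - j0) ∪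
      (S.filter fun j : ℕ => (2 : ℤ) ^ a ∣ j - j0 ∧ (p : ℤ) ∣ j - -j0)) ∪
      ((S.filter fun j : ℕ => (2 : ℤ) ^ a ∣ j - -j0 ∧ (p : ℤ) ∣ j - j0) ∪
      (S.filter fun j : ℕ => (2 : ℤ) ^ a ∣ j - -j0 ∧ (p : ℤ) ∣ j - -j0)) := by
    intro j hj
    have h1 := h j0 hj0 j hj
    push_cast at h1
    have h2 := two_pow_sq (by exact_mod_cast (hS j0 hj0).2) ((dvd_mul_right _ _).trans h1)
    have h3 : (p : ℤ) ∣ j - j0 ∨ (p : ℤ) ∣ j + j0 := by
      rcases hp with rfl | ⟨hp, _⟩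
      · simp
      · have := (dvd_mul_left _ _).trans h1
        rw [sq_sub_sq, mul_comm] at this
        exact (Nat.prime_iff_prime_int.mp hp).dvd_or_dvd this
    simp only [mem_union, mem_filter, sub_neg_eq_add]
    tauto
  have := card_le_card hsub
  have h1 := key j0 j0
  have h2 := key j0 (-j0)
  have h3 := key (-j0) j0
  have h4 := key (-j0) (-j0)
  refine this.trans ((card_union_le _ _).trans ?_)
  refine (Nat.add_le_add (card_union_le _ _) (card_union_le _ _)).trans ?_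
  omega

end Pool.Agent.Lib.MP_a3366f_nt.H28
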