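import Pool.Agent.Lib.MP_a3366f_nt.H28.Cnt

open PowerSeries Finset

namespace Pool.Agent.Lib.MP_a3366f_nt.H28

lemma Good.sq_class {κ κ' : ℕ} (hκ : Good κ κ') (r : ℕ) {i j : ℕ} (hj : j ^ 2 % κ = 1)
    (h : ((24 * 2 ^ r : ℕ) : ℤ) ∣ (j : ℤ) ^ 2 - i ^ 2) :
    i ^ 2 % κ = 1 ∧ lg r (i ^ 2) = lg r (j ^ 2) := by
  have h1 : i ^ 2 ≡ j ^ 2 [MOD 24 * 2 ^ r] := Nat.modEq_iff_dvd.mpr (by exact_mod_cast h)
  have h2 : i ^ 2 % κ = 1 := by
    have : i ^ 2 ≡ j ^ 2 [MOD κ] := h1.of_dvd ⟨κ' * 2 ^ r, by rw [← hκ.mul]; ring⟩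
    rw [this, hj]
  refine ⟨h2, (lg_eq_iff r (sq_mod_eight (hκ.odd_of h2)) (sq_mod_eight (hκ.odd_of hj))).mpr ?_⟩
  exact h1.of_dvd ⟨3, by ring⟩

lemma odd_class {κ κ' : ℕ} (hκ : Good κ κ') {r k N j0 : ℕ}
    (h1 : (12 * 2 ^ r * k + 2 ^ r) ^ 2 ≤ κ * N + 1) (h2 : κ * N + 1 < (12 * 2 ^ r * k + 2 * 2 ^ r) ^ 2)
    (h3 : j0 ≤ 2 ^ r) (h4 : j0 ^ 2 % κ = 1) :
    ∑ _j ∈ (Jset κ N).filter (fun j => lg r (j ^ 2) = lg r (j0 ^ 2)), (1 : ZMod 2) = 1 := by
  rw [← Finset.sum_filter_add_sum_filter_not _ (fun j => j ≤ 12 * 2 ^ r * k)]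
  have hM : 0 < 2 ^ r := by positivity
  have hA : ∑ _j ∈ ((Jset κ N).filter (fun j => lg r (j ^ 2) = lg r (j0 ^ 2))).filter
      (fun j => j ≤ 12 * 2 ^ r * k), (1 : ZMod 2) = 0 := by
    refine Finset.sum_involution (fun j _ => 12 * 2 ^ r * k - j) (fun _ _ => rfl)
      (fun j hj _ => ?_) (fun j hj => ?_) (fun j hj => ?_)
    · simp only [mem_filter, mem_Jset] at hj
      obtain ⟨x, hx⟩ := hκ.odd_of hj.1.1.2
      have : 12 * 2 ^ r * k = 4 * (3 * 2 ^ r * k) := by ring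
      omega
    · simp only [mem_filter, mem_Jset] at hj ⊢
      obtain ⟨i, hi⟩ := Nat.exists_eq_add_of_le hj.2
      rw [show 12 * 2 ^ r * k - j = i by omega]
      have hi' : (i : ℤ) = 12 * 2 ^ r * k - j := by zify at hi; linear_combination -hi
      have := hκ.sq_class r (i := i) hj.1.1.2 ⟨k * (j - 6 * 2 ^ r * k), by
        rw [hi']; push_cast; ring⟩
      refine ⟨⟨⟨le_trans (Nat.pow_le_pow_left (by omega) 2) h1, this.1⟩, this.2.trans hj.1.2⟩,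
        by omega⟩
    · simp only [mem_filter] at hj; omega
  have hB : ((Jset κ N).filter (fun j => lg r (j ^ 2) = lg r (j0 ^ 2))).filter
      (fun j => ¬ j ≤ 12 * 2 ^ r * k) = {12 * 2 ^ r * k + j0} := by
    have hodd := hκ.odd_of h4
    ext j
    simp only [mem_filter, mem_Jset, mem_singleton]
    constructor
    · rintro ⟨⟨⟨h5, h6⟩, h7⟩, h8⟩
      obtain ⟨i, rfl⟩ : ∃ i, j = 12 * 2 ^ r * k + i := Nat.exists_eq_add_of_le (by omega)
      have h9 : i < 2 * 2 ^ r := by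
        have := lt_of_pow_lt_pow_left₀ 2 (by positivity) (h5.trans_lt h2); omega
      have h10 := hκ.sq_class r (i := i) h6 ⟨k * (i + 6 * 2 ^ r * k), by push_cast; ring⟩
      have h11 := (lg_eq_iff r (sq_mod_eight (hκ.odd_of h10.1)) (sq_mod_eight hodd)).mp
        (h10.2.trans h7)
      have h12 := two_pow_sq (a := r + 2) (j := j0) (j' := i) (by exact_mod_cast hodd)
        (by exact_mod_cast h11.symm.dvd)
      have h13 := hodd.pos
      have h14 : (2 : ℤ) ^ (r + 2) = 4 * ((2 ^ r : ℕ) : ℤ) := by push_cast; ring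
      rw [h14] at h12
      rcases h12 with h | h
      · have := Int.eq_zero_of_abs_lt_dvd h (by rw [abs_lt]; omega)
        omega
      · have := Int.eq_zero_of_abs_lt_dvd h (by rw [abs_lt]; omega)
        omega
    · rintro rfl
      have := hκ.sq_class r (i := 12 * 2 ^ r * k + j0) h4 ⟨-(k * (j0 + 6 * 2 ^ r * k)), by
        push_cast; ring⟩
      have h13 := hodd.pos
      exact ⟨⟨⟨le_trans (Nat.pow_le_pow_left (by omega) 2) h1, this.1⟩, this.2⟩, by omega⟩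
  rw [hA, hB]; simp

lemma exists_even {κ κ' : ℕ} (hκ : Good κ κ') {r k N j0 : ℕ} {c : (ZMod 2)⟦X⟧}
    (h0 : vec r κ c N = 0)
    (h1 : (12 * 2 ^ r * k + 2 ^ r) ^ 2 ≤ κ * N + 1) (h2 : κ * N + 1 < (12 * 2 ^ r * k + 2 * 2 ^ r) ^ 2)
    (h3 : j0 ≤ 2 ^ r) (h4 : j0 ^ 2 % κ = 1) :
    ∃ j ∈ Jset κ N, lg r (j ^ 2) = lg r (j0 ^ 2) ∧ coeff (N - j ^ 2 / κ) c = 0 := by
  by_contra h
  push Not at h
  have h5 := congrArg (fun x : GA r => x.coeff (lg r (j0 ^ 2))) h0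
  simp only [vec_eq_J hκ, AddMonoidAlgebra.coeff_sum, Finsupp.finsetSum_apply,
    AddMonoidAlgebra.coeff_single, Finsupp.single_apply, AddMonoidAlgebra.coeff_zero,
    Finsupp.coe_zero, Pi.zero_apply] at h5
  rw [← Finset.sum_filter, Finset.sum_congr rfl (g := fun _ => 1) fun j hj => ?_,
    odd_class hκ h1 h2 h3 h4] at h5
  · exact one_ne_zero h5
  · rw [mem_filter] at hj
    have := h j hj.1 hj.2
    revert this
    generalize coeff (N - j ^ 2 / κ) c = x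
    decide +revert

lemma exists_nonres {w b : ℕ} (hw : Odd w) (hb : Nat.Coprime w b) :
    ∃ c0 < w, ∀ l ∈ w.primeFactors, ∀ x j : ℤ, ¬ (l : ℤ) ∣ b * (c0 + w * x) - j ^ 2 := by
  have h1 : ∀ l ∈ w.primeFactors, ∃ a : ℕ, ¬ IsSquare ((b : ZMod l) * a) := by
    intro l hl
    have hp := Nat.prime_of_mem_primeFactors hl
    have hd := Nat.dvd_of_mem_primeFactors hl
    have := Fact.mk hp
    obtain ⟨y, hy⟩ := FiniteField.exists_nonsquare (F := ZMod l) (by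
      rw [ZMod.ringChar_zmod_n]; rintro rfl; exact hw.not_two_dvd_nat hd)
    have hb0 : (b : ZMod l) ≠ 0 := by
      rw [Ne, ZMod.natCast_eq_zero_iff]
      exact (Nat.Prime.coprime_iff_not_dvd hp).mp (hb.coprime_dvd_left hd)
    refine ⟨((b : ZMod l)⁻¹ * y).val, ?_⟩
    rwa [ZMod.natCast_zmod_val, mul_inv_cancel_left₀ hb0]
  choose! a ha using h1
  obtain ⟨c, hc⟩ := Nat.chineseRemainderOfFinset a id w.primeFactors
    (fun l hl => (Nat.prime_of_mem_primeFactors hl).ne_zero) (fun l hl l' hl' h =>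
      (Nat.coprime_primes (Nat.prime_of_mem_primeFactors hl)
        (Nat.prime_of_mem_primeFactors hl')).mpr h)
  refine ⟨c % w, Nat.mod_lt _ hw.pos, fun l hl x j h => ha l hl ⟨j, ?_⟩⟩
  have hd := Nat.dvd_of_mem_primeFactors hl
  have h2 := (ZMod.intCast_zmod_eq_zero_iff_dvd _ l).mpr h
  have h3 : (w : ZMod l) = 0 := (ZMod.natCast_eq_zero_iff _ _).mpr hd
  have h4 : ((c % w : ℕ) : ZMod l) = a l :=
    (ZMod.natCast_eq_natCast_iff _ _ _).mpr (((Nat.mod_modEq c w).of_dvd hd).trans (hc l hl))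
  rw [Int.cast_sub, Int.cast_mul, Int.cast_add, Int.cast_mul, Int.cast_natCast, Int.cast_natCast,
    Int.cast_natCast, h3, h4] at h2
  push_cast at h2
  linear_combination h2

lemma exists_fermat_prime (r : ℕ) : ∃ p : ℕ, p.Prime ∧ p ≠ 2 ∧ 2 ^ r < p ∧ p ≤ 2 ^ (2 * 2 ^ r + 1) ∧
    lg r (p ^ 2) = 0 := by
  have h0 : 2 ^ 2 ^ (r + 1) + 1 ≠ 1 := by simp
  obtain ⟨p, hp, hd⟩ := Nat.exists_prime_and_dvd h0
  have hp2 : p ≠ 2 := by
    rintro rfl
    have := (Nat.dvd_add_right (dvd_pow_self 2 (by positivity))).mp hd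
    omega
  obtain ⟨k, hk⟩ := Nat.pow_pow_add_primeFactors_one_lt hp hp2 hd
  have hk0 : 0 < k := by
    rcases Nat.eq_zero_or_pos k with rfl | h
    · exact absurd (by simpa using hk) hp.one_lt.ne'
    · exact h
  refine ⟨p, hp, hp2, ?_, ?_, ?_⟩
  · have : 2 ^ r ≤ k * 2 ^ (r + 1 + 1) :=
      (Nat.pow_le_pow_right two_pos (by omega)).trans (Nat.le_mul_of_pos_left _ hk0)
    omega
  · refine (Nat.le_of_dvd (by positivity) hd).trans ?_
    rw [pow_succ' 2 r, pow_succ]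
    have : 0 < 2 ^ (2 * 2 ^ r) := by positivity
    omega
  · rw [← lg_one r, lg_eq_iff r (sq_mod_eight (hp.odd_of_ne_two hp2)) rfl, hk]
    refine (Nat.modEq_iff_dvd' (Nat.one_le_pow _ _ (by omega))).mpr ?_ |>.symm
    refine ⟨k * (k * 2 ^ (r + 1) + 1), Nat.sub_eq_of_eq_add (by ring)⟩

/-- number of even values below X -/
noncomputable def evc (t Y : ℕ) : ℕ := ((range Y).filter fun n => Even (pt t n)).card

lemma even_params {M W V s w κ z : ℕ} (hW0 : 0 < W) (hw : 0 < w) (hκ : 0 < κ) (hWV : W ≤ V)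
    (hMV : 100 * M ≤ V) (hsV : V ^ 4 ≤ s) (hM : 2 * w * κ + z ^ 2 ≤ M) :
    ∃ K x0, 24 * M * K ≤ s ∧ 2 * (2 * W * w * κ) + z ^ 2 ≤ 12 * M * K * M ∧
      2 * W * w * κ * x0 ≤ 12 * M * K * M ∧ ∀ B T W', W = 2 * W' → B = 24 * M * K / W' + 1 →
        K * (x0 * (M / 6)) ≤ T * (4 * B) → 6 ≤ M → s * M ≤ 48 * 12 * 80 * w * κ * T := by
  obtain ⟨K, hK⟩ : ∃ K, K = s / (24 * M) := ⟨_, rfl⟩
  have hwκ : 0 < w * κ := Nat.mul_pos hw hκ
  have hM0 : 0 < M := by nlinarith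
  have hK1 : 24 * M * K ≤ s := by rw [hK]; exact Nat.mul_div_le _ _
  have hK2 : s < 24 * M * K + 24 * M := by
    rw [hK]; have := Nat.div_add_mod s (24 * M); have := Nat.mod_lt s (show 0 < 24 * M by omega)
    omega
  have hV4 : V * V ≤ V ^ 4 := by
    rw [← sq]; exact Nat.pow_le_pow_right (by omega) (by norm_num)
  have hVV : 100 * M * V ≤ V * V := Nat.mul_le_mul_right _ hMV
  have hMV' : M * 1 ≤ M * V := Nat.mul_le_mul_left _ (by omega)
  have hK3 : s ≤ 48 * M * K := by linarith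
  obtain ⟨Q, hQ⟩ : ∃ Q, Q = 2 * W * w * κ := ⟨_, rfl⟩
  have hQ0 : 0 < Q := by rw [hQ]; positivity
  have hQV : Q ≤ M * V := by
    calc Q = (2 * w * κ) * W := by rw [hQ]; ring
      _ ≤ M * V := Nat.mul_le_mul (by omega) hWV
  have hbig : 2 * Q + z ^ 2 ≤ 12 * M * K := by
    have : z ^ 2 ≤ M := by omega
    linarith
  have hbig' : 12 * M * K * 1 ≤ 12 * M * K * M := Nat.mul_le_mul_left _ hM0
  obtain ⟨x0, hx0⟩ : ∃ x0, x0 = 12 * M * K * M / Q := ⟨_, rfl⟩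
  have hx1 : Q * x0 ≤ 12 * M * K * M := by rw [hx0]; exact Nat.mul_div_le _ _
  have hx2 : 12 * M * K * M ≤ 2 * (Q * x0) := by
    have := Nat.div_add_mod (12 * M * K * M) Q; have := Nat.mod_lt (12 * M * K * M) hQ0
    rw [← hx0] at *; omega
  refine ⟨K, x0, hK1, by rw [← hQ]; omega, by rw [← hQ]; exact hx1, fun B T W' hW' hB h1 h6 => ?_⟩
  have h2 : W * B ≤ 5 * (12 * M * K) := by
    have h3 := Nat.mul_div_le (24 * M * K) W'
    have h5 : W * 1 ≤ W * (2 * (w * κ)) := Nat.mul_le_mul_left _ (by omega)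
    have h6 : Q = W * (2 * (w * κ)) := by rw [hQ]; ring
    rw [hB, mul_add, mul_one]; nth_rewrite 1 [hW']; linarith
  have h3 : M ≤ 12 * (M / 6) := by omega
  generalize M / 6 = m6 at h1 h3
  have hK0 : 0 < 12 * M * K := by omega
  have h4 : K * M * m6 ≤ 80 * w * κ * T := by
    refine Nat.le_of_mul_le_mul_left ?_ hK0
    calc 12 * M * K * (K * M * m6) = K * m6 * (12 * M * K * M) := by ring
      _ ≤ K * m6 * (2 * (Q * x0)) := by gcongr
      _ = 4 * W * w * κ * (K * (x0 * m6)) := by rw [hQ]; ring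
      _ ≤ 4 * W * w * κ * (T * (4 * B)) := by gcongr
      _ = 16 * w * κ * T * (W * B) := by ring
      _ ≤ 16 * w * κ * T * (5 * (12 * M * K)) := by gcongr
      _ = _ := by ring
  calc s * M ≤ (48 * M * K) * (12 * m6) := by gcongr
    _ = 48 * 12 * (K * M * m6) := by ring
    _ ≤ 48 * 12 * (80 * w * κ * T) := by gcongr
    _ = _ := by ring

lemma window {M K k x x0 Q κ n D z : ℕ} (hQ0 : 0 < Q) (hk : K ≤ k) (hx : x < x0)
    (hbig : 2 * Q + z ^ 2 ≤ 12 * M * K * M) (hx1 : Q * x0 ≤ 12 * M * K * M)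
    (hz : z ^ 2 = κ * D + 1) (h1 : Q * ((12 * M * k + M) ^ 2 / Q + 1 + x) ≤ κ * n)
    (h2 : κ * n < Q * ((12 * M * k + M) ^ 2 / Q + 1 + x + 1)) :
    (12 * M * k + M) ^ 2 ≤ κ * (n + D) + 1 ∧ κ * (n + D) + 1 < (12 * M * k + 2 * M) ^ 2 := by
  have h3 := Nat.div_add_mod ((12 * M * k + M) ^ 2) Q
  have h4 := Nat.mod_lt ((12 * M * k + M) ^ 2) hQ0
  have h5 : Q * (x + 1) ≤ Q * x0 := Nat.mul_le_mul_left _ hx
  have h6 : 12 * M * K * M ≤ 12 * M * k * M := by gcongr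
  have h7 : (12 * M * k + 2 * M) ^ 2 = (12 * M * k + M) ^ 2 + 2 * (12 * M * k * M) + 3 * M ^ 2 := by
    ring
  simp only [mul_add, mul_one] at h1 h2 h5 ⊢
  omega

lemma window_unique {M k k' N : ℕ} (h5 : (12 * M * k + M) ^ 2 ≤ N)
    (h6 : N < (12 * M * k + 2 * M) ^ 2) (h7 : (12 * M * k' + M) ^ 2 ≤ N)
    (h8 : N < (12 * M * k' + 2 * M) ^ 2) : k = k' := by
  have h9 := lt_of_pow_lt_pow_left₀ 2 (by positivity) (h5.trans_lt h8)
  have h10 := lt_of_pow_lt_pow_left₀ 2 (by positivity) (h7.trans_lt h6)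
  rcases lt_trichotomy k k' with h | h | h
  · nlinarith
  · exact h
  · nlinarith

lemma class_unique {r i i' : ℕ} (hi : i < 2 ^ r / 6) (hi' : i' < 2 ^ r / 6)
    (h : lg r ((6 * i' + 1) ^ 2) = lg r ((6 * i + 1) ^ 2)) : i = i' := by
  rw [lg_eq_iff r (sq_mod_eight ⟨3 * i', by ring⟩) (sq_mod_eight ⟨3 * i, by ring⟩)] at h
  have h13 := two_pow_sq (a := r + 2) (j := 6 * i' + 1) (j' := 6 * i + 1)
    ⟨3 * i', by ring⟩ (by exact_mod_cast h.dvd)
  have h14 : (2 : ℤ) ^ (r + 2) = 4 * ((2 ^ r : ℕ) : ℤ) := by push_cast; ring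
  rw [h14] at h13
  rcases h13 with h | h
  · have := Int.eq_zero_of_abs_lt_dvd h (by rw [abs_lt]; omega)
    omega
  · have := Int.eq_zero_of_abs_lt_dvd h (by rw [abs_lt]; omega)
    omega

lemma Good.six {κ κ' : ℕ} (hκ : Good κ κ') (i : ℕ) : (6 * i + 1) ^ 2 % κ = 1 := by
  obtain ⟨y, hy⟩ := Nat.even_mul_succ_self i
  have : (6 * i + 1) ^ 2 = κ * (κ' * (i * (i + 1) + y - i)) + 1 := by
    rw [← mul_assoc, hκ.mul]
    have : i ≤ i * (i + 1) := Nat.le_mul_of_pos_right _ (by omega)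
    zify [show i ≤ i * (i + 1) + y by omega] at hy ⊢
    linear_combination 12 * hy
  rw [this, Nat.mul_add_mod, Nat.mod_eq_of_lt hκ.one_lt]

lemma even_count {κ κ' D z w r W c0 K x0 Y : ℕ} {c : (ZMod 2)⟦X⟧} (hκ : Good κ κ')
    (hz : z ^ 2 = κ * D + 1) (hW0 : 0 < W) (hc0 : c0 < w)
    (hnr : ∀ l ∈ w.primeFactors, ∀ x j : ℤ, ¬ (l : ℤ) ∣ (κ * W : ℕ) * (c0 + w * x) - j ^ 2)
    (hsel : ∀ y, ∃ x, 2 * y ≤ x ∧ x ≤ 2 * y + 1 ∧ vec r κ c (W * (c0 + w * x) + D) = 0)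
    (hK1 : (24 * 2 ^ r * K) ^ 2 ≤ Y)
    (hbig : 2 * (2 * W * w * κ) + z ^ 2 ≤ 12 * 2 ^ r * K * 2 ^ r)
    (hx1 : 2 * W * w * κ * x0 ≤ 12 * 2 ^ r * K * 2 ^ r) :
    K * (x0 * (2 ^ r / 6)) ≤ (((range Y).filter fun m => coeff m c = 0 ∧
      ∀ l ∈ w.primeFactors, ¬ (l : ℤ) ∣ κ * m - z ^ 2).sigma fun m =>
        (range (24 * 2 ^ r * K + 1)).filter fun j : ℕ =>
          Odd j ∧ (W : ℤ) ∣ j ^ 2 + κ * m - z ^ 2).card := by
  choose xs hxs using hsel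
  have hκ0 := hκ.pos
  have hw : 0 < w := by omega
  obtain ⟨Q, hQ⟩ : ∃ Q, Q = 2 * W * w * κ := ⟨_, rfl⟩
  have hQ0 : 0 < Q := by rw [hQ]; positivity
  rw [← hQ] at hbig hx1
  obtain ⟨yy, hyy⟩ : ∃ yy : ℕ → ℕ → ℕ, ∀ k x,
    yy k x = (12 * 2 ^ r * k + 2 ^ r) ^ 2 / Q + 1 + x := ⟨_, fun _ _ => rfl⟩
  obtain ⟨nn, hnn⟩ : ∃ nn : ℕ → ℕ, ∀ y, nn y = W * (c0 + w * xs y) := ⟨_, fun _ => rfl⟩
  have hn1 : ∀ y, Q * y ≤ κ * nn y ∧ κ * nn y < Q * (y + 1) := fun y => by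
    obtain ⟨h1, h2, -⟩ := hxs y
    have h3 : w * (2 * y) ≤ c0 + w * xs y := le_add_left (Nat.mul_le_mul_left _ h1)
    have h4 : c0 + w * xs y < w * (2 * y + 2) := by
      have := Nat.mul_le_mul_left w h2
      rw [mul_add w] at this ⊢; omega
    rw [hnn]
    constructor
    · calc Q * y = κ * (W * (w * (2 * y))) := by rw [hQ]; ring
        _ ≤ _ := by gcongr
    · calc _ < κ * (W * (w * (2 * y + 2))) := by gcongr
        _ = _ := by rw [hQ]; ring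
  have hwin : ∀ k ∈ Ico K (2 * K), ∀ x ∈ range x0,
      (12 * 2 ^ r * k + 2 ^ r) ^ 2 ≤ κ * (nn (yy k x) + D) + 1 ∧
      κ * (nn (yy k x) + D) + 1 < (12 * 2 ^ r * k + 2 * 2 ^ r) ^ 2 := fun k hk x hx => by
    obtain ⟨h1, h2⟩ := hn1 (yy k x)
    exact window hQ0 (mem_Ico.mp hk).1 (mem_range.mp hx) hbig hx1 hz (by rwa [← hyy])
      (by rwa [← hyy])
  have hex : ∀ q ∈ Ico K (2 * K) ×ˢ range x0 ×ˢ range (2 ^ r / 6),
      ∃ j ∈ Jset κ (nn (yy q.1 q.2.1) + D), lg r (j ^ 2) = lg r ((6 * q.2.2 + 1) ^ 2) ∧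
        coeff (nn (yy q.1 q.2.1) + D - j ^ 2 / κ) c = 0 := by
    intro q hq
    simp only [mem_product] at hq
    obtain ⟨h1, h2⟩ := hwin _ hq.1 _ hq.2.1
    have h3 := mem_range.mp hq.2.2
    exact exists_even hκ (by rw [hnn]; exact (hxs _).2.2) h1 h2 (by omega) (hκ.six _)
  choose! jj hjj using hex
  have hfact : ∀ q ∈ Ico K (2 * K) ×ˢ range x0 ×ˢ range (2 ^ r / 6),
      (κ * ((nn (yy q.1 q.2.1) + D - jj q ^ 2 / κ : ℕ) : ℤ) + jj q ^ 2 - z ^ 2 =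
        κ * nn (yy q.1 q.2.1)) := fun q hq => by
    obtain ⟨h1, -, -⟩ := hjj q hq
    have h2 := hκ.div_le h1
    have h3 := hκ.sq_eq (mem_Jset.mp h1).2
    generalize jj q ^ 2 / κ = g at *
    zify [h2] at h3 hz ⊢
    linear_combination -h3 - hz
  have hcard : K * (x0 * (2 ^ r / 6)) = (Ico K (2 * K) ×ˢ range x0 ×ˢ range (2 ^ r / 6)).card := by
    rw [card_product, card_product, Nat.card_Ico, card_range, card_range,
      show 2 * K - K = K by omega]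
  rw [hcard]
  refine card_le_card_of_injOn (fun q => ⟨nn (yy q.1 q.2.1) + D - jj q ^ 2 / κ, jj q⟩)
    (fun q hq => ?_) (fun q hq q' hq' h => ?_)
  · have h0 := hfact q hq
    obtain ⟨h1, h2, h3⟩ := hjj q hq
    simp only [coe_product, Set.mem_prod, mem_coe] at hq
    obtain ⟨h4, h5⟩ := hwin _ hq.1 _ hq.2.1
    have h6 : 12 * 2 ^ r * q.1 + 2 * 2 ^ r ≤ 24 * 2 ^ r * K := by
      have := Nat.mul_le_mul_left (12 * 2 ^ r) (Nat.succ_le_of_lt (mem_Ico.mp hq.1).2)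
      rw [Nat.mul_succ] at this
      linarith [Nat.zero_le (2 ^ r)]
    have h7 := h5.trans_le (Nat.pow_le_pow_left h6 2)
    rw [mem_Jset] at h1
    simp only [coe_sigma, Set.mem_sigma_iff, mem_coe, mem_filter, mem_range]
    refine ⟨⟨?_, h3, fun l hl hd => hnr l hl (xs (yy q.1 q.2.1)) (jj q) ?_⟩, ?_,
      hκ.odd_of h1.2, ⟨κ * (c0 + w * xs (yy q.1 q.2.1)), ?_⟩⟩
    · exact (Nat.sub_le _ _).trans_lt (((Nat.le_mul_of_pos_left _ hκ0).trans_lt
        (Nat.lt_of_succ_lt h7)).trans_le hK1)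
    · have h8 : ((κ * W : ℕ) : ℤ) * (c0 + w * xs (yy q.1 q.2.1)) = κ * nn (yy q.1 q.2.1) := by
        rw [hnn]; push_cast; ring
      rw [h8, ← h0]
      convert hd using 1
      ring
    · exact Nat.lt_succ_of_le (le_of_lt (lt_of_pow_lt_pow_left₀ 2 (by positivity)
        (h1.1.trans_lt h7)))
    · have h8 : (W : ℤ) * (κ * (c0 + w * xs (yy q.1 q.2.1))) = κ * nn (yy q.1 q.2.1) := by
        rw [hnn]; push_cast; ring
      rw [h8, ← h0]; ring
  · have h0 := hfact q hq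
    have h0' := hfact q' hq'
    simp only [Sigma.mk.injEq, heq_eq_eq] at h
    rw [h.1, h.2, h0'] at h0
    have h1 : κ * nn (yy q'.1 q'.2.1) = κ * nn (yy q.1 q.2.1) := by exact_mod_cast h0
    have h2 : yy q.1 q.2.1 = yy q'.1 q'.2.1 := by
      have h3 := hn1 (yy q.1 q.2.1)
      have h4 := hn1 (yy q'.1 q'.2.1)
      exact le_antisymm
        (Nat.le_of_lt_succ (Nat.lt_of_mul_lt_mul_left (a := Q) (h3.1.trans_lt (h1 ▸ h4.2))))
        (Nat.le_of_lt_succ (Nat.lt_of_mul_lt_mul_left (a := Q) (h4.1.trans_lt (h1 ▸ h3.2))))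
    have h3 := (hjj q hq).2.1
    have h4 := (hjj q' hq').2.1
    simp only [coe_product, Set.mem_prod, mem_coe] at hq hq'
    obtain ⟨h5, h6⟩ := hwin _ hq.1 _ hq.2.1
    obtain ⟨h7, h8⟩ := hwin _ hq'.1 _ hq'.2.1
    rw [← h2] at h7 h8
    have h11 : q.1 = q'.1 := window_unique h5 h6 h7 h8
    have h12 : q.2.1 = q'.2.1 := by
      rw [hyy, hyy, h11] at h2; exact Nat.add_left_cancel h2
    rw [h.2, h4] at h3
    exact Prod.ext h11 (Prod.ext h12 (class_unique (mem_range.mp hq.2.2) (mem_range.mp hq'.2.2) h3))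

theorem even_core {t : ℕ} (ht : Odd t) : ∃ C w : ℕ, 0 < w ∧ ∀ r Y, C ≤ 2 ^ r →
    (2 ^ (16 * 2 ^ r)) ^ 8 ≤ Y → Y.sqrt * 2 ^ r ≤ C * (evc t (w * Y) + C) := by
  classical
  obtain ⟨κ, κ', D, z, w, A, e, c, hκ, hz, hw, hwκ, hc, -, -, hcp⟩ := hecke_main ht
  obtain ⟨C0, hC0⟩ := vec_eq hκ hc
  refine ⟨48 * 12 * 80 * w * κ + C0 + e + z ^ 2 + 100, w, hw, fun r Y hr hY => ?_⟩
  obtain ⟨p, hp, hp2, hp3, hp4, hp5⟩ := exists_fermat_prime r
  obtain ⟨a, ha⟩ : ∃ a, a + 1 = 13 * 2 ^ r + C0 := ⟨13 * 2 ^ r + C0 - 1, by omega⟩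
  obtain ⟨W, hW⟩ : ∃ W, W = 2 ^ (a + 1) * p := ⟨_, rfl⟩
  have hκ0 := hκ.pos
  have hwk : w * 1 ≤ w * κ := Nat.mul_le_mul_left _ hκ0
  have hwodd : Odd w := Nat.coprime_two_right.mp (hwκ.coprime_dvd_right (by
    rcases hκ with ⟨rfl, _⟩ | ⟨rfl, _⟩ <;> norm_num))
  have hpw : Nat.Coprime p w := (Nat.Prime.coprime_iff_not_dvd hp).mpr
    (Nat.not_dvd_of_pos_of_lt hw (by linarith [Nat.zero_le (z ^ 2)]))
  obtain ⟨c0, hc0, hnr⟩ := exists_nonres (b := κ * W) hwodd (hwκ.mul_right (by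
    rw [hW]; exact (Nat.Coprime.pow_right _ (Nat.coprime_two_right.mpr hwodd)).mul_right hpw.symm))
  have hvan : ∀ n, ¬ p ∣ n → vec r κ c (W * n + D) = 0 := by
    intro n hn
    obtain ⟨b, o, ho, rfl⟩ := Nat.exists_eq_two_pow_mul_odd (n := n) (by rintro rfl; simp at hn)
    have hpo : Nat.Coprime p o := (Nat.Prime.coprime_iff_not_dvd hp).mpr fun h =>
      hn (h.mul_left _)
    have hpodd := hp.odd_of_ne_two hp2
    rw [show W * (2 ^ b * o) = 2 ^ (a + 1 + b) * (p * o) by rw [hW]; ring,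
      hC0 r _ _ _ (by omega) le_rfl (hpodd.mul ho), sig_mul r hpo hpodd ho, sig_prime r hp, hp5,
      ← AddMonoidAlgebra.one_def, AddMonoidAlgebra.one_def, ← AddMonoidAlgebra.single_add]
    simp [show (1 + 1 : ZMod 2) = 0 from rfl]
  have hsel : ∀ y, ∃ x, 2 * y ≤ x ∧ x ≤ 2 * y + 1 ∧ vec r κ c (W * (c0 + w * x) + D) = 0 := by
    intro y
    by_cases h : p ∣ c0 + w * (2 * y)
    · refine ⟨2 * y + 1, by omega, le_rfl, hvan _ fun h' => ?_⟩
      rw [mul_add_one, ← add_assoc] at h'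
      exact (Nat.Prime.coprime_iff_not_dvd hp).mp hpw ((Nat.dvd_add_right h).mp h')
    · exact ⟨2 * y, le_rfl, by omega, hvan _ h⟩
  have hWV : W ≤ 2 ^ (16 * 2 ^ r) := by
    rw [hW]
    refine (Nat.mul_le_mul_left _ hp4).trans ?_
    rw [← pow_add]; exact Nat.pow_le_pow_right two_pos (by omega)
  have hW0 : 0 < W := by rw [hW]; have := hp.pos; positivity
  have hMV : 100 * 2 ^ r ≤ 2 ^ (16 * 2 ^ r) := by
    have h1 : 2 ^ r < 2 ^ 2 ^ r := Nat.lt_two_pow_self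
    have h2 : 100 ≤ 2 ^ (15 * 2 ^ r) := le_trans (by norm_num : 100 ≤ 2 ^ 15)
      (Nat.pow_le_pow_right two_pos (by omega))
    rw [show 16 * 2 ^ r = 15 * 2 ^ r + 2 ^ r by ring, pow_add]
    exact Nat.mul_le_mul h2 h1.le
  obtain ⟨K, x0, hK1, hbig, hx1, hfin⟩ := even_params (z := z) (s := Y.sqrt) hW0 hw hκ0 hWV hMV
    (by rw [Nat.le_sqrt', ← pow_mul]; exact hY) (by linarith [Nat.zero_le (w * κ)])
  have hcard := even_count hκ hz hW0 hc0 hnr hsel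
    ((Nat.pow_le_pow_left hK1 2).trans (Nat.sqrt_le' Y)) hbig hx1
  set E' := (range Y).filter fun m => coeff m c = 0 ∧
    ∀ l ∈ w.primeFactors, ¬ (l : ℤ) ∣ κ * m - z ^ 2 with hE'
  have hF : ∀ m ∈ E', ((range (24 * 2 ^ r * K + 1)).filter fun j : ℕ =>
      Odd j ∧ (W : ℤ) ∣ j ^ 2 + κ * m - z ^ 2).card ≤
      4 * (24 * 2 ^ r * K / (2 ^ a * p) + 1) := fun m _ => by
    refine card_roots (Or.inr ⟨hp, hp2⟩) (fun j hj => ?_) fun j hj j' hj' => ?_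
    · simp only [mem_filter, mem_range] at hj; exact ⟨Nat.le_of_lt_succ hj.1, hj.2.1⟩
    · simp only [mem_filter] at hj hj'
      rw [← hW]
      simpa using dvd_sub hj'.2.2 hj.2.2
  have hE : E'.card ≤ evc t (w * Y) + e := by
    rw [← card_filter_add_card_filter_not (s := E') (fun m => e ≤ w * m)]
    refine Nat.add_le_add ?_ ?_
    · refine card_le_card_of_injOn (fun m => w * m - e) (fun m hm => ?_) (fun m hm m' hm' h => ?_)
      · simp only [hE', coe_filter, mem_filter, mem_range, Set.mem_ofPred_eq] at hm ⊢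
        refine ⟨(Nat.sub_le _ _).trans_lt (Nat.mul_lt_mul_of_pos_left hm.1.1 hw), ?_⟩
        rw [← ZMod.natCast_eq_zero_iff_even, ← hcp m _ hm.1.2.2 (Nat.sub_add_cancel hm.2),
          hm.1.2.1]
      · simp only [coe_filter, Set.mem_ofPred_eq] at hm hm' h
        exact Nat.eq_of_mul_eq_mul_left hw ((Nat.sub_add_cancel hm.2).symm.trans
          (h ▸ Nat.sub_add_cancel hm'.2))
    · refine le_trans (card_le_card fun m hm => ?_) (card_range e).le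
      exact mem_range.mpr ((Nat.le_mul_of_pos_left m hw).trans_lt (not_le.mp (mem_filter.mp hm).2))
  rw [card_sigma] at hcard
  have h1 := hcard.trans ((sum_le_card_nsmul _ _ _ hF).trans (Nat.mul_le_mul_right _ hE))
  refine (hfin _ _ (2 ^ a * p) (by rw [hW]; ring) rfl h1 (by omega)).trans ?_
  exact Nat.mul_le_mul (by omega) (by omega)

theorem even_main {t : ℕ} (ht : Odd t) : ∃ c : ℝ, 0 < c ∧ ∀ᶠ X : ℕ in Filter.atTop,
    c * √X * Real.log X ≤ evc t X := by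
  obtain ⟨C, w, hw, h⟩ := even_core ht
  refine ⟨1 / (4096 * w * (C + 1)), by positivity, ?_⟩
  filter_upwards [Filter.eventually_ge_atTop (w * 2 ^ (256 * (C + w + 1)))] with X hX
  obtain ⟨Y, hY⟩ : ∃ Y, Y = X / w := ⟨_, rfl⟩
  have hY1 : 2 ^ (256 * (C + w + 1)) ≤ Y := by
    rw [hY, Nat.le_div_iff_mul_le hw, mul_comm]; exact hX
  have hY0 : Y ≠ 0 := by
    have : 0 < 2 ^ (256 * (C + w + 1)) := by positivity
    omega
  have hY2 : w * Y ≤ X := by rw [hY]; exact Nat.mul_div_le _ _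
  have hY3 : X < w * (Y + 1) := by rw [hY]; exact Nat.lt_mul_div_succ X hw
  obtain ⟨l, hl⟩ : ∃ l, l = Nat.log 2 Y := ⟨_, rfl⟩
  have hl1 : 256 * (C + w + 1) ≤ l := by rw [hl]; exact Nat.le_log_of_pow_le one_lt_two hY1
  have hl2 : 2 ^ l ≤ Y := by rw [hl]; exact Nat.pow_log_le_self 2 hY0
  have hl3 : Y < 2 ^ (l + 1) := by rw [hl]; exact Nat.lt_pow_succ_log_self one_lt_two Y
  obtain ⟨r, hr⟩ : ∃ r, r = Nat.log 2 (l / 128) := ⟨_, rfl⟩
  have hr2 : 2 ^ r ≤ l / 128 := by rw [hr]; exact Nat.pow_log_le_self 2 (by omega)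
  have hr3 : l / 128 < 2 ^ (r + 1) := by rw [hr]; exact Nat.lt_pow_succ_log_self one_lt_two _
  rw [pow_succ] at hr3
  have hV : (2 ^ (16 * 2 ^ r)) ^ 8 ≤ Y := by
    rw [← pow_mul]; exact (Nat.pow_le_pow_right two_pos (by omega)).trans hl2
  have h1 := h r Y (by omega) hV
  have h2 : evc t (w * Y) ≤ evc t X := card_le_card (filter_subset_filter _ (range_mono hY2))
  have h3 : 2 * C + 1 ≤ Y.sqrt := by
    rw [Nat.le_sqrt']
    refine le_trans ?_ hY1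
    have h4 : 2 * C + 1 < 2 ^ (2 * C + 1) := Nat.lt_two_pow_self
    refine (Nat.pow_le_pow_left h4.le 2).trans ?_
    rw [← pow_mul]; exact Nat.pow_le_pow_right two_pos (by omega)
  have h4 := Nat.lt_succ_sqrt' Y
  generalize Y.sqrt = s at *
  have hCM : C ≤ 2 ^ r := by omega
  have hl4 : w + l + 1 ≤ 512 * 2 ^ r := by omega
  generalize 2 ^ r = M at *
  have h5 : s * M ≤ 2 * (C + 1) * evc t X := by
    have : (2 * C) * C ≤ s * M := Nat.mul_le_mul (by omega) hCM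
    have h6 := Nat.mul_le_mul_left C h2
    nlinarith
  have h6 : √X ≤ 4 * w * s := by
    rw [Real.sqrt_le_iff]
    refine ⟨by positivity, ?_⟩
    have h7 : Y + 1 ≤ 16 * s ^ 2 := by
      rw [Nat.succ_eq_add_one] at h4; nlinarith
    have h8 : X ≤ (4 * w * s) ^ 2 := by
      calc X ≤ w * (16 * s ^ 2) := hY3.le.trans (Nat.mul_le_mul_left _ h7)
        _ ≤ w ^ 2 * (16 * s ^ 2) := Nat.mul_le_mul_right _ (by nlinarith)
        _ = _ := by ring
    exact_mod_cast h8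
  have h7 : Real.log X ≤ 512 * M := by
    have h8 : X ≤ 2 ^ (w + l + 1) := by
      have : w < 2 ^ w := Nat.lt_two_pow_self
      rw [add_assoc, pow_add]
      exact hY3.le.trans (Nat.mul_le_mul this.le hl3)
    have hX0 : (0 : ℝ) < X := by
      have : 0 < X := lt_of_lt_of_le (by positivity) hX
      exact_mod_cast this
    calc Real.log X ≤ Real.log (2 ^ (w + l + 1)) := Real.log_le_log hX0 (by exact_mod_cast h8)
      _ = (w + l + 1 : ℕ) * Real.log 2 := by rw [Real.log_pow]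
      _ ≤ (512 * M : ℕ) * 1 := by
        gcongr
        linarith [Real.log_two_lt_d9]
      _ = _ := by push_cast; ring
  have h8 : (s : ℝ) * M ≤ 2 * (C + 1) * evc t X := by exact_mod_cast h5
  have hw' : (0 : ℝ) < w := by exact_mod_cast hw
  calc 1 / (4096 * w * (C + 1)) * √X * Real.log X
      ≤ 1 / (4096 * w * (C + 1)) * (4 * w * s) * (512 * M) := by
        gcongr
    _ = (s * M) / (2 * (C + 1)) := by field_simp; ring
    _ ≤ evc t X := by rw [div_le_iff₀ (by positivity)]; linarith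

end Pool.Agent.Lib.MP_a3366f_nt.H28
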