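import Pool.Agent.Lib.MP_a3366f_nt.H28.Level1

open PowerSeries Finset ArithmeticFunction

namespace Pool.Agent.Lib.MP_a3366f_nt.H28

variable {R : Type*} [CommRing R]

lemma sigma_two_pow_mul (k i : ℕ) {n : ℕ} (hn : Odd n) :
    sigma k (2 ^ i * n) = (∑ j ∈ range (i + 1), 2 ^ (j * k)) * sigma k n := by
  rw [isMultiplicative_sigma.map_mul_of_coprime
    (Nat.Coprime.pow_left _ (Nat.coprime_two_left.mpr hn)), sigma_apply_prime_pow Nat.prime_two]

lemma sigma_two_mul (k m : ℕ) (hm : m ≠ 0) :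
    sigma k (2 * m) + 2 ^ k * (if 2 ∣ m then sigma k (m / 2) else 0) = (1 + 2 ^ k) * sigma k m := by
  obtain ⟨i, n, hn, rfl⟩ := Nat.exists_eq_two_pow_mul_odd hm
  rw [← mul_assoc, ← pow_succ', sigma_two_pow_mul k _ hn, sigma_two_pow_mul k _ hn]
  cases i with
  | zero =>
    rw [if_neg (by simpa using hn.not_two_dvd_nat)]
    simp [sum_range_succ]
  | succ i =>
    rw [if_pos ⟨2 ^ i * n, by ring⟩, show 2 ^ (i + 1) * n / 2 = 2 ^ i * n by
      rw [pow_succ', mul_assoc, Nat.mul_div_cancel_left _ two_pos], sigma_two_pow_mul k _ hn]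
    have h1 : ∑ j ∈ range (i + 1 + 1), 2 ^ (j * k) = 1 + 2 ^ k * ∑ j ∈ range (i + 1), 2 ^ (j * k) := by
      rw [sum_range_succ', mul_sum, add_comm]
      simp only [zero_mul, pow_zero]
      congr 1
      exact sum_congr rfl fun j _ => by ring
    have h2 : ∑ j ∈ range (i + 1 + 1 + 1), 2 ^ (j * k) =
        1 + 2 ^ k * ∑ j ∈ range (i + 1 + 1), 2 ^ (j * k) := by
      rw [sum_range_succ', mul_sum, add_comm]
      simp only [zero_mul, pow_zero]
      congr 1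
      exact sum_congr rfl fun j _ => by ring
    rw [h2, h1]; ring

lemma UU_Eis (c : R) (k : ℕ) :
    UU 2 (Eis c k) = (1 + 2 ^ k) * Eis c k - 2 ^ k * V2 (Eis c k) := by
  ext n
  rw [show (1 + 2 ^ k : R⟦X⟧) = C (1 + 2 ^ k) by simp [map_ofNat],
    show (2 ^ k : R⟦X⟧) = C (2 ^ k) by simp [map_ofNat]]
  simp only [coeff_UU, map_sub, coeff_C_mul, coeff_Eis, coeff_expand]
  rcases Nat.eq_zero_or_pos n with rfl | hn
  · simp
  · have h := congrArg (Nat.cast : ℕ → R) (sigma_two_mul k n hn.ne')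
    push_cast at h
    rw [if_neg (by omega), if_neg hn.ne']
    split_ifs at h ⊢ with h1 h2
    · omega
    · linear_combination c * h
    · linear_combination c * h

lemma UU_SS : UU 2 (SS R) = 3 * SS R - 2 * V2 (SS R) := by
  have h1 : SS R = Eis 1 1 - 1 := by
    ext n; rw [map_sub, coeff_Eis, coeff_one]; split_ifs with h <;> simp [SS, h]
  have h2 : UU 2 (1 : R⟦X⟧) = 1 := by simpa using UU_expand 2 two_ne_zero (1 : R⟦X⟧)
  rw [h1, map_sub, UU_Eis, h2, map_sub, map_one]; ring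

lemma UU_ofNat (l n : ℕ) [n.AtLeastTwo] (φ : R⟦X⟧) :
    UU l (ofNat(n) * φ) = ofNat(n) * UU l φ := by
  change UU l (C (n : R) * φ) = C (n : R) * _
  rw [← smul_eq_C_mul, map_smul, smul_eq_C_mul]

lemma UU_V2_mul (φ ψ : R⟦X⟧) : UU 2 (V2 ψ * φ) = ψ * UU 2 φ := by
  rw [mul_comm, UU_mul_expand, mul_comm]

lemma odd_series {φ : R⟦X⟧} (h : UU 2 φ = 0) : ∃ ψ, φ = X * V2 ψ := by
  refine ⟨PowerSeries.mk fun n => coeff (2 * n + 1) φ, ?_⟩
  ext n
  cases n with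
  | zero => simpa using congrArg (coeff 0) h
  | succ n =>
    rw [coeff_succ_X_mul, coeff_expand]
    split_ifs with h2
    · obtain ⟨m, rfl⟩ := h2
      simp
    · obtain ⟨m, hm⟩ : ∃ m, n + 1 = 2 * m := ⟨(n + 1) / 2, by omega⟩
      rw [hm]; simpa using congrArg (coeff m) h

variable (R) in
noncomputable def Fo : R⟦X⟧ := SS R - 3 * V2 (SS R) + 2 * V2 (V2 (SS R))
variable (R) in
noncomputable def ai : R⟦X⟧ := invOfUnit (aa R) 1
variable (R) in
noncomputable def vv : R⟦X⟧ := Fo R * V2 (ai R)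
variable (R) in
noncomputable def ss : R⟦X⟧ := UU 2 (vv R ^ 2)
variable (R) in
noncomputable def ww : R⟦X⟧ := V2 (aa R) * ai R

lemma aa_mul_ai : aa R * ai R = 1 := mul_invOfUnit _ _ (by simp)

lemma map_SS {S : Type*} [CommRing S] (φ : R →+* S) : PowerSeries.map φ (SS R) = SS S := by
  ext n; simp [SS]
lemma map_Fo {S : Type*} [CommRing S] (φ : R →+* S) : PowerSeries.map φ (Fo R) = Fo S := by
  simp [Fo, map_expand, map_SS, map_ofNat]
lemma map_ai {S : Type*} [CommRing S] (φ : R →+* S) : PowerSeries.map φ (ai R) = ai S := by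
  have h1 := congrArg (PowerSeries.map φ) (aa_mul_ai (R := R))
  rw [map_mul, map_aa, map_one] at h1
  have h2 := aa_mul_ai (R := S)
  linear_combination ai S * h1 - PowerSeries.map φ (ai R) * h2
lemma map_vv {S : Type*} [CommRing S] (φ : R →+* S) : PowerSeries.map φ (vv R) = vv S := by
  simp [vv, map_expand, map_Fo, map_ai]
lemma map_ss {S : Type*} [CommRing S] (φ : R →+* S) : PowerSeries.map φ (ss R) = ss S := by
  simp [ss, map_UU, map_vv]

lemma UU_Fo : UU 2 (Fo R) = 0 := by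
  rw [Fo, map_add, map_sub, UU_ofNat, UU_ofNat, UU_expand, UU_expand, UU_SS]; ring

lemma aa_sub : aa R = V2 (aa R) + 24 * Fo R := by
  simp only [aa, E2_eq, Fo, map_sub, map_mul, map_one, map_ofNat]; ring

lemma V2_aa_ai : V2 (aa R) * V2 (ai R) = 1 := by rw [← map_mul, aa_mul_ai, map_one]

lemma A2 : aa R = V2 (aa R) * (1 + 24 * vv R) := by
  rw [vv]; linear_combination aa_sub (R := R) - 24 * Fo R * V2_aa_ai (R := R)

lemma ww_mul : (1 + 24 * vv R) * ww R = 1 := by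
  rw [ww]; linear_combination aa_mul_ai (R := R) - ai R * A2 (R := R)

lemma UU_vv (x : R⟦X⟧) : UU 2 (vv R * V2 x) = 0 := by
  rw [vv, mul_assoc, ← map_mul, UU_mul_expand, UU_Fo, zero_mul]

lemma V2_ss : V2 (ss R) = vv R ^ 2 := by
  obtain ⟨ψ, h⟩ := odd_series (φ := vv R) (by simpa using UU_vv (R := R) 1)
  have : vv R ^ 2 = V2 (X * ψ ^ 2) := by rw [h, map_mul, map_pow, expand_X]; ring
  rw [ss, this, UU_expand]

lemma constantCoeff_vv : constantCoeff (vv R) = 0 := by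
  obtain ⟨ψ, h⟩ := odd_series (φ := vv R) (by simpa using UU_vv (R := R) 1)
  rw [h]; simp

lemma cancelZ (n : ℕ) [n.AtLeastTwo] {x y : ℤ⟦X⟧} (h : ofNat(n) * x = ofNat(n) * y) : x = y := by
  refine mul_left_cancel₀ ?_ h
  change (C (n : ℤ) : ℤ⟦X⟧) ≠ 0
  have := Nat.AtLeastTwo.prop (n := n)
  intro h0
  have := congrArg constantCoeff h0
  simp at this; omega

lemma A5Z : E4 ℤ = aa ℤ ^ 2 * (1 + 192 * ss ℤ) := by
  have hU2 : UU 2 (E2 ℤ) = 3 * E2 ℤ - 2 * V2 (E2 ℤ) := by rw [E2, UU_Eis]; norm_num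
  have hU4 : UU 2 (E4 ℤ) = 9 * E4 ℤ - 8 * V2 (E4 ℤ) := by rw [E4, UU_Eis]; norm_num
  have h1 := congrArg (UU 2) (R1 ℤ)
  have hE : E2 ℤ ^ 2 = V2 ((2 * E2 ℤ - aa ℤ) ^ 2) + 576 * (V2 (aa ℤ ^ 2) * vv ℤ ^ 2)
      - 48 * (vv ℤ * V2 (aa ℤ * (2 * E2 ℤ - aa ℤ))) := by
    have h2 : E2 ℤ = V2 (2 * E2 ℤ - aa ℤ) - 24 * V2 (aa ℤ) * vv ℤ := by
      have := A2 (R := ℤ)
      rw [map_sub, map_mul, map_ofNat]
      have h3 : aa ℤ = 2 * V2 (E2 ℤ) - E2 ℤ := rfl
      linear_combination h3 - this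
    rw [map_pow, map_pow, map_mul]
    linear_combination (E2 ℤ + V2 (2 * E2 ℤ - aa ℤ) - 24 * V2 (aa ℤ) * vv ℤ) * h2
  rw [UU_ofNat, UU_th, map_sub, hU2, hU4, hE, map_sub, map_add, UU_ofNat, UU_ofNat, UU_vv,
    UU_expand, UU_V2_mul, ← ss, th_sub, th_mul, th_mul, th_expand] at h1
  have h2 := R1 ℤ
  have h3 := congrArg V2 h2
  simp only [map_mul, map_sub, map_pow, map_ofNat] at h3
  simp only [th_ofNat, zero_mul, zero_add] at h1
  push_cast at h1
  apply cancelZ 3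
  rw [aa] at h1 ⊢
  linear_combination h1 - 6 * h2 + 8 * h3

lemma A5 : E4 R = aa R ^ 2 * (1 + 192 * ss R) := by
  simpa [map_E4, map_aa, map_ss, map_ofNat] using
    congrArg (PowerSeries.map (Int.castRingHom R)) A5Z

lemma isUnit_aa : IsUnit (aa R) := IsUnit.of_mul_eq_one _ aa_mul_ai
lemma isUnit_V2_aa : IsUnit (V2 (aa R)) := IsUnit.of_mul_eq_one _ V2_aa_ai

lemma A4Z : ss ℤ * (1 + 24 * vv ℤ) ^ 2 = vv ℤ * (1 + 8 * vv ℤ) := by
  have h1 := R2 ℤ
  have h2 := congrArg V2 A5Z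
  simp only [map_mul, map_add, map_pow, map_ofNat, map_one, V2_ss] at h2
  rw [h2, A5Z] at h1
  apply cancelZ 192
  apply (isUnit_V2_aa.pow 2).mul_left_cancel
  have h3 := A2 (R := ℤ)
  linear_combination h1 - (-4 + 192 * ss ℤ) * (aa ℤ + V2 (aa ℤ) * (1 + 24 * vv ℤ)) * h3

lemma A4 : ss R = vv R * ((1 + 8 * vv R) * ww R ^ 2) := by
  have h : ss R * (1 + 24 * vv R) ^ 2 = vv R * (1 + 8 * vv R) := by
    simpa [map_vv, map_ss, map_ofNat] using congrArg (PowerSeries.map (Int.castRingHom R)) A4Z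
  have h2 := ww_mul (R := R)
  linear_combination ww R ^ 2 * h - ss R * ((1 + 24 * vv R) * ww R + 1) * h2

lemma A6' : 12 * th (aa R) = 2 * E2 R * aa R - 2 * aa R ^ 2 + 384 * aa R ^ 2 * ss R := by
  have h2 := R1 R
  have h3 := congrArg V2 h2
  simp only [map_mul, map_sub, map_pow, map_ofNat] at h3
  have h4 := R2 R
  have h5 := A5 (R := R)
  have h6 : th (aa R) = 4 * V2 (th (E2 R)) - th (E2 R) := by
    rw [aa, th_sub, th_mul, th_expand]; simp only [th_ofNat]; push_cast; ring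
  have h7 : aa R = 2 * V2 (E2 R) - E2 R := rfl
  rw [h6]
  linear_combination 4 * h3 - h2 - h4 + 2 * h5 - (aa R + 2 * V2 (E2 R) + E2 R) * h7

lemma A7Z : th (vv ℤ) = aa ℤ * vv ℤ * (1 + 8 * vv ℤ) * (1 - 8 * vv ℤ) * ww ℤ := by
  have h1 := congrArg th (A2 (R := ℤ))
  rw [th_mul, th_expand, th_add, th_mul] at h1
  simp only [th_ofNat, th_one] at h1
  push_cast at h1
  have h2 := A6' (R := ℤ)
  have h3 := congrArg V2 h2
  simp only [map_mul, map_sub, map_add, map_pow, map_ofNat, V2_ss] at h3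
  have h4 := A2 (R := ℤ)
  have h5 := A4 (R := ℤ)
  have h6 := ww_mul (R := ℤ)
  have h7 : aa ℤ = 2 * V2 (E2 ℤ) - E2 ℤ := rfl
  apply cancelZ 288
  apply isUnit_V2_aa.mul_left_cancel
  set a := aa ℤ
  set b := V2 a
  set v := vv ℤ
  set w := ww ℤ
  have h8 : 288 * b * th v = -4 * a ^ 2 + 384 * a ^ 2 * ss ℤ + 4 * a * b - 768 * a * b * v ^ 2 := by
    linear_combination -12 * h1 + h2 - 2 * (1 + 24 * v) * h3
      + (4 * V2 (E2 ℤ) - 4 * b + 768 * b * v ^ 2) * h4 + 2 * a * h7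
  rw [h5] at h8
  have h9 : a * w = b := by linear_combination w * h4 + b * h6
  linear_combination h8 + (-4 * a) * h4 + 384 * a * v * (1 + 8 * v) * w * h9
    + 96 * a * b * v * (1 + 8 * v) * h6

lemma A7 : th (vv R) = aa R * vv R * (1 + 8 * vv R) * (1 - 8 * vv R) * ww R := by
  simpa [map_vv, map_th, map_aa, ww, map_expand, map_ai, map_ofNat] using
    congrArg (PowerSeries.map (Int.castRingHom R)) A7Z

lemma th_ss : th (ss R) = aa R * ss R * (1 - 64 * ss R) := by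
  have h : ss R * (1 + 24 * vv R) ^ 2 = vv R * (1 + 8 * vv R) := by
    simpa [map_vv, map_ss, map_ofNat] using congrArg (PowerSeries.map (Int.castRingHom R)) A4Z
  have h1 := congrArg th h
  rw [pow_two, th_mul, th_mul, th_mul, th_add, th_add, th_mul, th_mul] at h1
  simp only [th_ofNat, th_one] at h1
  have h2 := A7 (R := R)
  have h5 := A4 (R := R)
  have h6 := ww_mul (R := R)
  have hu : IsUnit (1 + 24 * vv R) := IsUnit.of_mul_eq_one _ h6
  apply (hu.pow 4).mul_left_cancel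
  set v := vv R
  set w := ww R
  set s := ss R
  have h7 : (1 + 24 * v) ^ 3 * th s = (1 - 8 * v) * th v := by
    linear_combination (1 + 24 * v) * h1 - 48 * th v * h
  have h8 : (1 + 24 * v) * th v = aa R * v * (1 + 8 * v) * (1 - 8 * v) := by
    linear_combination (1 + 24 * v) * h2 + aa R * v * (1 + 8 * v) * (1 - 8 * v) * h6
  linear_combination (1 + 24 * v) * h7 + (1 - 8 * v) * h8
    - aa R * ((1 + 24 * v) ^ 2 - 64 * (s * (1 + 24 * v) ^ 2 + v * (1 + 8 * v))) * h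

lemma A8Z : E6 ℤ = aa ℤ ^ 3 * (1 - 576 * ss ℤ) := by
  have h1 := congrArg th A5Z
  rw [pow_two, th_mul, th_mul, th_add, th_mul, th_ss] at h1
  simp only [th_ofNat, th_one] at h1
  have h2 := R5 ℤ
  have h3 := A6' (R := ℤ)
  have h4 := A5Z
  apply cancelZ 2
  linear_combination 2 * h2 - 6 * h1 - aa ℤ * (1 + 192 * ss ℤ) * h3 + 2 * E2 ℤ * h4

lemma A8 : E6 R = aa R ^ 3 * (1 - 576 * ss R) := by
  simpa [map_E6, map_aa, map_ss, map_ofNat] using
    congrArg (PowerSeries.map (Int.castRingHom R)) A8Z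

lemma A9 : DD R = aa R ^ 6 * (ss R * (1 - 64 * ss R) ^ 2) := by
  have : DD ℤ = aa ℤ ^ 6 * (ss ℤ * (1 - 64 * ss ℤ) ^ 2) := by
    apply cancelZ 1728
    rw [disc, A5Z, A8Z]; ring
  simpa [map_DD, map_aa, map_ss, map_ofNat] using
    congrArg (PowerSeries.map (Int.castRingHom R)) this

lemma two_eq_zero : (2 : (ZMod 2)⟦X⟧) = 0 := by
  change C (2 : ZMod 2) = 0
  rw [show (2 : ZMod 2) = 0 from rfl, _root_.map_zero]

lemma vv_two : vv (ZMod 2) = DD (ZMod 2) := by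
  have h2 := two_eq_zero
  have ha : aa (ZMod 2) = 1 := by
    rw [aa, E2_eq]; linear_combination (V2 (1 - 24 * SS (ZMod 2)) + 12 * SS (ZMod 2) - 1) * h2
  have hw : ww (ZMod 2) = 1 := by
    linear_combination ww_mul (R := ZMod 2) - 12 * vv (ZMod 2) * ww (ZMod 2) * h2
  have hs : ss (ZMod 2) = vv (ZMod 2) := by
    rw [A4, hw]; linear_combination 4 * vv (ZMod 2) ^ 2 * h2
  rw [A9, ha, hs]
  linear_combination (64 * vv (ZMod 2) ^ 2 - 2048 * vv (ZMod 2) ^ 3) * h2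

end Pool.Agent.Lib.MP_a3366f_nt.H28
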