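import Pool.Agent.Lib.MP_a3366f_nt.H28.Ops

open PowerSeries Finset

namespace Pool.Agent.Lib.MP_a3366f_nt.H28

variable {R : Type*} [CommRing R]

def tri (s : ℕ) : ℕ := s * (s + 1) / 2

lemma two_mul_tri (s : ℕ) : 2 * tri s = s * (s + 1) :=
  Nat.mul_div_cancel' (Nat.even_mul_succ_self s).two_dvd

lemma tri_even (n : ℕ) : tri (2 * n) = n * (2 * n + 1) := by
  have := two_mul_tri (2 * n); nlinarith
lemma tri_odd (n : ℕ) : tri (2 * n + 1) = (n + 1) * (2 * n + 1) := by
  have := two_mul_tri (2 * n + 1); nlinarith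

section shanks
variable (x : R)

def Od (n : ℕ) : R := ∏ i ∈ range n, (1 - x ^ (2 * i + 1))
def Ev (s n : ℕ) : R := ∏ i ∈ Ico s n, (1 - x ^ (2 * i))
def Bs (n : ℕ) : R := ∑ s ∈ range n, Ev x (s + 1) (n + 1) * Od x s * x ^ (s * (2 * n + 1))

lemma Ev_zero (n : ℕ) : Ev x 0 (n + 1) = 0 :=
  Finset.prod_eq_zero (i := 0) (by simp) (by simp)

lemma shanks (n : ℕ) : Bs x n = Od x n * ∑ s ∈ range (2 * n), x ^ tri s := by
  induction n with
  | zero => simp [Bs]
  | succ n ih =>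
    let T : ℕ → R := fun s => Ev x s (n + 1) * Od x s * x ^ (s * (2 * n + 1))
    have htel : ∑ s ∈ range (n + 1), (T (s + 1) - T s) = T (n + 1) - T 0 := Finset.sum_range_sub T _
    have hT0 : T 0 = 0 := by simp [T, Ev_zero]
    have hTn : T (n + 1) = Od x (n + 1) * x ^ ((n + 1) * (2 * n + 1)) := by simp [T, Ev]
    have hterm : ∀ s ∈ range (n + 1), T (s + 1) - T s =
        Ev x (s + 1) (n + 1 + 1) * Od x s * x ^ (s * (2 * (n + 1) + 1)) -
          (1 - x ^ (2 * n + 1)) * (Ev x (s + 1) (n + 1) * Od x s * x ^ (s * (2 * n + 1))) := by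
      intro s hs
      rw [mem_range] at hs
      have h1 : Ev x s (n + 1) = (1 - x ^ (2 * s)) * Ev x (s + 1) (n + 1) := by
        rw [Ev, Ev, Finset.prod_eq_prod_Ico_succ_bot hs]
      have h2 : Ev x (s + 1) (n + 1 + 1) = Ev x (s + 1) (n + 1) * (1 - x ^ (2 * (n + 1))) := by
        rw [Ev, Ev, Finset.prod_Ico_succ_top (by omega)]
      have h3 : Od x (s + 1) = Od x s * (1 - x ^ (2 * s + 1)) := by
        rw [Od, Od, prod_range_succ]
      simp only [T]
      rw [h1, h2, h3]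
      ring
    rw [Finset.sum_congr rfl hterm, Finset.sum_sub_distrib, ← Finset.mul_sum,
      hT0, hTn] at htel
    have hB : Bs x (n + 1) = ∑ s ∈ range (n + 1),
      Ev x (s + 1) (n + 1 + 1) * Od x s * x ^ (s * (2 * (n + 1) + 1)) := rfl
    have hB' : Bs x n = ∑ s ∈ range n,
      Ev x (s + 1) (n + 1) * Od x s * x ^ (s * (2 * n + 1)) := rfl
    have h4 : Ev x (n + 1) (n + 1) = 1 := by simp [Ev]
    have h3 : Od x (n + 1) = Od x n * (1 - x ^ (2 * n + 1)) := by
      rw [Od, Od, prod_range_succ]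
    rw [← hB, sum_range_succ, ← hB', h4, ih] at htel
    rw [show 2 * (n + 1) = 2 * n + 1 + 1 by ring, sum_range_succ, sum_range_succ, tri_even, tri_odd]
    rw [h3] at htel ⊢
    linear_combination htel

lemma Ev_mul_Od (n : ℕ) : Ev x 1 (n + 1) * Od x n = ∏ i ∈ range (2 * n), (1 - x ^ (i + 1)) := by
  induction n with
  | zero => simp [Ev, Od]
  | succ n ih =>
    rw [show 2 * (n + 1) = 2 * n + 1 + 1 by ring, prod_range_succ, prod_range_succ, ← ih, Ev, Ev,
      Finset.prod_Ico_succ_top (by omega), Od, Od, prod_range_succ]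
    ring

end shanks

variable (R) in
/-- Gauss' triangular number series -/
noncomputable def psi : R⟦X⟧ := PowerSeries.mk fun g => if IsSquare (8 * g + 1) then 1 else 0

lemma tri_injective : Function.Injective tri := by
  intro a b h
  have h1 := two_mul_tri a
  have h2 := two_mul_tri b
  rw [h] at h1
  rcases lt_trichotomy a b with h3 | h3 | h3
  · nlinarith
  · exact h3
  · nlinarith

lemma psi_sub (n : ℕ) : X ^ n ∣ psi R - ∑ s ∈ range n, X ^ tri s := by
  rw [X_pow_dvd_iff]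
  intro m hm
  rw [map_sub, map_sum, sub_eq_zero]
  simp only [psi, coeff_mk, coeff_X_pow]
  split_ifs with h
  · obtain ⟨j, hj⟩ := h
    have hodd : Odd j := by
      have : Odd (j * j) := hj ▸ ⟨4 * m, by ring⟩
      exact (Nat.odd_mul.mp this).1
    obtain ⟨s, rfl⟩ := hodd
    have h1 := two_mul_tri s
    have hm' : m = tri s := by nlinarith
    have hs : s < n := by nlinarith
    rw [Finset.sum_eq_single s]
    · simp [hm']
    · intro b _ hb
      rw [if_neg]
      rw [hm']; exact fun h => hb (tri_injective h).symm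
    · intro h; exact absurd (mem_range.mpr hs) h
  · symm
    refine Finset.sum_eq_zero fun s _ => if_neg fun hs => h ⟨2 * s + 1, ?_⟩
    have h1 := two_mul_tri s
    nlinarith

lemma X_pow_dvd_expand {l : ℕ} (hl : l ≠ 0) {n : ℕ} {g : R⟦X⟧} (h : X ^ n ∣ g) :
    X ^ n ∣ expand l hl g := by
  obtain ⟨c, rfl⟩ := h
  rw [map_mul, map_pow, expand_X, ← pow_mul]
  exact Dvd.dvd.mul_right (pow_dvd_pow _ (Nat.le_mul_of_pos_left _ (Nat.pos_of_ne_zero hl))) _

lemma V2_PP (n : ℕ) : V2 (PP R n) = Ev X 1 (n + 1) := by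
  induction n with
  | zero => simp [PP, Ev]
  | succ n ih =>
    rw [PP, prod_range_succ, ← PP, map_mul, ih, Ev, Ev, Finset.prod_Ico_succ_top (b := n + 1)
      (by omega), map_sub, map_one, map_pow, expand_X, ← pow_mul]

theorem gauss : psi R * ff R = V2 (ff R) ^ 2 := by
  apply eq_of_forall_X_pow_dvd
  intro N
  set n := N + 1 with hn
  have h1 : (X : R⟦X⟧) ^ N ∣ Bs X n - Ev X 1 (n + 1) := by
    rw [Bs, hn, Finset.sum_range_succ']
    simp only [zero_add, zero_mul, pow_zero, mul_one, Od, range_zero, prod_empty,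
      add_sub_cancel_right]
    refine Finset.dvd_sum fun s _ => Dvd.dvd.mul_left (pow_dvd_pow _ ?_) _
    nlinarith
  have h2 : (X : R⟦X⟧) ^ N ∣ psi R - ∑ s ∈ range (2 * n), X ^ tri s :=
    (pow_dvd_pow _ (by omega)).trans (psi_sub (2 * n))
  have h3 : (X : R⟦X⟧) ^ N ∣ ff R - PP R (2 * n) :=
    (pow_dvd_pow _ (by omega)).trans (ff_sub_PP (2 * n))
  have h4 : (X : R⟦X⟧) ^ N ∣ V2 (ff R) - Ev X 1 (n + 1) := by
    rw [← V2_PP, ← map_sub]
    exact X_pow_dvd_expand _ ((pow_dvd_pow _ (by omega)).trans (ff_sub_PP n))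
  have h5 := shanks (X : R⟦X⟧) n
  have h6 : Ev X 1 (n + 1) * Od X n = PP R (2 * n) := Ev_mul_Od X n
  set S := ∑ s ∈ range (2 * n), (X : R⟦X⟧) ^ tri s
  set E := Ev (X : R⟦X⟧) 1 (n + 1)
  have : psi R * ff R - V2 (ff R) ^ 2 = (psi R - S) * ff R + S * (ff R - PP R (2 * n))
      + E * (Bs X n - E) - (V2 (ff R) - E) * (V2 (ff R) + E) := by
    rw [← h6, h5]; ring
  rw [this]
  exact dvd_sub (dvd_add (dvd_add (h2.mul_right _) (h3.mul_left _)) (h1.mul_left _))
    (h4.mul_right _)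

lemma map_psi {S : Type*} [CommRing S] (φ : R →+* S) : PowerSeries.map φ (psi R) = psi S := by
  ext n; simp only [psi, coeff_map, coeff_mk]; split_ifs <;> simp

@[simp] lemma constantCoeff_psi : constantCoeff (psi R) = 1 := by
  rw [← coeff_zero_eq_constantCoeff_apply]; simp [psi]

variable (R) in
/-- the weight two form 2 E2(q^2) - E2(q) -/
noncomputable def aa : R⟦X⟧ := 2 * V2 (E2 R) - E2 R

lemma map_aa {S : Type*} [CommRing S] (φ : R →+* S) : PowerSeries.map φ (aa R) = aa S := by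
  simp [aa, map_expand, map_E2, map_ofNat]

@[simp] lemma constantCoeff_aa : constantCoeff (aa R) = 1 := by
  simp [aa, map_ofNat]; norm_num

lemma isUnit_ff : IsUnit (ff R) := IsUnit.of_mul_eq_one_right _ Pgf_mul_ff

lemma th_psi : 24 * th (psi R) = (E2 R + 2 * aa R - 3) * psi R := by
  have h1 := congrArg th (gauss (R := R))
  rw [th_mul, pow_two, th_mul, th_expand] at h1
  have h2 := th_ff' (R := R)
  have h3 := congrArg (V2 (R := R)) h2
  simp only [map_mul, map_sub, map_one, map_ofNat] at h3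
  have h4 := gauss (R := R)
  apply (isUnit_ff (R := R)).mul_right_cancel
  rw [aa]
  push_cast at h1
  linear_combination 24 * h1 - psi R * h2 + 4 * V2 (ff R) * h3 - 4 * (V2 (E2 R) - 1) * h4

lemma pent_sq (g : ℕ) : g ∈ Set.range pentagonal ↔ IsSquare (24 * g + 1) := by
  constructor
  · rintro ⟨k, rfl⟩
    have := two_mul_natCast_pentagonal k
    refine ⟨(6 * k - 1).natAbs, ?_⟩
    zify
    rw [abs_mul_abs_self]; nlinarith
  · rintro ⟨j, hj⟩
    have hj' : (24 * g + 1 : ℤ) = j * j := by exact_mod_cast hj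
    have h6 : (j : ℤ) % 6 = 1 ∨ (j : ℤ) % 6 = 5 := by
      have h1 : (j : ℤ) % 6 = 0 ∨ (j : ℤ) % 6 = 1 ∨ (j : ℤ) % 6 = 2 ∨ (j : ℤ) % 6 = 3 ∨
        (j : ℤ) % 6 = 4 ∨ (j : ℤ) % 6 = 5 := by omega
      have h2 : ((j : ℤ) * j) % 6 = 1 := by omega
      rw [Int.mul_emod] at h2
      rcases h1 with h | h | h | h | h | h <;> simp [h] at h2 ⊢
    rcases h6 with h | h
    · obtain ⟨k, hk⟩ : ∃ k : ℤ, (j : ℤ) = 6 * k + 1 := ⟨j / 6, by omega⟩
      refine ⟨-k, ?_⟩
      have := two_mul_natCast_pentagonal (-k)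
      have h3 : (pentagonal (-k) : ℤ) = g := by rw [hk] at hj'; nlinarith
      exact_mod_cast h3
    · obtain ⟨k, hk⟩ : ∃ k : ℤ, (j : ℤ) = 6 * k - 1 := ⟨j / 6 + 1, by omega⟩
      refine ⟨k, ?_⟩
      have := two_mul_natCast_pentagonal k
      have h3 : (pentagonal k : ℤ) = g := by rw [hk] at hj'; nlinarith
      exact_mod_cast h3

lemma coeff_ff_two (g : ℕ) :
    coeff g (ff (ZMod 2)) = if IsSquare (24 * g + 1) then 1 else 0 := by
  split_ifs with h <;> rw [← pent_sq] at h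
  · obtain ⟨k, rfl⟩ := h
    rw [ff, coeff_pentagonalSeries_pentagonal]
    rcases Int.units_eq_one_or (Int.negOnePow k) with h | h <;> rw [h] <;> decide
  · exact coeff_pentagonalSeries_eq_zero _ h

/-- Frobenius in characteristic two -/
lemma sq_eq_V2 (g : (ZMod 2)⟦X⟧) : g ^ 2 = V2 g := by
  apply eq_of_forall_X_pow_dvd
  intro N
  have h1 : X ^ N ∣ g - (trunc N g : (ZMod 2)⟦X⟧) := by
    rw [X_pow_dvd_iff]; intro m hm; simp [coeff_trunc, hm]
  have h2 : ((trunc N g : (ZMod 2)⟦X⟧)) ^ 2 = V2 (trunc N g : (ZMod 2)⟦X⟧) := by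
    ext n
    rw [← Polynomial.coe_pow, Polynomial.coeff_coe, ← ZMod.expand_card, coeff_expand,
      Polynomial.coeff_expand (by norm_num), Polynomial.coeff_coe]
  have h3 := X_pow_dvd_expand (l := 2) two_ne_zero h1
  rw [map_sub] at h3
  have : g ^ 2 - V2 g = (g - (trunc N g : (ZMod 2)⟦X⟧)) * (g + (trunc N g : (ZMod 2)⟦X⟧))
      - (V2 g - V2 (trunc N g : (ZMod 2)⟦X⟧)) := by rw [← h2]; ring
  rw [this]
  exact dvd_sub (h1.mul_right _) h3

lemma psi_two : psi (ZMod 2) = ff (ZMod 2) ^ 3 := by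
  apply (isUnit_ff (R := ZMod 2)).mul_right_cancel
  rw [gauss, ← sq_eq_V2]; ring

end Pool.Agent.Lib.MP_a3366f_nt.H28
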