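import Pool.Agent.Lib.MP_a3366f_nt.H28.Vec

open PowerSeries Finset Complex
open scoped Real

namespace Pool.Agent.Lib.MP_a3366f_nt.H28

/-- exponent of the multiplier system of the eighth power of eta -/
def chi (a b c d : ℤ) : ℤ := (a + d) * c - b * d * (c ^ 2 - 1)

lemma chi_aux : ∀ a b c d q : ZMod 3, a * d - b * c = 1 →
    ((a + q * c + d) * c - (b + q * d) * d * (c ^ 2 - 1)) -
      (q + ((c + -b) * -a - d * -b * ((-a) ^ 2 - 1))) = 0 := by decide

lemma chi_step {a b c d : ℤ} (q : ℤ) (h : a * d - b * c = 1) :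
    ∃ m : ℤ, chi (a + q * c) (b + q * d) c d = q + chi c d (-a) (-b) + 3 * m := by
  have h1 := chi_aux a b c d q (by exact_mod_cast congrArg (Int.cast : ℤ → ZMod 3) h)
  have h2 : ((chi (a + q * c) (b + q * d) c d - (q + chi c d (-a) (-b)) : ℤ) : ZMod 3) = 0 := by
    simp only [chi]; push_cast; exact h1
  obtain ⟨m, hm⟩ := (ZMod.intCast_zmod_eq_zero_iff_dvd _ 3).mp h2
  exact ⟨m, by push_cast at hm; linear_combination hm⟩

lemma denom_ne {a b c d : ℤ} (h : a * d - b * c = 1) {z : ℂ} (hz : 0 < z.im) :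
    (c * z + d : ℂ) ≠ 0 := by
  intro h0
  have h1 := congrArg Complex.im h0
  have h2 := congrArg Complex.re h0
  simp only [add_im, mul_im, intCast_re, intCast_im, zero_mul, add_zero, zero_im, mul_eq_zero,
    Int.cast_eq_zero, add_re, mul_re, sub_zero, zero_re] at h1 h2
  have hc : c = 0 := h1.resolve_right hz.ne'
  subst hc
  have hd : d = 0 := by simpa using h2
  subst hd
  simp at h

lemma im_mob {a b c d : ℤ} (h : a * d - b * c = 1) {z : ℂ} (hz : 0 < z.im) :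
    0 < ((a * z + b) / (c * z + d) : ℂ).im := by
  have h0 := normSq_pos.mpr (denom_ne h hz)
  have h1 : ((a * z + b) / (c * z + d) : ℂ).im = z.im / normSq (c * z + d : ℂ) := by
    have h' : (a * d - b * c : ℝ) = 1 := by exact_mod_cast h
    rw [div_im]
    simp only [add_im, mul_im, intCast_re, intCast_im, zero_mul, add_zero, add_re, mul_re, sub_zero]
    field_simp
    linear_combination h'
  rw [h1]; positivity

lemma mob_law {F : ℂ → ℂ} {k : ℕ} (hk : Even k) (j : ℤ) (hS : Mod k F)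
    (hT : ∀ z : ℂ, 0 < z.im → ∀ q : ℤ, F (z + q) = ee (j * q / 3) * F z) :
    ∀ (n : ℕ) (a b c d : ℤ), c.natAbs = n → a * d - b * c = 1 → ∀ z : ℂ, 0 < z.im →
      F ((a * z + b) / (c * z + d)) = ee (j * chi a b c d / 3) * (c * z + d) ^ k * F z := by
  intro n
  induction n using Nat.strong_induction_on with
  | _ n ih =>
    intro a b c d hn h z hz
    rcases eq_or_ne c 0 with rfl | hc
    · rcases Int.eq_one_or_neg_one_of_mul_eq_one' (by simpa using h : a * d = 1) with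
        ⟨rfl, rfl⟩ | ⟨rfl, rfl⟩
      · simpa [chi] using hT z hz b
      · have := hT z hz (-b)
        rw [show ((-1 : ℤ) * z + b) / ((0 : ℤ) * z + (-1 : ℤ)) = z + (-b : ℤ) by
          push_cast; field_simp; ring, this]
        simp [chi, hk.neg_one_pow]
    · obtain ⟨q, a', rfl, ha'⟩ : ∃ q a' : ℤ, a = a' + q * c ∧ a'.natAbs < c.natAbs :=
        ⟨a / c, a % c, (Int.emod_add_ediv_mul a c).symm, by
          have := Int.emod_lt_abs a hc
          have := Int.emod_nonneg a hc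
          zify; rw [abs_of_nonneg this]; assumption⟩
      obtain ⟨b', rfl⟩ : ∃ b', b = b' + q * d := ⟨b - q * d, by ring⟩
      have h1 : a' * d - b' * c = 1 := by linear_combination h
      have h2 : c * -b' - d * -a' = 1 := by linear_combination h
      have h3 := ih _ (by simpa [← hn] using ha') c d (-a') (-b') rfl h2 z hz
      have h4 := hS _ (im_mob h2 hz)
      have h5 := hT _ (im_mob h1 hz) q
      have n1 := denom_ne h1 hz
      have n2 := denom_ne h2 hz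
      obtain ⟨m, hm⟩ := chi_step q h1
      rw [show -1 / ((c * z + d) / ((-a' : ℤ) * z + (-b' : ℤ)) : ℂ) = (a' * z + b') / (c * z + d) by
        push_cast; field_simp; ring] at h4
      rw [show (((a' + q * c : ℤ) : ℂ) * z + (b' + q * d : ℤ)) / (c * z + d) =
        (a' * z + b') / (c * z + d) + q by push_cast; field_simp; ring, h5, h4, h3, hm,
        show (j * ((q + chi c d (-a') (-b') + 3 * m : ℤ) : ℂ) / 3) =
          j * q / 3 + j * chi c d (-a') (-b') / 3 + (j * m : ℤ) by push_cast; ring,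
        ee_add, ee_add, ee_int, div_pow]
      generalize (((-a' : ℤ) : ℂ) * z + (-b' : ℤ)) = y at n2
      field_simp

lemma eta8_S {z : ℂ} (hz : 0 < z.im) :
    ModularForm.eta (-1 / z) ^ 8 = z ^ 4 * ModularForm.eta z ^ 8 := by
  have he : ModularForm.eta (-1 / z) = (sqrt I)⁻¹ * (sqrt z * ModularForm.eta z) := by
    simpa using ModularForm.eta_comp_eq_csqrt_I_inv hz
  have hs : ∀ w : ℂ, sqrt w ^ 8 = w ^ 4 := fun w => by
    rw [show 8 = 2 * 4 from rfl, pow_mul, Complex.sqrt, cpow_ofNat_inv_pow]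
  rw [he, mul_pow, mul_pow, inv_pow, hs, hs, I_pow_four]; simp

lemma eta8_eq (z : ℂ) : ModularForm.eta z ^ 8 = ee (z / 3) * Phi z ^ 8 := by
  rw [eta_eq, mul_pow, ← ee_nat_mul]; congr 2; push_cast; ring

lemma hecke_sum {F : ℂ → ℂ} {k : ℕ} (hk : Even k) (j : ℤ) (hS : Mod k F)
    (hT : ∀ z : ℂ, 0 < z.im → ∀ q : ℤ, F (z + q) = ee (j * q / 3) * F z) {l w : ℕ} (hl : l.Prime)
    (hw : Nat.Coprime l w) (hj : (3 : ℤ) ∣ j ∨ w = 3) :
    Mod k (fun z => l ^ k * F (l * z) + ∑ b ∈ range l, F ((z + (w * b : ℕ)) / l)) := by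
  intro z hz
  have := Fact.mk hl
  have hz0 := ne_zero_of_im hz
  have hl0 : (l : ℂ) ≠ 0 := by exact_mod_cast hl.ne_zero
  have hlp : (0 : ℝ) < l := by exact_mod_cast hl.pos
  have him : ∀ x : ℕ, 0 < ((z + x) / l).im := fun x => by
    rw [← ofReal_natCast l, div_ofReal_im]
    simp only [add_im, natCast_im, add_zero]; positivity
  have h1 := hS _ (him 0)
  have h2 := hS (l * z) (by simp; positivity)
  have hw0 : (w : ZMod l) ≠ 0 := by
    rw [Ne, ZMod.natCast_eq_zero_iff]; exact (Nat.Prime.coprime_iff_not_dvd hl).mp hw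
  let φ : ℕ → ℕ := fun b => (-((w : ZMod l) ^ 2 * b)⁻¹).val
  have hb0 : ∀ b ∈ Ico 1 l, (b : ZMod l) ≠ 0 := fun b hb => by
    rw [Ne, ZMod.natCast_eq_zero_iff]
    rw [mem_Ico] at hb
    exact Nat.not_dvd_of_pos_of_lt (by omega) hb.2
  have hφ : ∀ b ∈ Ico 1 l, φ b ∈ Ico 1 l := fun b hb => by
    rw [mem_Ico]
    refine ⟨Nat.one_le_iff_ne_zero.mpr ?_, ZMod.val_lt _⟩
    simp [φ, hw0, hb0 b hb]
  have hφφ : ∀ b ∈ Ico 1 l, φ (φ b) = b := fun b hb => by
    have := hb0 b hb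
    simp only [φ, ZMod.natCast_zmod_val]
    rw [show -((w : ZMod l) ^ 2 * -((w : ZMod l) ^ 2 * b)⁻¹)⁻¹ = b by field_simp,
      ZMod.val_cast_of_lt (mem_Ico.mp hb).2]
  have h3 : ∑ b ∈ Ico 1 l, F ((-1 / z + (w * b : ℕ)) / l) =
      ∑ b ∈ Ico 1 l, z ^ k * F ((z + (w * b : ℕ)) / l) := by
    refine Finset.sum_nbij' φ φ hφ hφ hφφ hφφ fun b hb => ?_
    have h4 : (((w ^ 2 * b * φ b + 1 : ℕ) : ℤ) : ZMod l) = 0 := by
      have := hb0 b hb
      push_cast
      simp only [φ, ZMod.natCast_zmod_val]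
      field_simp; ring
    obtain ⟨e, he⟩ := (ZMod.intCast_zmod_eq_zero_iff_dvd _ l).mp h4
    push_cast at he
    have hdet : (w * b : ℤ) * -(w * φ b) - -e * l = 1 := by linear_combination -he
    have h5 := mob_law hk j hS hT _ _ _ _ _ rfl hdet _ (him (w * φ b))
    have he' : (w : ℂ) ^ 2 * b * φ b + 1 = l * e := by exact_mod_cast he
    have h6 : (((l : ℤ) : ℂ) * ((z + (w * φ b : ℕ)) / l) + (-(w * φ b) : ℤ)) = z := by
      push_cast; field_simp; ring
    have h7 : ee (j * chi (w * b) (-e) l (-(w * φ b)) / 3) = 1 := by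
      rw [ee_eq_one_iff]
      rcases hj with ⟨j', rfl⟩ | rfl
      · exact ⟨j' * chi (w * b) (-e) l (-(w * φ b)), by push_cast; ring⟩
      · exact ⟨j * ((b - φ b) * l - e * φ b * (l ^ 2 - 1)), by simp only [chi]; push_cast; ring⟩
    rw [h6, h7, one_mul] at h5
    rw [← h5]
    congr 1
    push_cast; field_simp
    linear_combination -he'
  beta_reduce
  rw [range_eq_Ico, Finset.sum_eq_sum_Ico_succ_bot hl.pos, Finset.sum_eq_sum_Ico_succ_bot hl.pos,
    zero_add, h3, ← Finset.mul_sum]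
  simp only [mul_zero, Nat.cast_zero, add_zero] at h1 ⊢
  rw [show l * (-1 / z) = -1 / (z / l) by field_simp, h1,
    show -1 / z / l = -1 / (l * z) by field_simp, h2, div_pow, mul_pow]
  field_simp; ring

lemma hecke_MF {g : ℂ⟦X⟧} {W v l w n0 : ℕ} (hg : IsMF (4 * (W + v)) g) (hl : l.Prime)
    (hw : Nat.Coprime l w) (hj : 3 ∣ v ∨ w = 3) (hvw : 3 ∣ v * w) (hn0 : 3 * n0 + v = v * l ^ 2) :
    IsMF (4 * W + 4 * (v * l)) (ff ℂ ^ (8 * (v * l)) * (C ((l : ℂ) ^ (4 * W)) *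
      expand l hl.ne_zero (g * Pgf ℂ ^ (8 * v)) + C (l : ℂ) * UU l (X ^ n0 * (g * Pgf ℂ ^ (8 * v))))) := by
  obtain ⟨G, hG, hM⟩ := hg
  have hc := hG.mul (rep_Pgf.pow (8 * v))
  let cF : ℂ → ℂ := fun z => G z * (Phi z)⁻¹ ^ (8 * v)
  let F : ℂ → ℂ := fun z => ee (-(v * z / 3)) * cF z
  have hF : ∀ z : ℂ, 0 < z.im → F z * (ModularForm.eta z ^ 8) ^ v = G z := fun z hz => by
    have := Phi_ne_zero hz
    simp only [F, cF]
    rw [eta8_eq, mul_pow, ← ee_nat_mul, ← pow_mul]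
    have h1 : ee (-(v * z / 3)) * ee (v * (z / 3)) = 1 := by
      rw [← ee_add, ← ee_zero]; congr 1; ring
    have h2 : (Phi z)⁻¹ ^ (8 * v) * Phi z ^ (8 * v) = 1 := by
      rw [← mul_pow, inv_mul_cancel₀ this, one_pow]
    linear_combination G z * ((Phi z)⁻¹ ^ (8 * v) * Phi z ^ (8 * v)) * h1 + G z * h2
  have hS : Mod (4 * W) F := fun z hz => by
    have h1 := hF z hz
    have h2 := hF _ (im_neg_inv hz)
    rw [eta8_S hz, hM z hz, ← h1] at h2
    have h3 : (z ^ 4 * ModularForm.eta z ^ 8) ^ v ≠ 0 :=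
      pow_ne_zero _ (mul_ne_zero (pow_ne_zero _ (ne_zero_of_im hz))
        (pow_ne_zero _ (ModularForm.eta_ne_zero hz)))
    apply mul_right_cancel₀ h3
    rw [h2]; ring
  have hT : ∀ z : ℂ, 0 < z.im → ∀ q : ℤ, F (z + q) = ee ((-v : ℤ) * q / 3) * F z := fun z hz q => by
    have := hc.periodic z hz q
    simp only [F, cF] at this ⊢
    rw [this, ← mul_assoc (ee _) (ee _), ← ee_add]
    congr 2; push_cast; ring
  have hH := hecke_sum ⟨2 * W, by ring⟩ _ hS hT hl hw (hj.imp_left fun h => by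
    rw [Int.dvd_neg]; exact_mod_cast h)
  refine ⟨fun z => (ModularForm.eta z ^ 8) ^ (v * l) * (l ^ (4 * W) * F (l * z) +
    ∑ b ∈ range l, F ((z + (w * b : ℕ)) / l)), ?_, fun z hz => ?_⟩
  · refine ((rep_ff.pow _).mul (((hc.expand l hl.ne_zero).const_mul _).add
      (((Rep.X_pow n0).mul hc).UU l w hl.ne_zero hw))).congr fun z hz => ?_
    have hl0 : (l : ℂ) ≠ 0 := by exact_mod_cast hl.ne_zero
    rw [eta8_eq, mul_pow, ← ee_nat_mul, ← pow_mul, mul_comm (ee _), mul_assoc]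
    congr 1
    rw [mul_add, Finset.mul_sum]
    congr 1
    · simp only [F]
      have h1 : ee ((v * l : ℕ) * (z / 3)) * ee (-(v * (l * z) / 3)) = 1 := by
        rw [← ee_add, ← ee_zero]; congr 1; push_cast; ring
      linear_combination -(l ^ (4 * W) * cF (l * z)) * h1
    · refine Finset.sum_congr rfl fun b _ => ?_
      simp only [F]
      rw [← mul_assoc (ee _) (ee _), ← ee_add, ← ee_nat_mul]
      congr 1
      obtain ⟨y, hy⟩ := hvw
      have hy' : (v : ℂ) * w = 3 * y := by exact_mod_cast hy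
      have hn' : 3 * (n0 : ℂ) + v = v * l ^ 2 := by exact_mod_cast hn0
      rw [show (n0 : ℂ) * ((z + (w * b : ℕ)) / l) = ((v * l : ℕ) * (z / 3) +
        -(v * ((z + (w * b : ℕ)) / l) / 3)) + (y * l * b : ℤ) by
          push_cast; field_simp
          linear_combination (z + w * b) * hn' + l ^ 2 * b * hy', ee_add, ee_int, mul_one]
  · have := hH z hz
    beta_reduce at this ⊢
    rw [this, eta8_S hz]; ring

lemma Eis_two {c : ZMod 2} (hc : c = 0) (k : ℕ) : Eis c k = 1 := by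
  ext n; rw [coeff_Eis, coeff_one, hc]; split_ifs <;> simp

lemma PD_of_span {k : ℕ} {g : ℤ⟦X⟧} (h : g ∈ Submodule.span ℤ (monos k)) :
    PowerSeries.map (Int.castRingHom (ZMod 2)) g ∈ PD := by
  induction h using Submodule.span_induction with
  | mem y hy =>
    obtain ⟨i, j, l, _, rfl⟩ := hy
    simp only [map_mul, map_pow, map_E4, map_E6, map_DD]
    rw [E4, E6, Eis_two (by decide), Eis_two (by decide), one_pow, one_pow, one_mul, one_mul]
    exact Subalgebra.pow_mem _ (Algebra.self_mem_adjoin_singleton _ _) _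
  | zero => simp
  | add y z _ _ hy hz => rw [map_add]; exact Subalgebra.add_mem _ hy hz
  | smul c y _ hy =>
    rw [zsmul_eq_mul, map_mul, map_intCast]
    exact Subalgebra.mul_mem _ (Subalgebra.intCast_mem _ c) hy

lemma PD_lift_MF {p : (ZMod 2)⟦X⟧} (hp : p ∈ PD) : ∃ W0 : ℕ, ∀ W, W0 ≤ W → ∃ g : ℤ⟦X⟧,
    IsMF (4 * W) (cx g) ∧ PowerSeries.map (Int.castRingHom (ZMod 2)) g = p := by
  have h4 : E4 (ZMod 2) = 1 := Eis_two (by decide) _
  induction hp using Algebra.adjoin_induction with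
  | mem y hy =>
    obtain rfl : y = DD (ZMod 2) := hy
    refine ⟨3, fun W hW => ⟨DD ℤ * E4 ℤ ^ (W - 3), ?_, by simp [map_DD, map_E4, h4]⟩⟩
    rw [map_mul, map_pow, map_DD, map_E4, show 4 * W = 12 + 4 * (W - 3) by omega]
    exact isMF_DD.mul (isMF_E4.pow _)
  | algebraMap r =>
    refine ⟨0, fun W _ => ⟨C (r.val : ℤ) * E4 ℤ ^ W, ?_, ?_⟩⟩
    · rw [map_mul, map_pow, map_E4, PowerSeries.map_C]
      exact (isMF_E4.pow _).const_mul _
    · rw [map_mul, map_pow, map_E4, h4, PowerSeries.map_C]; simp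
  | add y z _ _ hy hz =>
    obtain ⟨d, hd⟩ := hy
    obtain ⟨d', hd'⟩ := hz
    refine ⟨max d d', fun W hW => ?_⟩
    obtain ⟨a, ha, rfl⟩ := hd W (le_of_max_le_left hW)
    obtain ⟨b, hb, rfl⟩ := hd' W (le_of_max_le_right hW)
    exact ⟨a + b, by rw [map_add]; exact ha.add hb, map_add _ _ _⟩
  | mul y z _ _ hy hz =>
    obtain ⟨d, hd⟩ := hy
    obtain ⟨d', hd'⟩ := hz
    refine ⟨d + d', fun W hW => ?_⟩
    obtain ⟨a, ha, rfl⟩ := hd d le_rfl
    obtain ⟨b, hb, rfl⟩ := hd' (W - d) (by omega)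
    refine ⟨a * b, ?_, map_mul _ _ _⟩
    rw [map_mul, show 4 * W = 4 * d + 4 * (W - d) by omega]; exact ha.mul hb

lemma PD_of_sq {y : (ZMod 2)⟦X⟧} (h : y ^ 2 ∈ PD) : y ∈ PD := by
  have hs : ss (ZMod 2) = vv (ZMod 2) := expand_injective 2 two_ne_zero (by
    rw [V2_ss, sq_eq_V2])
  have key : ∀ P : Polynomial (ZMod 2), UU 2 (Polynomial.aeval (DD (ZMod 2)) P) ∈ PD := by
    intro P
    induction P using Polynomial.induction_on' with
    | add p q hp hq => rw [map_add, map_add]; exact Subalgebra.add_mem _ hp hq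
    | monomial n a =>
      rw [Polynomial.aeval_monomial, ← Algebra.smul_def, map_smul]
      refine Subalgebra.smul_mem _ ?_ _
      have := UU_vv_pow (R := ZMod 2) n 1
      rw [map_one, mul_one, mul_one, hs, vv_two] at this
      rw [this]
      split_ifs
      · exact Subalgebra.pow_mem _ (Algebra.self_mem_adjoin_singleton _ _) _
      · exact Subalgebra.zero_mem _
  rw [PD, Algebra.adjoin_singleton_eq_range_aeval] at h
  obtain ⟨P, hP⟩ := h
  have := key P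
  rwa [show Polynomial.aeval (DD (ZMod 2)) P = y ^ 2 from hP, sq_eq_V2, UU_expand] at this

lemma UU_sq {l : ℕ} (hl : Odd l) (y : (ZMod 2)⟦X⟧) : UU l (y ^ 2) = UU l y ^ 2 := by
  rw [sq_eq_V2, sq_eq_V2]
  ext n
  rw [coeff_UU, coeff_expand, coeff_expand]
  have : 2 ∣ l * n ↔ 2 ∣ n := (Nat.coprime_two_left.mpr hl).dvd_mul_left
  by_cases h : 2 ∣ n
  · rw [if_pos h, if_pos (this.mpr h), coeff_UU, Nat.mul_div_assoc _ h]
  · rw [if_neg h, if_neg (mt this.mp h)]

lemma add_sq_two (x y : (ZMod 2)⟦X⟧) : (x + y) ^ 2 = x ^ 2 + y ^ 2 := by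
  linear_combination x * y * two_eq_zero

theorem hecke_step {κ κ' : ℕ} (hκ : Good κ κ') {u l n1 : ℕ} (hl : l.Prime) (hlκ : Nat.Coprime l κ)
    (hn1 : κ * n1 + u = u * l ^ 2) {c : (ZMod 2)⟦X⟧} (hc : ff (ZMod 2) ^ (κ' * u) * c ∈ PD) :
    ff (ZMod 2) ^ (κ' * (u * l)) * (expand l hl.ne_zero c + UU l (X ^ n1 * c)) ∈ PD := by
  obtain ⟨W, hW⟩ := PD_lift_MF (Subalgebra.pow_mem _ hc 8)
  obtain ⟨g, hg, hgρ⟩ := hW (W + κ' * u) (by omega)
  obtain ⟨w, hw⟩ : ∃ w, κ = 8 * w := by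
    rcases hκ with ⟨rfl, _⟩ | ⟨rfl, _⟩
    exacts [⟨3, rfl⟩, ⟨1, rfl⟩]
  have hw3 : w * κ' = 3 := by have := hκ.mul; rw [hw] at this; nlinarith
  have hodd : Odd l := Nat.coprime_two_right.mp (hlκ.coprime_dvd_right ⟨4 * w, by rw [hw]; ring⟩)
  have h1 := hecke_MF (n0 := 8 * n1) (w := w) hg hl (hlκ.coprime_dvd_right ⟨8, by rw [hw]; ring⟩)
    (by rcases hκ with ⟨rfl, rfl⟩ | ⟨rfl, rfl⟩
        · right; omega
        · left; exact dvd_mul_right _ _) ⟨u, by rw [← hw3]; ring⟩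
    (by rw [mul_assoc κ', ← hn1, hw, ← hw3]; ring)
  have hmap : ∀ (R : Type) [CommRing R], PowerSeries.map (Int.castRingHom R)
      (ff ℤ ^ (8 * (κ' * u * l)) * ((l : ℤ⟦X⟧) ^ (4 * W) *
      expand l hl.ne_zero (g * Pgf ℤ ^ (8 * (κ' * u))) +
        (l : ℤ⟦X⟧) * UU l (X ^ (8 * n1) * (g * Pgf ℤ ^ (8 * (κ' * u)))))) =
      ff R ^ (8 * (κ' * u * l)) * (C ((l : R) ^ (4 * W)) * expand l hl.ne_zero
        (PowerSeries.map (Int.castRingHom R) g * Pgf R ^ (8 * (κ' * u))) + C (l : R) * UU l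
          (X ^ (8 * n1) * (PowerSeries.map (Int.castRingHom R) g * Pgf R ^ (8 * (κ' * u))))) := by
    intro R _
    have hP : PowerSeries.map (Int.castRingHom R) (Pgf ℤ) = Pgf R := by ext n; simp [Pgf]
    simp only [map_mul, map_add, map_pow, map_ff, map_expand, map_UU, map_X, hP, map_natCast]
  rw [← hmap ℂ] at h1
  have h2 := PD_of_span (structure_thm _ _ h1)
  have hl1 : (l : ZMod 2) = 1 := (ZMod.natCast_eq_one_iff_odd).mpr hodd
  have h3 : (ff (ZMod 2) ^ (κ' * u) * c) ^ 8 * Pgf (ZMod 2) ^ (8 * (κ' * u)) = c ^ 8 := by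
    have : Pgf (ZMod 2) ^ (8 * (κ' * u)) * ff (ZMod 2) ^ (8 * (κ' * u)) = 1 := by
      rw [← mul_pow, Pgf_mul_ff, one_pow]
    linear_combination c ^ 8 * this
  rw [hmap, hgρ, h3, hl1, one_pow, map_one, one_mul, one_mul] at h2
  apply PD_of_sq; apply PD_of_sq; apply PD_of_sq
  have h4 : X ^ (8 * n1) * c ^ 8 = (((X ^ n1 * c) ^ 2) ^ 2) ^ 2 := by ring
  have h5 : expand l hl.ne_zero (c ^ 8) = ((expand l hl.ne_zero c ^ 2) ^ 2) ^ 2 := by
    rw [map_pow]; ring
  rw [h4, h5, UU_sq hodd, UU_sq hodd, UU_sq hodd, ← add_sq_two, ← add_sq_two, ← add_sq_two] at h2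
  have h6 : ∀ y : (ZMod 2)⟦X⟧, (((ff (ZMod 2) ^ (κ' * (u * l)) * y) ^ 2) ^ 2) ^ 2 =
      ff (ZMod 2) ^ (8 * (κ' * u * l)) * ((y ^ 2) ^ 2) ^ 2 := fun y => by ring
  rw [h6]; exact h2

/-- number of nonzero coefficients below Y -/
noncomputable def cnt (c : (ZMod 2)⟦X⟧) (Y : ℕ) : ℕ :=
  ((range Y).filter fun m => coeff m c ≠ 0).card

lemma cnt_mono (c : (ZMod 2)⟦X⟧) {Y Y' : ℕ} (h : Y ≤ Y') : cnt c Y ≤ cnt c Y' :=
  card_le_card (filter_subset_filter _ (range_mono h))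

lemma cnt_step (c : (ZMod 2)⟦X⟧) {l : ℕ} (hl : l ≠ 0) (n1 Y : ℕ) :
    cnt (expand l hl c + UU l (X ^ n1 * c)) Y ≤ 2 * cnt c (l * Y) := by
  have hl0 := Nat.pos_of_ne_zero hl
  have h1 : cnt (expand l hl c) Y ≤ cnt c (l * Y) := by
    refine card_le_card_of_injOn (fun m => m / l) (fun m hm => ?_) (fun m hm m' hm' h => ?_)
    · simp only [coe_filter, mem_range, Set.mem_ofPred_eq, coeff_expand] at hm ⊢
      refine ⟨(Nat.div_le_self _ _).trans_lt (hm.1.trans_le (Nat.le_mul_of_pos_left _ hl0)), ?_⟩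
      intro h; apply hm.2; simp [h]
    · simp only [coe_filter, mem_range, Set.mem_ofPred_eq, coeff_expand] at hm hm'
      have h2 : l ∣ m := by by_contra h; exact hm.2 (if_neg h)
      have h3 : l ∣ m' := by by_contra h; exact hm'.2 (if_neg h)
      rw [← Nat.mul_div_cancel' h2, ← Nat.mul_div_cancel' h3]
      exact congrArg _ h
  have h2 : cnt (UU l (X ^ n1 * c)) Y ≤ cnt c (l * Y) := by
    refine card_le_card_of_injOn (fun m => l * m - n1) (fun m hm => ?_) (fun m hm m' hm' h => ?_)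
    · simp only [coe_filter, mem_range, Set.mem_ofPred_eq, coeff_UU, coeff_X_pow_mul'] at hm ⊢
      refine ⟨(Nat.sub_le _ _).trans_lt (Nat.mul_lt_mul_of_pos_left hm.1 hl0), ?_⟩
      intro h; apply hm.2; simp [h]
    · simp only [coe_filter, mem_range, Set.mem_ofPred_eq, coeff_UU, coeff_X_pow_mul'] at hm hm'
      have h2 : n1 ≤ l * m := by by_contra h; exact hm.2 (if_neg h)
      have h3 : n1 ≤ l * m' := by by_contra h; exact hm'.2 (if_neg h)
      simp only at h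
      exact Nat.eq_of_mul_eq_mul_left hl0 (by omega)
  have h3 : cnt (expand l hl c + UU l (X ^ n1 * c)) Y ≤
      cnt (expand l hl c) Y + cnt (UU l (X ^ n1 * c)) Y := by
    refine le_trans (card_le_card fun m hm => ?_) (card_union_le _ _)
    simp only [mem_filter, mem_union, map_add] at hm ⊢
    by_contra h
    push Not at h
    exact hm.2 (by rw [h.1 hm.1, h.2 hm.1, add_zero])
  omega

lemma Good.sq_mod {κ κ' : ℕ} (hκ : Good κ κ') {l : ℕ} (h : Nat.Coprime l κ) :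
    ∃ n, l ^ 2 = κ * n + 1 := by
  rcases hκ with ⟨rfl, _⟩ | ⟨rfl, _⟩
  · have h2 : ¬ 2 ∣ l := fun h2 => by
      have := Nat.dvd_gcd h2 (show 2 ∣ 24 by norm_num); rw [h] at this; omega
    have h3 : ¬ 3 ∣ l := fun h2 => by
      have := Nat.dvd_gcd h2 (show 3 ∣ 24 by norm_num); rw [h] at this; omega
    have h4 : l % 24 = 1 ∨ l % 24 = 5 ∨ l % 24 = 7 ∨ l % 24 = 11 ∨ l % 24 = 13 ∨ l % 24 = 17 ∨
      l % 24 = 19 ∨ l % 24 = 23 := by omega
    have h5 : l ^ 2 % 24 = 1 := by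
      rcases h4 with h | h | h | h | h | h | h | h <;> simp [Nat.pow_mod, h]
    exact ⟨l ^ 2 / 24, by omega⟩
  · have := sq_mod_eight (Nat.coprime_two_right.mp (h.coprime_dvd_right (show 2 ∣ 8 by norm_num)))
    exact ⟨l ^ 2 / 8, by omega⟩

lemma Good.pos {κ κ' : ℕ} (hκ : Good κ κ') : 0 < κ := by
  rcases hκ with ⟨rfl, _⟩ | ⟨rfl, _⟩ <;> norm_num

theorem hecke_iter {κ κ' : ℕ} (hκ : Good κ κ') {u : ℕ} (hu : 0 < u) (s : Finset ℕ)
    (hs : ∀ l ∈ s, l.Prime ∧ Nat.Coprime l κ) : ∃ c : (ZMod 2)⟦X⟧,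
      ff (ZMod 2) ^ (κ' * (u * ∏ l ∈ s, l)) * c ∈ PD ∧ coeff 0 c = 1 ∧
      (∀ Y, cnt c Y ≤ 2 ^ s.card * cnt (Pgf (ZMod 2) ^ (κ' * u)) ((∏ l ∈ s, l) * Y)) ∧
      ∀ m m0 : ℕ, (∀ l ∈ s, ¬ (l : ℤ) ∣ κ * m - u * (∏ l ∈ s, l : ℕ)) →
        κ * m0 + u * (∏ l ∈ s, l) ^ 2 = κ * (∏ l ∈ s, l) * m + u →
        coeff m c = coeff m0 (Pgf (ZMod 2) ^ (κ' * u)) := by
  induction s using Finset.induction_on with
  | empty =>
    refine ⟨Pgf (ZMod 2) ^ (κ' * u), ?_, ?_, by simp, fun m m0 _ h => ?_⟩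
    · rw [prod_empty, mul_one, ← mul_pow, mul_comm, Pgf_mul_ff, one_pow]
      exact Subalgebra.one_mem _
    · have := congrArg constantCoeff (Pgf_mul_ff (R := ZMod 2))
      simp only [map_mul, constantCoeff_ff, mul_one, map_one] at this
      simp [this]
    · simp only [prod_empty, one_pow, mul_one, add_left_inj] at h
      rw [Nat.eq_of_mul_eq_mul_left hκ.pos h]
  | insert l s hls ih =>
    obtain ⟨c, h1, h2, h3, h4⟩ := ih fun l hl => hs l (mem_insert_of_mem hl)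
    obtain ⟨hl, hlκ⟩ := hs l (mem_insert_self _ _)
    obtain ⟨n, hn⟩ := hκ.sq_mod hlκ
    rw [prod_insert hls, card_insert_of_notMem hls]
    have hw : 0 < ∏ l ∈ s, l := prod_pos fun l hl => (hs l (mem_insert_of_mem hl)).1.pos
    generalize ∏ l ∈ s, l = w at *
    have hn0 : 0 < n := by
      rcases Nat.eq_zero_or_pos n with rfl | h
      · have := hl.two_le; nlinarith
      · exact h
    refine ⟨expand l hl.ne_zero c + UU l (X ^ (u * w * n) * c), ?_, ?_, fun Y => ?_,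
      fun m m0 hm hm0 => ?_⟩
    · rw [show u * (l * w) = u * w * l by ring]
      exact hecke_step hκ hl hlκ (by rw [hn]; ring) h1
    · rw [map_add, coeff_UU, coeff_X_pow_mul', if_neg (by simp; omega), add_zero,
        coeff_expand, if_pos (dvd_zero _), Nat.zero_div, h2]
    · refine (cnt_step c hl.ne_zero _ Y).trans ?_
      rw [pow_succ', mul_assoc 2, show l * w * Y = w * (l * Y) by ring]
      exact Nat.mul_le_mul_left _ (h3 _)
    · have h5 : ¬ l ∣ m := fun h => hm l (mem_insert_self _ _) (by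
        push_cast
        exact dvd_sub (Dvd.dvd.mul_left (by exact_mod_cast h) _)
          (Dvd.dvd.mul_left (dvd_mul_right _ _) _))
      have h6 : u * w * n ≤ l * m := by
        have h7 : u * (l * w) ^ 2 = κ * w * (u * w * n) + u * w ^ 2 := by rw [mul_pow, hn]; ring
        have h8 : u ≤ u * w ^ 2 := Nat.le_mul_of_pos_right _ (by positivity)
        have h9 : κ * w * (u * w * n) ≤ κ * w * (l * m) := by nlinarith
        exact Nat.le_of_mul_le_mul_left h9 (Nat.mul_pos hκ.pos hw)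
      rw [map_add, coeff_expand, if_neg h5, zero_add, coeff_UU, coeff_X_pow_mul', if_pos h6]
      obtain ⟨m', hm'⟩ := Nat.exists_eq_add_of_le h6
      rw [hm', Nat.add_sub_cancel_left]
      have hm'' : (l : ℤ) * m = u * w * n + m' := by exact_mod_cast hm'
      have hn' : (l : ℤ) ^ 2 = κ * n + 1 := by exact_mod_cast hn
      refine h4 m' m0 (fun l' hl' hd => ?_) ?_
      · have hp := (hs l' (mem_insert_of_mem hl')).1
        have h7 : (κ * m' - u * (w : ℕ) : ℤ) = l * (κ * m - u * (l * w : ℕ)) := by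
          push_cast; linear_combination -κ * hm'' + u * w * hn'
        rw [h7] at hd
        rcases (Nat.prime_iff_prime_int.mp hp).dvd_or_dvd hd with h | h
        · have := (Nat.prime_dvd_prime_iff_eq hp hl).mp (by exact_mod_cast h)
          exact hls (this ▸ hl')
        · exact hm l' (mem_insert_of_mem hl') h
      · zify at hm0 ⊢
        linear_combination hm0 + κ * w * hm'' - u * w ^ 2 * hn'

theorem hecke_main {t : ℕ} (ht : Odd t) : ∃ (κ κ' D z w A e : ℕ) (c : (ZMod 2)⟦X⟧), Good κ κ' ∧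
    z ^ 2 = κ * D + 1 ∧ 0 < w ∧ Nat.Coprime w κ ∧
    ff (ZMod 2) ^ κ' * c * ff (ZMod 2) ^ (24 * D) ∈ PD ∧ coeff 0 c = 1 ∧
    (∀ Y, cnt c Y ≤ A * cnt (Pgf (ZMod 2) ^ t) (w * Y)) ∧
    ∀ m m0 : ℕ, (∀ l ∈ w.primeFactors, ¬ (l : ℤ) ∣ κ * m - z ^ 2) → m0 + e = w * m →
      coeff m c = (pt t m0 : ZMod 2) := by
  obtain ⟨κ, κ', u, hκ, rfl, huκ⟩ : ∃ κ κ' u, Good κ κ' ∧ t = κ' * u ∧ Nat.Coprime u κ := by
    by_cases h3 : 3 ∣ t
    · obtain ⟨u, rfl⟩ := h3
      exact ⟨8, 3, u, Or.inr ⟨rfl, rfl⟩, rfl, Nat.Coprime.pow_right 3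
        (Nat.coprime_two_right.mpr (Nat.odd_mul.mp ht).2)⟩
    · exact ⟨24, 1, t, Or.inl ⟨rfl, rfl⟩, (one_mul t).symm, Nat.Coprime.mul_right
        (Nat.Coprime.pow_right 3 (Nat.coprime_two_right.mpr ht))
        ((Nat.Prime.coprime_iff_not_dvd Nat.prime_three).mpr h3).symm⟩
  have hu : 0 < u := (Nat.odd_mul.mp ht).2.pos
  obtain ⟨a, b, hab, ha⟩ := Nat.sq_mul_squarefree u
  have haκ : Nat.Coprime a κ := huκ.coprime_dvd_left ⟨b ^ 2, by rw [← hab]; ring⟩
  have hbκ : Nat.Coprime b κ := huκ.coprime_dvd_left ⟨b * a, by rw [← hab]; ring⟩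
  obtain ⟨c, h1, h2, h3, h4⟩ := hecke_iter hκ hu a.primeFactors fun l hl =>
    ⟨Nat.prime_of_mem_primeFactors hl, haκ.coprime_dvd_left (Nat.dvd_of_mem_primeFactors hl)⟩
  rw [Nat.prod_primeFactors_of_squarefree ha] at h1 h3 h4
  obtain ⟨D, hD⟩ := hκ.sq_mod (haκ.mul_left hbκ)
  obtain ⟨n, hn⟩ := hκ.sq_mod haκ
  have hz : u * a = (a * b) ^ 2 := by rw [← hab]; ring
  refine ⟨κ, κ', D, a * b, a, _, u * n, c, hκ, hD, Nat.pos_of_ne_zero ha.ne_zero, haκ, ?_, h2, h3,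
    fun m m0 hm hm0 => ?_⟩
  · rw [hz, hD, mul_add, ← mul_assoc, mul_comm κ' κ, hκ.mul, mul_one, pow_add] at h1
    rwa [show ff (ZMod 2) ^ κ' * c * ff (ZMod 2) ^ (24 * D) =
      ff (ZMod 2) ^ (24 * D) * ff (ZMod 2) ^ κ' * c by ring]
  · rw [← coeff_Pgf_pow]
    refine h4 m m0 (fun l hl => ?_) ?_
    · have hz' : (u : ℤ) * a = (a * b : ℕ) ^ 2 := by exact_mod_cast hz
      rw [hz']; exact hm l hl
    · rw [hn, mul_assoc κ, ← hm0]; ring

end Pool.Agent.Lib.MP_a3366f_nt.H28
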