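import Pool.Agent.Lib.MP_a3366f_nt.H28.Rep

open PowerSeries Finset Complex
open scoped Real MatrixGroups ModularForm Manifold Topology
open UpperHalfPlane hiding I

namespace Pool.Agent.Lib.MP_a3366f_nt.H28

lemma im_neg_inv {z : ℂ} (hz : 0 < z.im) : 0 < (-1 / z).im := by
  have := (⟨z, hz⟩ : ℍ).im_inv_neg_coe_pos
  simpa [neg_div, inv_neg] using this

lemma ne_zero_of_im {z : ℂ} (hz : 0 < z.im) : z ≠ 0 := fun h => by simp [h] at hz

noncomputable def E2c : ℂ → ℂ := EisensteinSeries.E2 ∘ ofComplex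

lemma rep_E2 : Rep (E2 ℂ) E2c := fun z hz => by
  have := EisensteinSeries.hasSum_qExpansion_E2 (z := ⟨z, hz⟩)
  simp only [E2c, Function.comp_apply, ofComplex_apply_of_im_pos hz]
  refine hs_congr this fun m => ?_
  simp [E2, coeff_Eis, ee]

lemma E2c_S {z : ℂ} (hz : 0 < z.im) : E2c (-1 / z) = z ^ 2 * E2c z + 12 * z / (2 * π * I) := by
  have h1 := congrFun (EisensteinSeries.E2_slash_action ModularGroup.S) ⟨z, hz⟩
  rw [SlashInvariantForm.slash_S_apply] at h1
  simp only [Pi.sub_apply, Pi.smul_apply, EisensteinSeries.D2_S, riemannZeta_two,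
    smul_eq_mul] at h1
  have h3 := im_neg_inv hz
  have hz0 := ne_zero_of_im hz
  simp only [E2c, Function.comp_apply, ofComplex_apply_of_im_pos hz, ofComplex_apply_of_im_pos h3]
  have h4 : (⟨-1 / z, h3⟩ : ℍ) = ⟨(-z)⁻¹, (⟨z, hz⟩ : ℍ).im_inv_neg_coe_pos⟩ := by
    ext; simp [neg_div, inv_neg]
  rw [h4]
  have hpi : (π : ℂ) ≠ 0 := by simp [Real.pi_ne_zero]
  have h5 : EisensteinSeries.E2 ⟨(-z)⁻¹, (⟨z, hz⟩ : ℍ).im_inv_neg_coe_pos⟩ =
      z ^ 2 * (EisensteinSeries.E2 ⟨z, hz⟩ - 1 / (2 * (π ^ 2 / 6)) * (2 * π * I / z)) := by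
    rw [← h1]
    change _ = z ^ 2 * (_ * z ^ (-(2 : ℤ)))
    rw [zpow_neg, zpow_ofNat]; field_simp
  rw [h5]; field_simp
  ring_nf; rw [I_sq]; ring

lemma isMF_Eis {k : ℕ} (hk : 3 ≤ k) (hk2 : Even k) :
    IsMF k (Eis (-(2 * k / bernoulli k : ℂ)) (k - 1)) := by
  convert isMF_of_modularForm (ModularForm.E hk)
  ext m
  rw [EisensteinSeries.E_qExpansion_coeff hk hk2, coeff_Eis]

lemma isMF_E4 : IsMF 4 (E4 ℂ) := by
  convert isMF_Eis (k := 4) (by norm_num) ⟨2, rfl⟩
  rw [E4, show bernoulli 4 = -1 / 30 by decide +kernel]; norm_num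

lemma isMF_E6 : IsMF 6 (E6 ℂ) := by
  convert isMF_Eis (k := 6) (by norm_num) ⟨3, rfl⟩
  rw [E6, show bernoulli 6 = 1 / 42 by decide +kernel]; norm_num

lemma deriv_S {F H : ℂ → ℂ} (hF : ∀ z : ℂ, 0 < z.im → DifferentiableAt ℂ F z)
    (h : ∀ z : ℂ, 0 < z.im → F (-1 / z) = H z) {z : ℂ} (hz : 0 < z.im) {H' : ℂ}
    (hH : HasDerivAt H H' z) : deriv F (-1 / z) = z ^ 2 * H' := by
  have hz0 := ne_zero_of_im hz
  have h1 : HasDerivAt (fun w : ℂ => -1 / w) (1 / z ^ 2) z := by
    have := (hasDerivAt_inv hz0).const_mul (-1)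
    rw [show (fun w : ℂ => -1 / w) = fun w : ℂ => -1 * w⁻¹ from funext fun w => div_eq_mul_inv _ _]
    exact this.congr_deriv (by field_simp)
  have h2 := ((hF _ (im_neg_inv hz)).hasDerivAt).comp z h1
  have h3 : (F ∘ fun w : ℂ => -1 / w) =ᶠ[𝓝 z] H := by
    filter_upwards [UpperHalfPlane.isOpen_upperHalfPlaneSet.mem_nhds hz] with w hw
    exact h w hw
  have h4 := (h2.congr_of_eventuallyEq h3.symm).unique hH
  rw [← h4]; field_simp

lemma IsMF.serre {k : ℕ} {c : ℂ⟦X⟧} (h : IsMF k c) :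
    IsMF (k + 2) (C 12 * th c - C (k : ℂ) * (E2 ℂ * c)) := by
  obtain ⟨F, hR, hM⟩ := h
  refine ⟨_, (hR.deriv.const_mul 12).sub ((rep_E2.mul hR).const_mul k), fun z hz => ?_⟩
  have hz0 := ne_zero_of_im hz
  have h1 := deriv_S (fun w hw => hR.differentiableAt hw) hM hz
    ((hasDerivAt_pow k z).mul (hR.differentiableAt hz).hasDerivAt)
  beta_reduce
  rw [h1, E2c_S hz, hM z hz]
  have := two_pi_I_ne
  cases k with
  | zero => simp; ring
  | succ k => simp only [Nat.add_sub_cancel]; field_simp; ring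

lemma isMF_R1 : IsMF 4 (E2 ℂ * E2 ℂ - C 12 * th (E2 ℂ)) := by
  refine ⟨_, (rep_E2.mul rep_E2).sub (rep_E2.deriv.const_mul 12), fun z hz => ?_⟩
  have hz0 := ne_zero_of_im hz
  have h1 := deriv_S (fun w hw => rep_E2.differentiableAt hw) (fun w hw => E2c_S hw) hz
    (((hasDerivAt_pow 2 z).mul (rep_E2.differentiableAt hz).hasDerivAt).add
      (((hasDerivAt_id z).const_mul 12).div_const (2 * π * I)))
  beta_reduce
  rw [h1, E2c_S hz]
  have := two_pi_I_ne
  field_simp; ring

lemma constantCoeff_th {R : Type*} [CommRing R] (g : R⟦X⟧) : constantCoeff (th g) = 0 := by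
  simp [th]

lemma R1c : 12 * th (E2 ℂ) = E2 ℂ ^ 2 - E4 ℂ := by
  have := (isMF_R1.sub isMF_E4).sturm fun m hm => by
    obtain rfl : m = 0 := by omega
    simp [constantCoeff_th]
  rw [show (C 12 : ℂ⟦X⟧) = 12 from rfl] at this
  linear_combination -this

lemma R5c : 3 * th (E4 ℂ) = E2 ℂ * E4 ℂ - E6 ℂ := by
  have := (isMF_E4.serre.add (isMF_E6.const_mul 4)).sturm fun m hm => by
    obtain rfl : m = 0 := by omega
    simp [constantCoeff_th]
  rw [show (C 12 : ℂ⟦X⟧) = 12 from rfl, show (C 4 : ℂ⟦X⟧) = 4 from rfl,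
    show (C ((4 : ℕ) : ℂ) : ℂ⟦X⟧) = 4 from rfl] at this
  have h4 : (4 : ℂ⟦X⟧) ≠ 0 := by
    rw [show (4 : ℂ⟦X⟧) = C 4 from rfl]; simp
  apply mul_left_cancel₀ h4
  linear_combination this

/-- the Euler product as a function -/
noncomputable def Phi (z : ℂ) : ℂ := ∏' n, (1 - ModularForm.eta_q n z)

lemma eta_eq (z : ℂ) : ModularForm.eta z = ee (z / 24) * Phi z := by
  rw [ModularForm.eta, Phi]; congr 1
  simp only [Function.Periodic.qParam, ee]; congr 1; push_cast; ring

lemma Phi_ne_zero {z : ℂ} (hz : 0 < z.im) : Phi z ≠ 0 := ModularForm.eta_tprod_ne_zero hz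

lemma Phi_diff {z : ℂ} (hz : 0 < z.im) : DifferentiableAt ℂ Phi z :=
  ModularForm.differentiableAt_eta_tprod hz

lemma Phi_per (z : ℂ) : Phi (z + 1) = Phi z := by
  simp only [Phi, ModularForm.eta_q_eq_pow]
  congr 1; funext n
  have := ee_add z 1
  rw [ee_one, mul_one] at this
  rw [show cexp (2 * π * I * (z + 1)) = ee (z + 1) from rfl, this]; rfl

lemma Phi_tendsto : Filter.Tendsto (fun τ : ℍ => Phi τ) atImInfty (𝓝 1) := by
  have htprod : Filter.Tendsto (fun q : ℂ ↦ ∏' (n : ℕ), (1 - q ^ (n + 1))) (𝓝 0) (𝓝 1) := by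
    have := tendsto_tprod_one_add_of_dominated_convergence (𝓕 := 𝓝 0) (g := 0)
      (f := fun (q : ℂ) (n : ℕ) ↦ -q ^ (n + 1)) (bound := fun n ↦ (1 / 2 : ℝ) ^ (n + 1))
    simp only [Pi.zero_apply, norm_neg, norm_pow, add_zero, tprod_one] at this
    simp_rw [sub_eq_add_neg]
    refine this
      (by simpa only [pow_succ'] using (summable_geometric_of_abs_lt_one (by norm_num)).mul_left _)
      (fun k ↦ by simpa using ((continuous_pow (M := ℂ) (k + 1)).tendsto 0).neg) ?_
    filter_upwards [Metric.ball_mem_nhds (0 : ℂ) (by norm_num : (0 : ℝ) < 1 / 2)] with q hq k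
    exact pow_le_pow_left₀ (norm_nonneg _) (mem_ball_zero_iff.mp hq).le _
  exact htprod.comp (UpperHalfPlane.qParam_tendsto_atImInfty zero_lt_one)

lemma deriv_Phi {z : ℂ} (hz : 0 < z.im) :
    24 * (deriv Phi z / (2 * π * I)) = (E2c z - 1) * Phi z := by
  have h1 := ModularForm.logDeriv_eta_eq_E2 ⟨z, hz⟩
  have h2 : HasDerivAt ModularForm.eta
      (2 * π * I * ee (z / 24) * (1 / 24) * Phi z + ee (z / 24) * deriv Phi z) z := by
    have h3 := ((hasDerivAt_ee (z / 24)).comp z ((hasDerivAt_id z).div_const 24)).mul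
      (Phi_diff hz).hasDerivAt
    rw [show ModularForm.eta = (ee ∘ fun x => id x / 24) * Phi from funext fun w => eta_eq w]
    exact h3
  rw [logDeriv_apply] at h1
  change deriv ModularForm.eta z / ModularForm.eta z = _ at h1
  rw [h2.deriv, eta_eq, div_eq_iff (mul_ne_zero (ee_ne_zero _) (Phi_ne_zero hz))] at h1
  simp only [E2c, Function.comp_apply, ofComplex_apply_of_im_pos hz]
  have := two_pi_I_ne
  have h4 := ee_ne_zero (z / 24)
  field_simp
  apply mul_left_cancel₀ h4
  linear_combination 24 * h1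

lemma rep_ff : Rep (ff ℂ) Phi := by
  obtain ⟨c, hc, h0⟩ := exists_rep_of_good (fun z _ => Phi_per z) (fun z hz => Phi_diff hz)
    Phi_tendsto
  have h1 : C 24 * th c = (E2 ℂ - 1) * c :=
    (hc.deriv.const_mul 24).unique (((rep_E2.sub Rep.one).mul hc).congr fun z hz =>
      (deriv_Phi hz).symm)
  have h2 := th_ff' (R := ℂ)
  have h3 : c - ff ℂ = 0 := by
    apply ode_unique (u := C (1 / 24 : ℂ) * (E2 ℂ - 1)) (by simp)
    · have h24 : (C (1 / 24 : ℂ) : ℂ⟦X⟧) * 24 = 1 := by
        rw [show (24 : ℂ⟦X⟧) = C 24 from rfl, ← map_mul]; norm_num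
      rw [show (C 24 : ℂ⟦X⟧) = 24 from rfl] at h1
      rw [th_sub]
      linear_combination C (1 / 24 : ℂ) * h1 - C (1 / 24 : ℂ) * h2 - (th c - th (ff ℂ)) * h24
    · simp [h0]
  rwa [← sub_eq_zero.mp h3]

lemma rep_Pgf : Rep (Pgf ℂ) (fun z => (Phi z)⁻¹) := by
  obtain ⟨c, hc, _⟩ := exists_rep_of_good (F := fun z => (Phi z)⁻¹) (fun z _ => by rw [Phi_per z])
    (fun z hz => (Phi_diff hz).inv (Phi_ne_zero hz)) (Phi_tendsto.inv₀ one_ne_zero)
  have h1 : c * ff ℂ = 1 := (hc.mul rep_ff).unique (Rep.one.congr fun z hz =>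
    (inv_mul_cancel₀ (Phi_ne_zero hz)).symm)
  have : c = Pgf ℂ := by
    have := Pgf_mul_ff (R := ℂ)
    linear_combination Pgf ℂ * h1 - c * this
  rwa [← this]

variable (R : Type*) [CommRing R] in
/-- the discriminant -/
noncomputable def DD : R⟦X⟧ := X * ff R ^ 24

lemma map_DD {R S : Type*} [CommRing R] [CommRing S] (φ : R →+* S) :
    PowerSeries.map φ (DD R) = DD S := by simp [DD, map_ff]

lemma qExp_disc : qExpansion 1 ModularForm.discriminant = DD ℂ := by
  have h2 : Rep (DD ℂ) (fun z => ee z * Phi z ^ 24) := by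
    simpa [DD] using (Rep.X_pow 1).mul (rep_ff.pow 24)
  refine Rep.unique (F := fun z => ee z * Phi z ^ 24) (fun z hz => ?_) h2
  have := ModularForm.hasSum_qExpansion CuspForm.discriminant one_pos one_mem_strictPeriods_SL
    ⟨z, hz⟩
  have h3 : CuspForm.discriminant ⟨z, hz⟩ = ee z * Phi z ^ 24 := by
    change ModularForm.eta z ^ 24 = _
    rw [eta_eq, mul_pow, ← ee_nat_mul]; congr 2; push_cast; ring
  rw [h3] at this
  refine hs_congr this fun m => ?_
  rw [qParam_eq]; rfl

lemma isMF_DD : IsMF 12 (DD ℂ) := by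
  have := isMF_of_modularForm (k := 12) (CuspForm.discriminant : ModularForm 𝒮ℒ 12)
  rw [← qExp_disc]; exact this

/-- base change to the complex numbers -/
noncomputable abbrev cx : ℤ⟦X⟧ →+* ℂ⟦X⟧ := PowerSeries.map (Int.castRingHom ℂ)

lemma cx_injective : Function.Injective cx :=
  PowerSeries.map_injective _ (RingHom.injective_int _)

def monos (k : ℕ) : Set ℤ⟦X⟧ :=
  {g | ∃ i j l : ℕ, 4 * i + 6 * j + 12 * l = k ∧ g = E4 ℤ ^ i * E6 ℤ ^ j * DD ℤ ^ l}

theorem structure_thm (k : ℕ) (d : ℤ⟦X⟧) (h : IsMF k (cx d)) : d ∈ Submodule.span ℤ (monos k) := by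
  induction k using Nat.strong_induction_on generalizing d with
  | _ k ih =>
    by_cases hk : ∃ i j : ℕ, 4 * i + 6 * j = k
    · obtain ⟨i, j, hij⟩ := hk
      set c0 := constantCoeff d with hc0
      set e : ℤ⟦X⟧ := E4 ℤ ^ i * E6 ℤ ^ j with he
      have hE : IsMF k (cx e) := by
        rw [he, map_mul, map_pow, map_pow, map_E4, map_E6, ← hij]
        exact (isMF_E4.pow i).mul (isMF_E6.pow j)
      have h1 : IsMF k (cx (d - C c0 * e)) := by
        rw [map_sub, map_mul, PowerSeries.map_C]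
        exact h.sub (hE.const_mul _)
      have h0 : constantCoeff (d - C c0 * e) = 0 := by simp [he, hc0]
      have hmem : C c0 * e ∈ Submodule.span ℤ (monos k) := by
        rw [← smul_eq_C_mul]
        exact Submodule.smul_mem _ _ (Submodule.subset_span ⟨i, j, 0, by omega, by simp [he]⟩)
      suffices d - C c0 * e ∈ Submodule.span ℤ (monos k) by
        simpa using Submodule.add_mem _ this hmem
      have h0' : coeff 0 (cx (d - C c0 * e)) = 0 := by
        rw [coeff_map, coeff_zero_eq_constantCoeff_apply, h0]; simp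
      rcases lt_or_ge k 12 with hk12 | hk12
      · have := h1.sturm fun m hm => by
          obtain rfl : m = 0 := by omega
          exact h0'
        rw [cx_injective (this.trans (map_zero cx).symm)]
        exact Submodule.zero_mem _
      · obtain ⟨g, hg⟩ := h1.exists_modularForm
        have hg0 : coeff 0 (qExpansion 1 g) = 0 := by rw [hg]; exact h0'
        have h2 := hg.symm.trans (ModularForm.qExpansion_eq_qExpansion_discriminant_mul g hg0)
        have h3 := isMF_of_modularForm (k := k - 12) (ModularForm.mcast (by omega)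
          (CuspForm.discriminantEquiv (ModularForm.toCuspForm g hg0)))
        rw [ModularForm.qExpansion_mcast] at h3
        rw [qExp_disc] at h2
        obtain ⟨d1, hd1⟩ := X_dvd_iff.mpr h0
        have h4 : d - C c0 * e = DD ℤ * (d1 * Pgf ℤ ^ 24) := by
          have : ff ℤ ^ 24 * Pgf ℤ ^ 24 = 1 := by rw [← mul_pow, mul_comm, Pgf_mul_ff, one_pow]
          rw [hd1, DD]; linear_combination -(X * d1) * this
        have hD : DD ℂ ≠ 0 := mul_ne_zero X_ne_zero (pow_ne_zero _ isUnit_ff.ne_zero)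
        rw [h4, map_mul, map_DD] at h2
        rw [← mul_left_cancel₀ hD h2] at h3
        have h5 := ih (k - 12) (by omega) _ h3
        rw [h4]
        refine Submodule.span_induction (p := fun x _ => DD ℤ * x ∈ Submodule.span ℤ (monos k))
          ?_ (by simp) (fun x y _ _ hx hy => by rw [mul_add]; exact Submodule.add_mem _ hx hy)
          (fun a x _ hx => by rw [mul_smul_comm]; exact Submodule.smul_mem _ _ hx) h5
        rintro x ⟨i, j, l, h6, rfl⟩
        exact Submodule.subset_span ⟨i, j, l + 1, by omega, by ring⟩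
    · obtain ⟨g, hg⟩ := h.exists_modularForm
      have hg0 : g = 0 := by
        rcases Nat.even_or_odd k with ⟨m, hm⟩ | hodd
        · have hk2 : k = 2 := by
            by_contra hne
            apply hk
            rcases Nat.even_or_odd m with ⟨a, ha⟩ | ⟨a, ha⟩
            · exact ⟨a, 0, by omega⟩
            · exact ⟨a - 1, 1, by omega⟩
          subst hk2
          exact rank_zero_iff_forall_zero.mp ModularForm.levelOne_weight_two_rank_zero g
        · exact ModularForm.levelOne_odd_weight_eq_zero (by exact_mod_cast hodd) g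
      have : cx d = cx 0 := by rw [← hg, hg0]; simp [qExpansion_zero]
      rw [cx_injective this]; exact Submodule.zero_mem _

lemma coeff_one_Eis {R : Type*} [CommRing R] (c : R) (k : ℕ) : coeff 1 (Eis c k) = c := by
  simp [coeff_Eis]

lemma disc_c : 1728 * DD ℂ = E4 ℂ ^ 3 - E6 ℂ ^ 2 := by
  have := ((isMF_DD.const_mul 1728).sub ((isMF_E4.pow 3).sub (isMF_E6.pow 2))).sturm
    fun m hm => by
      have hm' : m = 0 ∨ m = 1 := by omega
      rcases hm' with rfl | rfl
      · simp [DD]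
      · have h4 : coeff 1 (E4 ℂ) = 240 := coeff_one_Eis _ _
        have h6 : coeff 1 (E6 ℂ) = -504 := coeff_one_Eis _ _
        rw [map_sub, map_sub, coeff_C_mul, DD, coeff_succ_X_mul]
        simp [pow_succ, coeff_mul, Finset.Nat.antidiagonal_succ, h4, h6]
        norm_num
  rw [show (C 1728 : ℂ⟦X⟧) = 1728 from rfl] at this
  linear_combination this

/-- the level two weight four form whose vanishing is the relation R2 -/
noncomputable def gg (R : Type*) [CommRing R] : R⟦X⟧ := E4 R + 4 * V2 (E4 R) - 5 * aa R ^ 2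

lemma gg_c : gg ℂ = 0 := by
  obtain ⟨F4, h4, hM⟩ := isMF_E4
  let G : ℂ → ℂ := fun z => F4 z + 4 * F4 (2 * z) - 5 * (2 * E2c (2 * z) - E2c z) ^ 2
  have hG : Rep (gg ℂ) G := by
    have := (h4.add ((h4.expand 2 two_ne_zero).const_mul 4)).sub
      (((((rep_E2.expand 2 two_ne_zero).const_mul 2).sub rep_E2).pow 2).const_mul 5)
    exact this
  have hW : ∀ z : ℂ, 0 < z.im → G (-1 / (2 * z)) = 4 * z ^ 4 * G z := fun z hz => by
    have hz0 := ne_zero_of_im hz
    have hz2 : 0 < (2 * z).im := by simpa using hz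
    simp only [G]
    rw [show 2 * (-1 / (2 * z)) = -1 / z by field_simp, hM _ hz, hM _ hz2, E2c_S hz, E2c_S hz2]
    ring
  let N : ℂ → ℂ := fun z => G z * (G (z / 2) * G ((z + 1) / 2))
  have hN : Rep (gg ℂ * UU 2 (gg ℂ * rescale (-1) (gg ℂ))) N := by
    refine hG.mul ?_
    have h1 := ((hG.mul hG.rescale).UU 2 1 two_ne_zero (by norm_num)).const_mul (1 / 2)
    rw [← mul_assoc, ← map_mul] at h1
    norm_num at h1
    refine h1.congr fun z hz => ?_
    have h2 := hG.periodic (z / 2) (by simpa using hz) 1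
    simp only [sum_range_succ, range_one, sum_singleton]
    norm_num
    rw [show (z + 1) / 2 + 1 / 2 = z / 2 + (1 : ℤ) by push_cast; ring, h2,
      show z / 2 + 1 / 2 = (z + 1) / 2 by ring]
    ring
  have hNM : Mod 12 N := fun z hz => by
    have hz0 := ne_zero_of_im hz
    have hz2 : 0 < (z / 2).im := by simpa using hz
    have hw : 0 < ((z + 1) / 2).im := by simpa using hz
    have h1 := hW _ hz2
    rw [show -1 / (2 * (z / 2)) = -1 / z by field_simp] at h1
    have h2 := hW _ hz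
    have h3 := hW _ hw
    have hz1 : z + 1 ≠ 0 := ne_zero_of_im (by simpa using hz)
    have hu : 0 < (-1 / (2 * ((z + 1) / 2))).im := im_neg_inv (by simpa using hz)
    have h4 := hG.periodic _ hu 1
    have hp : -1 / (2 * ((z + 1) / 2)) + ((1 : ℤ) : ℂ) = z / (z + 1) := by
      push_cast; field_simp; ring
    have hu' : 0 < (z / (z + 1)).im := by rw [← hp]; simpa using hu
    rw [hp] at h4
    have h5 := hW _ hu'
    have h6 := hG.periodic _ (im_neg_inv (z := 2 * (z / (z + 1))) (by simpa using hu')) 1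
    simp only [N]
    rw [show -1 / z / 2 = -1 / (2 * z) by field_simp, h1, h2,
      show (-1 / z + 1) / 2 = -1 / (2 * (z / (z + 1))) + (1 : ℤ) by
        push_cast; field_simp; ring, h6, h5, h4, h3]
    field_simp; ring
  have h0 : constantCoeff (gg ℂ) = 0 := by simp [gg, map_ofNat]; norm_num
  have hz : gg ℂ * UU 2 (gg ℂ * rescale (-1) (gg ℂ)) = 0 := by
    refine IsMF.sturm (k := 12) ⟨N, hN, hNM⟩ fun m hm => ?_
    have hm' : m = 0 ∨ m = 1 := by omega
    have h1 : coeff 0 (UU 2 (gg ℂ * rescale (-1) (gg ℂ))) = 0 := by simp [h0]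
    rcases hm' with rfl | rfl
    · simp [h0]
    · rw [coeff_mul, Finset.Nat.antidiagonal_succ]
      simp only [Finset.Nat.antidiagonal_zero, sum_cons, map_singleton, sum_singleton,
        Function.Embedding.coe_prodMap, Function.Embedding.coeFn_mk, Prod.map_apply,
        Function.Embedding.refl_apply, h1]
      simp [h0]
  by_contra hne
  have h1 : UU 2 (gg ℂ * rescale (-1) (gg ℂ)) = 0 := (mul_eq_zero.mp hz).resolve_left hne
  have h2 : rescale (-1 : ℂ) (gg ℂ) ≠ 0 := fun h => hne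
    (rescale_injective (by norm_num : (-1 : ℂ) ≠ 0) (h.trans (map_zero _).symm))
  have h3 : rescale (-1 : ℂ) (gg ℂ * rescale (-1) (gg ℂ)) = gg ℂ * rescale (-1) (gg ℂ) := by
    rw [map_mul, rescale_rescale]; norm_num [mul_comm]
  apply mul_ne_zero hne h2
  ext n
  rcases Nat.even_or_odd n with ⟨m, hm⟩ | hodd
  · have := congrArg (coeff m) h1
    rwa [coeff_UU, two_mul, ← hm] at this
  · have := congrArg (coeff n) h3
    rw [coeff_rescale, hodd.neg_one_pow] at this
    rw [map_zero]; linear_combination (-1 / 2) * this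

lemma R1 (R : Type*) [CommRing R] : 12 * th (E2 R) = E2 R ^ 2 - E4 R := by
  have : 12 * th (E2 ℤ) = E2 ℤ ^ 2 - E4 ℤ := cx_injective (by
    simpa [map_th, map_E2, map_E4, map_ofNat] using R1c)
  simpa [map_th, map_E2, map_E4, map_ofNat] using
    congrArg (PowerSeries.map (Int.castRingHom R)) this

lemma R5 (R : Type*) [CommRing R] : 3 * th (E4 R) = E2 R * E4 R - E6 R := by
  have : 3 * th (E4 ℤ) = E2 ℤ * E4 ℤ - E6 ℤ := cx_injective (by
    simpa [map_th, map_E2, map_E4, map_E6, map_ofNat] using R5c)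
  simpa [map_th, map_E2, map_E4, map_E6, map_ofNat] using
    congrArg (PowerSeries.map (Int.castRingHom R)) this

lemma R2 (R : Type*) [CommRing R] : E4 R + 4 * V2 (E4 R) = 5 * aa R ^ 2 := by
  have : gg ℤ = 0 := cx_injective (by
    simpa [gg, map_expand, map_aa, map_E4, map_ofNat] using gg_c)
  have := congrArg (PowerSeries.map (Int.castRingHom R)) this
  simp only [gg, map_expand, map_aa, map_E4, map_ofNat, map_sub, map_add, map_mul, map_pow,
    map_zero] at this
  exact sub_eq_zero.mp this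

lemma disc (R : Type*) [CommRing R] : 1728 * DD R = E4 R ^ 3 - E6 R ^ 2 := by
  have : 1728 * DD ℤ = E4 ℤ ^ 3 - E6 ℤ ^ 2 := cx_injective (by
    simpa [map_DD, map_E4, map_E6, map_ofNat] using disc_c)
  simpa [map_DD, map_E4, map_E6, map_ofNat] using
    congrArg (PowerSeries.map (Int.castRingHom R)) this

end Pool.Agent.Lib.MP_a3366f_nt.H28
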