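import Mathlib

open Finset

namespace Pool.Agent.Lib.MP_a3366f_nt.H28

lemma pow25 (r : ℕ) : ∃ o, Odd o ∧ 25 ^ 2 ^ r = 1 + 2 ^ (r + 3) * o := by
  induction r with
  | zero => exact ⟨3, by decide, by norm_num⟩
  | succ r ih =>
    obtain ⟨o, ho, h⟩ := ih
    refine ⟨o + 2 * (2 ^ (r + 1) * o ^ 2), ho.add_even (even_two_mul _), ?_⟩
    rw [pow_succ, pow_mul, h]; ring

lemma pow25_modEq (r m : ℕ) : 25 ^ (2 ^ r * m) ≡ 1 [MOD 2 ^ (r + 3)] := by
  obtain ⟨o, _, h⟩ := pow25 r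
  have : 25 ^ 2 ^ r ≡ 1 [MOD 2 ^ (r + 3)] := by
    rw [h]; exact (Nat.modEq_iff_dvd' (by omega)).mpr (by simp) |>.symm
  simpa [pow_mul] using this.pow m

lemma exists_log (r x : ℕ) (hx : x % 8 = 1) : ∃ m, 25 ^ m ≡ x [MOD 2 ^ (r + 3)] := by
  induction r with
  | zero => exact ⟨0, by simp [Nat.ModEq, hx]⟩
  | succ r ih =>
    obtain ⟨m, hm⟩ := ih
    obtain ⟨c, hc⟩ := hm.dvd
    obtain ⟨o, ho, h⟩ := pow25 r
    rcases Int.even_or_odd c with ⟨e, he⟩ | ⟨e, he⟩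
    · refine ⟨m, Nat.modEq_of_dvd ⟨e, ?_⟩⟩
      rw [hc, he]; push_cast; ring
    · have h25 : Odd (25 ^ m * o) := (Odd.pow (by decide)).mul ho
      obtain ⟨f, hf⟩ := h25
      refine ⟨m + 2 ^ r, Nat.modEq_of_dvd ⟨e - f, ?_⟩⟩
      have hf' : (25 : ℤ) ^ m * o = 2 * f + 1 := by exact_mod_cast hf
      rw [pow_add, h]
      push_cast at hc ⊢
      linear_combination hc + 2 ^ (r + 3) * he - 2 ^ (r + 3) * hf'

lemma pow25_modEq_iff (r m m' : ℕ) : 25 ^ m ≡ 25 ^ m' [MOD 2 ^ (r + 3)] ↔ m ≡ m' [MOD 2 ^ r] := by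
  have h : orderOf (25 : ZMod (2 ^ (r + 3))) = 2 ^ r := by
    have := ZMod.orderOf_one_add_mul_prime_pow Nat.prime_two 3 (by norm_num) (by norm_num) 3
      (by norm_num) r
    rw [← this]; congr 1; norm_num
  have h2 : IsOfFinOrder (25 : ZMod (2 ^ (r + 3))) := by
    rw [← orderOf_pos_iff, h]; positivity
  rw [← ZMod.natCast_eq_natCast_iff, ← h, ← h2.pow_eq_pow_iff_modEq]
  simp

open Classical in
/-- discrete logarithm to base 25 modulo 2^(r+3) -/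
noncomputable def lg (r x : ℕ) : ZMod (2 ^ r) :=
  if h : ∃ m, 25 ^ m ≡ x [MOD 2 ^ (r + 3)] then ((h.choose : ℕ) : ZMod (2 ^ r)) else 0

lemma lg_eq {r m x : ℕ} (h : 25 ^ m ≡ x [MOD 2 ^ (r + 3)]) : lg r x = m := by
  have h1 : ∃ m, 25 ^ m ≡ x [MOD 2 ^ (r + 3)] := ⟨m, h⟩
  rw [lg, dif_pos h1, ZMod.natCast_eq_natCast_iff, ← pow25_modEq_iff]
  exact h1.choose_spec.trans h.symm

lemma lg_pow25 (r m : ℕ) : lg r (25 ^ m) = m := lg_eq (Nat.ModEq.refl _)

lemma lg_one (r : ℕ) : lg r 1 = 0 := by simpa using lg_pow25 r 0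

lemma lg_mul (r : ℕ) {x y : ℕ} (hx : x % 8 = 1) (hy : y % 8 = 1) :
    lg r (x * y) = lg r x + lg r y := by
  obtain ⟨m, hm⟩ := exists_log r x hx
  obtain ⟨m', hm'⟩ := exists_log r y hy
  rw [lg_eq hm, lg_eq hm', lg_eq (m := m + m') (by rw [pow_add 25]; exact hm.mul hm')]
  push_cast; ring

lemma lg_eq_iff (r : ℕ) {x y : ℕ} (hx : x % 8 = 1) (hy : y % 8 = 1) :
    lg r x = lg r y ↔ x ≡ y [MOD 2 ^ (r + 3)] := by
  obtain ⟨m, hm⟩ := exists_log r x hx
  obtain ⟨m', hm'⟩ := exists_log r y hy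
  rw [lg_eq hm, lg_eq hm', ZMod.natCast_eq_natCast_iff, ← pow25_modEq_iff]
  exact ⟨fun h => hm.symm.trans (h.trans hm'), fun h => hm.trans (h.trans hm'.symm)⟩

lemma pow25_mod (m : ℕ) : 25 ^ m % 8 = 1 := by
  simp [Nat.pow_mod]

lemma mul_mod_eight {x y : ℕ} (hx : x % 8 = 1) (hy : y % 8 = 1) : (x * y) % 8 = 1 := by
  simp [Nat.mul_mod, hx, hy]

lemma sq_mod_eight {d : ℕ} (hd : Odd d) : d ^ 2 % 8 = 1 := by
  have h : d % 8 = 1 ∨ d % 8 = 3 ∨ d % 8 = 5 ∨ d % 8 = 7 := by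
    obtain ⟨k, rfl⟩ := hd; omega
  rcases h with h | h | h | h <;> simp [Nat.pow_mod, h]

/-- compatibility of the logarithms at two levels -/
lemma lg_cast {ρ r : ℕ} (h : ρ ≤ r) {x : ℕ} (hx : x % 8 = 1) :
    ZMod.castHom (pow_dvd_pow 2 h) (ZMod (2 ^ ρ)) (lg r x) = lg ρ x := by
  obtain ⟨m, hm⟩ := exists_log r x hx
  rw [lg_eq hm, lg_eq (hm.of_dvd (pow_dvd_pow 2 (by omega))), map_natCast]

lemma odd_choose_iff (r n : ℕ) : Odd (n.choose (2 ^ r - 1)) ↔ 2 ^ r ∣ n + 1 := by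
  induction r generalizing n with
  | zero => simp
  | succ r ih =>
    have h := Choose.choose_modEq_choose_mod_mul_choose_div_nat (n := n) (k := 2 ^ (r + 1) - 1)
      (p := 2)
    have h0 : 0 < 2 ^ r := by positivity
    rw [show (2 ^ (r + 1) - 1) % 2 = 1 by rw [pow_succ]; omega,
      show (2 ^ (r + 1) - 1) / 2 = 2 ^ r - 1 by rw [pow_succ]; omega] at h
    rw [Nat.odd_iff, h, ← Nat.odd_iff, Nat.odd_mul, ih, Nat.choose_one_right]
    rcases Nat.even_or_odd' n with ⟨k, rfl | rfl⟩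
    · simp only [Nat.mul_mod_right, Nat.not_odd_zero, false_and, false_iff]
      intro h2
      have := (dvd_pow_self 2 (Nat.succ_ne_zero r)).trans h2
      omega
    · rw [show (2 * k + 1) % 2 = 1 by omega, show (2 * k + 1) / 2 = k by omega,
        show 2 * k + 1 + 1 = 2 * (k + 1) by ring, pow_succ', Nat.mul_dvd_mul_iff_left two_pos]
      simp

/-- the group algebra -/
abbrev GA (r : ℕ) := AddMonoidAlgebra (ZMod 2) (ZMod (2 ^ r))

lemma rho_eq_zero {N : ℕ} {u : ZMod (2 ^ (N + 1))} (h : 2 ^ N * u = 0) :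
    ZMod.castHom (dvd_pow_self 2 (Nat.succ_ne_zero N)) (ZMod 2) u = 0 := by
  obtain ⟨m, rfl⟩ := ZMod.natCast_zmod_surjective u
  rw [map_natCast, ZMod.natCast_eq_zero_iff]
  have : ((2 ^ N * m : ℕ) : ZMod (2 ^ (N + 1))) = 0 := by exact_mod_cast h
  rw [ZMod.natCast_eq_zero_iff, pow_succ] at this
  exact Nat.dvd_of_mul_dvd_mul_left (by positivity) this

lemma test_lemma (r : ℕ) : ∃ N, N + 1 ≤ 4 * 2 ^ r ∧ ∀ {ι ι' : Type} (I : Finset ι) (J : Finset ι')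
    (α : ι → ZMod (2 ^ (N + 1))) (β : ι' → ZMod (2 ^ (N + 1))) (x : ι → ℕ) (y : ι' → ℕ),
    (∀ i ∈ I, x i % 8 = 1) → (∀ j ∈ J, y j % 8 = 1) →
    (∀ k < 2 ^ r, ∑ i ∈ I, α i * (x i : ZMod (2 ^ (N + 1))) ^ k =
      ∑ j ∈ J, β j * (y j : ZMod (2 ^ (N + 1))) ^ k) →
    (∑ i ∈ I, AddMonoidAlgebra.single (lg r (x i))
      (ZMod.castHom (dvd_pow_self 2 (Nat.succ_ne_zero N)) (ZMod 2) (α i)) : GA r) =
    ∑ j ∈ J, AddMonoidAlgebra.single (lg r (y j))
      (ZMod.castHom (dvd_pow_self 2 (Nat.succ_ne_zero N)) (ZMod 2) (β j)) := by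
  classical
  have hM : 0 < 2 ^ r := by positivity
  obtain ⟨w, o, ho, hw⟩ := Nat.exists_eq_two_pow_mul_odd (Nat.factorial_ne_zero (2 ^ r - 1))
  have hw' : w ≤ 2 ^ r - 1 := by
    refine le_trans ?_ (padicValNat_factorial_le 2 (2 ^ r - 1))
    rw [← padicValNat_dvd_iff_le (Nat.factorial_ne_zero _), hw]
    exact dvd_mul_right _ _
  obtain ⟨N, hN⟩ : ∃ N, N = 3 * (2 ^ r - 1) + w := ⟨_, rfl⟩
  refine ⟨N, by omega, fun I J α β x y hx hy h => ?_⟩
  set ρ := ZMod.castHom (dvd_pow_self 2 (Nat.succ_ne_zero N)) (ZMod 2) with hρ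
  ext c
  set y0 := 25 ^ c.val with hy0
  have hy08 : y0 % 8 = 1 := pow25_mod _
  have hc : lg r y0 = c := by rw [hy0, lg_pow25, ZMod.natCast_zmod_val]
  set t := (8 * 2 ^ r - 1) * y0 with ht
  let ψ : Polynomial (ZMod (2 ^ (N + 1))) :=
    ∏ l ∈ range (2 ^ r - 1), (Polynomial.X + Polynomial.C ((t + 8 * (l + 1) : ℕ) : ZMod _))
  have hdeg : ψ.natDegree < 2 ^ r := by
    refine lt_of_le_of_lt (Polynomial.natDegree_prod_le _ _) ?_
    refine lt_of_le_of_lt (Finset.sum_le_card_nsmul _ _ 1 fun l _ => ?_) (by simp)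
    exact (Polynomial.natDegree_add_C).le.trans Polynomial.natDegree_X_le
  have h1 : ∑ i ∈ I, α i * ψ.eval (x i : ZMod _) = ∑ j ∈ J, β j * ψ.eval (y j : ZMod _) := by
    simp_rw [Polynomial.eval_eq_sum_range' hdeg, Finset.mul_sum]
    rw [Finset.sum_comm, Finset.sum_comm (s := J)]
    refine Finset.sum_congr rfl fun k hk => ?_
    simp_rw [mul_left_comm _ (ψ.coeff k), ← Finset.mul_sum]
    rw [h k (mem_range.mp hk)]
  have h2 : ∀ z : ℕ, z % 8 = 1 → ∃ e : ZMod (2 ^ (N + 1)), ψ.eval (z : ZMod _) = 2 ^ N * e ∧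
      ρ e = if lg r z = c then 1 else 0 := by
    intro z hz
    obtain ⟨q, hq⟩ : ∃ q, z + t = 8 * q := by
      have : t % 8 = 7 := by
        rw [ht, Nat.mul_mod, hy08, show (8 * 2 ^ r - 1) % 8 = 7 by omega]
      exact ⟨(z + t) / 8, by omega⟩
    refine ⟨(o * (q + (2 ^ r - 1)).choose (2 ^ r - 1) : ℕ), ?_, ?_⟩
    · have h3 : ∏ l ∈ range (2 ^ r - 1), (z + (t + 8 * (l + 1))) =
          2 ^ N * (o * (q + (2 ^ r - 1)).choose (2 ^ r - 1)) := by
        rw [Finset.prod_congr rfl (g := fun l => 8 * (q + 1 + l)) (fun l _ => by omega),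
          Finset.prod_mul_distrib, ← Nat.ascFactorial_eq_prod_range,
          Nat.ascFactorial_eq_factorial_mul_choose, hw, prod_const, card_range, hN,
          show 8 = 2 ^ 3 from rfl, ← pow_mul]
        ring
      simp only [ψ, Polynomial.eval_prod, Polynomial.eval_add, Polynomial.eval_X,
        Polynomial.eval_C]
      exact_mod_cast congrArg (Nat.cast : ℕ → ZMod (2 ^ (N + 1))) h3
    · rw [map_natCast, ← hc]
      simp only [lg_eq_iff r hz hy08]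
      have h4 : z ≡ y0 [MOD 2 ^ (r + 3)] ↔ 2 ^ r ∣ q := by
        have h5 : t + y0 = 2 ^ (r + 3) * y0 := by
          rw [ht, ← add_one_mul, Nat.sub_add_cancel (by omega)]; ring
        rw [← Nat.mul_dvd_mul_iff_left (show 0 < 8 by norm_num), ← hq,
          show 8 * 2 ^ r = 2 ^ (r + 3) by ring, ← Nat.modEq_zero_iff_dvd]
        have h6 : t + y0 ≡ 0 [MOD 2 ^ (r + 3)] := by
          rw [h5, Nat.modEq_zero_iff_dvd]; exact dvd_mul_right _ _
        constructor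
        · intro h7; exact ((h7.add_right t).trans (by rw [add_comm y0 t])).trans h6
        · intro h7
          exact Nat.ModEq.add_right_cancel' t (h7.trans (h6.symm.trans (by rw [add_comm y0 t])))
      have h8 := odd_choose_iff r (q + (2 ^ r - 1))
      rw [show q + (2 ^ r - 1) + 1 = q + 2 ^ r by omega, Nat.dvd_add_self_right] at h8
      simp only [h4]
      split_ifs with h9
      · exact (ZMod.natCast_eq_one_iff_odd).mpr (ho.mul (h8.mpr h9))
      · refine (ZMod.natCast_eq_zero_iff_even).mpr (Even.mul_left ?_ _)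
        rw [← Nat.not_odd_iff_even, h8]; exact h9
  choose! e he using h2
  have h3 : 2 ^ N * (∑ i ∈ I, α i * e (x i) - ∑ j ∈ J, β j * e (y j)) = 0 := by
    rw [mul_sub, Finset.mul_sum, Finset.mul_sum, sub_eq_zero]
    refine (Finset.sum_congr rfl fun i hi => ?_).trans (h1.trans
      (Finset.sum_congr rfl fun j hj => ?_))
    · rw [(he _ (hx i hi)).1]; ring
    · rw [(he _ (hy j hj)).1]; ring
  have h4 := rho_eq_zero h3
  rw [← hρ, map_sub, map_sum, map_sum, sub_eq_zero] at h4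
  simp only [AddMonoidAlgebra.coeff_sum, Finsupp.finsetSum_apply, AddMonoidAlgebra.coeff_single,
    Finsupp.single_apply]
  refine (Finset.sum_congr rfl fun i hi => ?_).trans (h4.trans
      (Finset.sum_congr rfl fun j hj => ?_))
  · rw [map_mul, (he _ (hx i hi)).2]; split_ifs <;> simp
  · rw [map_mul, (he _ (hy j hj)).2]; split_ifs <;> simp

end Pool.Agent.Lib.MP_a3366f_nt.H28
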