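import Mathlib

open PowerSeries Finset

namespace Pool.Agent.Lib.MP_a3366f_nt.H28

variable {R : Type*} [CommRing R]

/-- the operator q d/dq -/
noncomputable def th (φ : R⟦X⟧) : R⟦X⟧ := X * d⁄dX R φ

lemma coeff_th (φ : R⟦X⟧) (n : ℕ) : coeff n (th φ) = (n : R) * coeff n φ := by
  cases n with
  | zero => simp [th]
  | succ n => simp [th, coeff_succ_X_mul, coeff_derivative, mul_comm]

lemma th_add (φ ψ : R⟦X⟧) : th (φ + ψ) = th φ + th ψ := by simp [th, mul_add]
lemma th_sub (φ ψ : R⟦X⟧) : th (φ - ψ) = th φ - th ψ := by simp [th, mul_sub]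
lemma th_neg (φ : R⟦X⟧) : th (-φ) = - th φ := by simp [th]
lemma th_mul (φ ψ : R⟦X⟧) : th (φ * ψ) = th φ * ψ + φ * th ψ := by
  simp only [th, Derivation.leibniz, smul_eq_mul]; ring
@[simp] lemma th_one : th (1 : R⟦X⟧) = 0 := by simp [th]
@[simp] lemma th_zero : th (0 : R⟦X⟧) = 0 := by simp [th]
@[simp] lemma th_C (c : R) : th (C c) = 0 := by simp [th]
@[simp] lemma th_X : th (X : R⟦X⟧) = X := by simp [th]
lemma th_smul (c : R) (φ : R⟦X⟧) : th (c • φ) = c • th φ := by
  ext n; simp [coeff_th, mul_left_comm]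
@[simp] lemma th_natCast (n : ℕ) : th (n : R⟦X⟧) = 0 := by
  rw [← map_natCast (C (R := R)) n, th_C]
@[simp] lemma th_ofNat (n : ℕ) [n.AtLeastTwo] : th (ofNat(n) : R⟦X⟧) = 0 := th_natCast _
lemma th_pow_succ (φ : R⟦X⟧) (n : ℕ) : th (φ ^ (n + 1)) = ((n : R⟦X⟧) + 1) * φ ^ n * th φ := by
  induction n with
  | zero => simp
  | succ n ih => rw [pow_succ, th_mul, ih]; push_cast; ring
lemma th_pow_mul (φ : R⟦X⟧) (n : ℕ) : th (φ ^ n) * φ = (n : R⟦X⟧) * φ ^ n * th φ := by
  cases n with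
  | zero => simp
  | succ n => rw [th_pow_succ]; push_cast; ring
lemma th_X_pow (n : ℕ) : th ((X : R⟦X⟧) ^ n) = (n : R⟦X⟧) * X ^ n := by
  cases n with
  | zero => simp
  | succ n => rw [th_pow_succ, th_X]; push_cast; ring
lemma th_sum {ι : Type*} (s : Finset ι) (g : ι → R⟦X⟧) : th (∑ i ∈ s, g i) = ∑ i ∈ s, th (g i) := by
  simp [th, Finset.mul_sum]
lemma map_th {S : Type*} [CommRing S] (φ : R →+* S) (g : R⟦X⟧) :
    PowerSeries.map φ (th g) = th (PowerSeries.map φ g) := by
  ext n; simp [coeff_th]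
lemma X_pow_dvd_th {n : ℕ} {g : R⟦X⟧} (h : X ^ n ∣ g) : X ^ n ∣ th g := by
  rw [X_pow_dvd_iff] at h ⊢
  intro m hm; rw [coeff_th, h m hm, mul_zero]

lemma eq_of_forall_X_pow_dvd {a b : R⟦X⟧} (h : ∀ N, X ^ N ∣ a - b) : a = b := by
  ext n
  have := (X_pow_dvd_iff.mp (h (n + 1))) n (Nat.lt_succ_self n)
  rwa [map_sub, sub_eq_zero] at this

/-- uniqueness for the linear equation th g = u g with u of zero constant term -/
lemma ode_unique [IsAddTorsionFree R] {u g : R⟦X⟧} (hu : constantCoeff u = 0)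
    (h : th g = u * g) (h0 : constantCoeff g = 0) : g = 0 := by
  ext n
  induction n using Nat.strong_induction_on with
  | _ n ih =>
    rcases Nat.eq_zero_or_pos n with rfl | hn
    · simpa using h0
    · have h1 := congrArg (coeff n) h
      rw [coeff_th, coeff_mul] at h1
      have h2 : ∑ p ∈ HasAntidiagonal.antidiagonal n, coeff p.1 u * coeff p.2 g = 0 := by
        refine Finset.sum_eq_zero fun p hp => ?_
        rw [HasAntidiagonal.mem_antidiagonal] at hp
        rcases Nat.eq_zero_or_pos p.1 with h3 | h3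
        · rw [h3]; simp [hu]
        · have := ih p.2 (by omega)
          simp only [map_zero] at this
          rw [this, mul_zero]
      rw [h2, ← nsmul_eq_mul] at h1
      simpa using (nsmul_eq_zero_iff.mp h1).resolve_right hn.ne'

/-- Atkin's operator U_l -/
noncomputable def UU (l : ℕ) : R⟦X⟧ →ₗ[R] R⟦X⟧ where
  toFun φ := PowerSeries.mk fun n => coeff (l * n) φ
  map_add' φ ψ := by ext n; simp
  map_smul' c φ := by ext n; simp

@[simp] lemma coeff_UU (l : ℕ) (φ : R⟦X⟧) (n : ℕ) : coeff n (UU l φ) = coeff (l * n) φ := by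
  simp [UU]

lemma UU_mul_expand (l : ℕ) (hl : l ≠ 0) (φ ψ : R⟦X⟧) :
    UU l (φ * expand l hl ψ) = UU l φ * ψ := by
  ext n
  rw [coeff_UU, coeff_mul, coeff_mul]
  symm
  refine Finset.sum_bij_ne_zero (fun p _ _ => (l * p.1, l * p.2)) ?_ ?_ ?_ ?_
  · intro p hp _
    rw [HasAntidiagonal.mem_antidiagonal] at hp ⊢
    simp [← hp, mul_add]
  · intro p _ _ p' _ _ h
    simp only [Prod.mk.injEq] at h
    exact Prod.ext (Nat.eq_of_mul_eq_mul_left (Nat.pos_of_ne_zero hl) h.1)
      (Nat.eq_of_mul_eq_mul_left (Nat.pos_of_ne_zero hl) h.2)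
  · intro p hp hne
    rw [HasAntidiagonal.mem_antidiagonal] at hp
    have h2 : l ∣ p.2 := by
      by_contra h
      exact hne (by rw [coeff_expand_of_not_dvd _ _ _ h, mul_zero])
    obtain ⟨b, hb⟩ := h2
    have h1 : l ∣ p.1 := by
      have : l ∣ p.1 + p.2 := hp ▸ dvd_mul_right l n
      exact (Nat.dvd_add_left (hb ▸ dvd_mul_right l b)).mp this
    obtain ⟨a, ha⟩ := h1
    refine ⟨(a, b), ?_, ?_, ?_⟩
    · rw [HasAntidiagonal.mem_antidiagonal]
      apply Nat.eq_of_mul_eq_mul_left (Nat.pos_of_ne_zero hl)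
      rw [mul_add, ← ha, ← hb, hp]
    · rw [ha, hb, coeff_expand_mul] at hne
      simpa using hne
    · ext <;> simp [ha, hb]
  · intro p _ _
    simp

lemma UU_expand (l : ℕ) (hl : l ≠ 0) (ψ : R⟦X⟧) : UU l (expand l hl ψ) = ψ := by
  ext n; simp

lemma map_UU {S : Type*} [CommRing S] (φ : R →+* S) (l : ℕ) (g : R⟦X⟧) :
    PowerSeries.map φ (UU l g) = UU l (PowerSeries.map φ g) := by
  ext n; simp

lemma th_expand (l : ℕ) (hl : l ≠ 0) (g : R⟦X⟧) :
    th (expand l hl g) = (l : R⟦X⟧) * expand l hl (th g) := by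
  ext n
  rw [← map_natCast (C (R := R)) l, coeff_C_mul, coeff_th, coeff_expand, coeff_expand]
  split_ifs with h
  · obtain ⟨m, rfl⟩ := h
    rw [Nat.mul_div_cancel_left _ (Nat.pos_of_ne_zero hl), coeff_th]; push_cast; ring
  · simp

lemma UU_th (l : ℕ) (g : R⟦X⟧) : UU l (th g) = (l : R⟦X⟧) * th (UU l g) := by
  ext n
  rw [← map_natCast (C (R := R)) l, coeff_C_mul, coeff_UU, coeff_th, coeff_th, coeff_UU]
  push_cast; ring

lemma expand_injective (l : ℕ) (hl : l ≠ 0) : Function.Injective (expand (R := R) l hl) :=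
  Function.LeftInverse.injective (UU_expand l hl)

lemma UU_iterate (i : ℕ) (g : R⟦X⟧) (n : ℕ) :
    coeff n ((UU (R := R) 2)^[i] g) = coeff (2 ^ i * n) g := by
  induction i generalizing g n with
  | zero => simp
  | succ i ih => rw [Function.iterate_succ_apply', coeff_UU, ih, pow_succ, mul_assoc]

/-- V_2 -/
noncomputable abbrev V2 : R⟦X⟧ →ₐ[R] R⟦X⟧ := expand 2 two_ne_zero

/-- Eisenstein series 1 + c * sum sigma_k(n) q^n -/
noncomputable def Eis (c : R) (k : ℕ) : R⟦X⟧ :=
  PowerSeries.mk fun n => if n = 0 then 1 else c * (ArithmeticFunction.sigma k n : R)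

lemma coeff_Eis (c : R) (k n : ℕ) :
    coeff n (Eis c k) = if n = 0 then 1 else c * (ArithmeticFunction.sigma k n : R) := by
  simp [Eis]

lemma map_Eis {S : Type*} [CommRing S] (φ : R →+* S) (c : R) (k : ℕ) :
    PowerSeries.map φ (Eis c k) = Eis (φ c) k := by
  ext n; simp only [coeff_map, coeff_Eis]; split_ifs <;> simp

@[simp] lemma constantCoeff_Eis (c : R) (k : ℕ) : constantCoeff (Eis c k) = 1 := by
  rw [← coeff_zero_eq_constantCoeff_apply, coeff_Eis]; simp

variable (R) in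
noncomputable def E2 : R⟦X⟧ := Eis (-24) 1
variable (R) in
noncomputable def E4 : R⟦X⟧ := Eis 240 3
variable (R) in
noncomputable def E6 : R⟦X⟧ := Eis (-504) 5
variable (R) in
/-- Euler's product -/
noncomputable def ff : R⟦X⟧ := pentagonalSeries R

lemma map_E2 {S : Type*} [CommRing S] (φ : R →+* S) : PowerSeries.map φ (E2 R) = E2 S := by
  simp [E2, map_Eis, map_ofNat]
lemma map_E4 {S : Type*} [CommRing S] (φ : R →+* S) : PowerSeries.map φ (E4 R) = E4 S := by
  simp [E4, map_Eis, map_ofNat]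
lemma map_E6 {S : Type*} [CommRing S] (φ : R →+* S) : PowerSeries.map φ (E6 R) = E6 S := by
  simp [E6, map_Eis, map_ofNat]
lemma map_ff {S : Type*} [CommRing S] (φ : R →+* S) : PowerSeries.map φ (ff R) = ff S := by
  ext n
  rw [coeff_map, ff, ff]
  by_cases h : n ∈ Set.range pentagonal
  · obtain ⟨k, rfl⟩ := h
    simp
  · simp [coeff_pentagonalSeries_eq_zero _ h]

@[simp] lemma constantCoeff_E2 : constantCoeff (E2 R) = 1 := by simp [E2]
@[simp] lemma constantCoeff_E4 : constantCoeff (E4 R) = 1 := by simp [E4]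
@[simp] lemma constantCoeff_E6 : constantCoeff (E6 R) = 1 := by simp [E6]
@[simp] lemma constantCoeff_ff : constantCoeff (ff R) = 1 := by
  have : pentagonal 0 = 0 := by simp [pentagonal_def]
  rw [← coeff_zero_eq_constantCoeff_apply, ff, ← this, coeff_pentagonalSeries_pentagonal]
  simp

/-- finite Euler product -/
noncomputable def PP (R : Type*) [CommRing R] (N : ℕ) : R⟦X⟧ := ∏ i ∈ range N, (1 - X ^ (i + 1))

lemma PP_sub_PP {N N' : ℕ} (h : N ≤ N') : X ^ (N + 1) ∣ PP R N' - PP R N := by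
  induction N', h using Nat.le_induction with
  | base => simp
  | succ n hn ih =>
    have : PP R (n + 1) - PP R N = (PP R n - PP R N) - X ^ (n + 1) * PP R n := by
      rw [PP, prod_range_succ, ← PP]; ring
    rw [this]
    exact dvd_sub ih (Dvd.dvd.mul_right (pow_dvd_pow _ (by omega)) _)

lemma ff_sub_PP (N : ℕ) : X ^ (N + 1) ∣ ff R - PP R N := by
  rw [X_pow_dvd_iff]
  intro m hm
  obtain ⟨s, hs⟩ := Filter.eventually_atTop.mp (coeff_prod_one_sub_X_pow_eventually_eq R m)
  obtain ⟨N', hN'⟩ := s.exists_nat_subset_range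
  have h1 := hs (range (max N N')) (hN'.trans (range_mono (le_max_right _ _)))
  have h2 := X_pow_dvd_iff.mp (PP_sub_PP (R := R) (le_max_left N N')) m hm
  rw [map_sub] at h2 ⊢
  rw [ff, ← h1]; exact h2

noncomputable def GG (R : Type*) [CommRing R] (k : ℕ) : R⟦X⟧ :=
  PowerSeries.mk fun n => if k ∣ n ∧ n ≠ 0 then (k : R) else 0

lemma one_sub_mul_GG {k : ℕ} (hk : k ≠ 0) : (1 - X ^ k) * GG R k = (k : R⟦X⟧) * X ^ k := by
  ext n
  rw [sub_mul, one_mul, map_sub, coeff_X_pow_mul', ← map_natCast (C (R := R)) k, coeff_C_mul,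
    coeff_X_pow]
  simp only [GG, coeff_mk]
  by_cases h1 : k ≤ n
  · obtain ⟨m, rfl⟩ := Nat.exists_eq_add_of_le h1
    simp only [h1, if_true, Nat.add_sub_cancel_left, Nat.dvd_add_right (dvd_refl k)]
    by_cases hm : m = 0
    · subst hm; simp [hk]
    · have : k + m ≠ k := by omega
      have h3 : k + m ≠ 0 := by omega
      simp [hm]
  · have : n ≠ k := by omega
    have h3 : ¬ (k ∣ n ∧ n ≠ 0) := fun h => h1 (Nat.le_of_dvd (Nat.pos_of_ne_zero h.2) h.1)
    simp [h1, this, h3]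

lemma th_PP (N : ℕ) : th (PP R N) = -(∑ i ∈ range N, GG R (i + 1)) * PP R N := by
  induction N with
  | zero => simp [PP]
  | succ n ih =>
    rw [PP, prod_range_succ, ← PP, th_mul, ih, sum_range_succ, th_sub, th_one, th_X_pow,
      ← one_sub_mul_GG (k := n + 1) (Nat.succ_ne_zero n)]
    ring

noncomputable def SS (R : Type*) [CommRing R] : R⟦X⟧ :=
  PowerSeries.mk fun n => (ArithmeticFunction.sigma 1 n : R)

lemma SS_sub (N : ℕ) : X ^ (N + 1) ∣ SS R - ∑ i ∈ range N, GG R (i + 1) := by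
  rw [X_pow_dvd_iff]
  intro m hm
  rw [map_sub, map_sum, sub_eq_zero]
  simp only [SS, GG, coeff_mk]
  rcases Nat.eq_zero_or_pos m with rfl | hm0
  · simp
  · rw [ArithmeticFunction.sigma_one_apply, Nat.cast_sum, ← Finset.sum_filter]
    symm
    refine Finset.sum_bij (fun i _ => i + 1) ?_ ?_ ?_ ?_
    · intro i hi
      simp only [mem_filter] at hi
      exact Nat.mem_divisors.mpr hi.2
    · intro i _ j _ h; omega
    · intro d hd
      have h1 := Nat.pos_of_mem_divisors hd
      have h2 := Nat.divisor_le hd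
      refine ⟨d - 1, ?_, by omega⟩
      simp only [mem_filter, mem_range]
      rw [Nat.sub_add_cancel h1]
      exact ⟨by omega, Nat.mem_divisors.mp hd⟩
    · intro i _; rfl

lemma th_ff : th (ff R) = -SS R * ff R := by
  apply eq_of_forall_X_pow_dvd
  intro N
  have h1 := ff_sub_PP (R := R) N
  have h2 := SS_sub (R := R) N
  have h3 := X_pow_dvd_th h1
  rw [th_sub, th_PP] at h3
  have : th (ff R) - -SS R * ff R = (th (ff R) - -(∑ i ∈ range N, GG R (i + 1)) * PP R N)
      + (SS R - ∑ i ∈ range N, GG R (i + 1)) * PP R N + SS R * (ff R - PP R N) := by ring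
  rw [this]
  exact (pow_dvd_pow _ (Nat.le_succ N)).trans
    (dvd_add (dvd_add h3 (h2.mul_right _)) (h1.mul_left _))

lemma E2_eq : E2 R = 1 - 24 * SS R := by
  ext n
  rw [E2, coeff_Eis, map_sub, coeff_one, show (24 : R⟦X⟧) = C (24 : R) from rfl, coeff_C_mul]
  split_ifs with h
  · subst h; simp [SS]
  · simp [SS]

lemma th_ff' : 24 * th (ff R) = (E2 R - 1) * ff R := by
  rw [th_ff, E2_eq]; ring

/-- generating series of the partition function -/
noncomputable def Pgf (R : Type*) [CommRing R] : R⟦X⟧ :=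
  PowerSeries.mk fun n => (Fintype.card (Nat.Partition n) : R)

open scoped PowerSeries.WithPiTopology in
lemma Pgf_mul_ff : Pgf R * ff R = 1 := by
  let _ : TopologicalSpace R := ⊥
  have _ : DiscreteTopology R := ⟨rfl⟩
  have h1 := Nat.Partition.hasProd_powerSeriesMk_card_restricted R (fun _ => True)
  have h2 := PowerSeries.WithPiTopology.hasProd_one_sub_X_pow R
  have h3 := h1.mul h2
  have h4 : (fun i : ℕ => (if True then ∑' j : ℕ, (X : R⟦X⟧) ^ ((i + 1) * j) else 1)
      * (1 - X ^ (i + 1))) = fun _ => 1 := by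
    funext i
    simp only [if_true, pow_mul]
    exact PowerSeries.WithPiTopology.tsum_pow_mul_one_sub_of_constantCoeff_eq_zero (by simp)
  rw [h4] at h3
  have h5 := h3.unique hasProd_one
  rw [← h5, Pgf, ff]
  congr 2
  funext n
  simp [Nat.Partition.restricted]

lemma coeff_pow_eq_tuple (g : R⟦X⟧) (t n : ℕ) :
    coeff n (g ^ t) = ∑ x ∈ Finset.Nat.antidiagonalTuple t n, ∏ i, coeff (x i) g := by
  induction t generalizing n with
  | zero =>
    rcases Nat.eq_zero_or_pos n with rfl | hn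
    · simp
    · obtain ⟨m, rfl⟩ := Nat.exists_eq_succ_of_ne_zero hn.ne'
      simp [Finset.Nat.antidiagonalTuple_zero_succ, coeff_one]
  | succ t ih =>
    rw [pow_succ', coeff_mul]
    simp_rw [ih, Finset.mul_sum]
    rw [Finset.sum_sigma']
    refine Finset.sum_bij (fun p _ => (Fin.cons p.1.1 p.2 : Fin (t + 1) → ℕ)) ?_ ?_ ?_ ?_
    · intro p hp
      simp only [mem_sigma, HasAntidiagonal.mem_antidiagonal, Finset.Nat.mem_antidiagonalTuple] at hp ⊢
      rw [Fin.sum_univ_succ]; simp [hp.2, hp.1]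
    · rintro ⟨⟨a, b⟩, x⟩ hp ⟨⟨a', b'⟩, x'⟩ hp' h
      simp only [mem_sigma, HasAntidiagonal.mem_antidiagonal, Finset.Nat.mem_antidiagonalTuple] at hp hp'
      have h1 := Fin.cons_injective2 (α := fun _ => ℕ) h
      simp only at h1
      obtain ⟨rfl, rfl⟩ := h1
      have : b = b' := by omega
      subst this; rfl
    · intro y hy
      rw [Finset.Nat.mem_antidiagonalTuple, Fin.sum_univ_succ] at hy
      refine ⟨⟨(y 0, ∑ i : Fin t, y i.succ), Fin.tail y⟩, ?_, ?_⟩
      · simp only [mem_sigma, HasAntidiagonal.mem_antidiagonal, Finset.Nat.mem_antidiagonalTuple]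
        exact ⟨hy, rfl⟩
      · simp
    · intro p _
      rw [Fin.prod_univ_succ]; simp

/-- number of t-multipartitions of n -/
def pt (t n : ℕ) : ℕ :=
  ∑ x ∈ Finset.Nat.antidiagonalTuple t n, ∏ i, Fintype.card (Nat.Partition (x i))

lemma coeff_Pgf_pow (t n : ℕ) : coeff n (Pgf R ^ t) = (pt t n : R) := by
  rw [coeff_pow_eq_tuple, pt]
  simp [Pgf]

end Pool.Agent.Lib.MP_a3366f_nt.H28
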