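import Pool.Agent.Lib.MP_a3366f_nt.H28.Formal

open PowerSeries Finset

namespace Pool.Agent.Lib.MP_a3366f_nt.H28

variable {R : Type*} [CommRing R]

/-- the span of the monomials v^i (8v)^j x^e with i at most d -/
noncomputable def Gm (x : R⟦X⟧) (d : ℕ) : Submodule R R⟦X⟧ :=
  Submodule.span R {y | ∃ i j e : ℕ, i ≤ d ∧ y = vv R ^ i * (8 * vv R) ^ j * x ^ e}

lemma Gm_gen (x : R⟦X⟧) {d i : ℕ} (j e : ℕ) (h : i ≤ d) :
    vv R ^ i * (8 * vv R) ^ j * x ^ e ∈ Gm x d :=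
  Submodule.subset_span ⟨i, j, e, h, rfl⟩

lemma Gm_mono (x : R⟦X⟧) {d d' : ℕ} (h : d ≤ d') : Gm x d ≤ Gm x d' :=
  Submodule.span_mono fun _ ⟨i, j, e, hi, hy⟩ => ⟨i, j, e, hi.trans h, hy⟩

lemma Gm_mul {x y y' : R⟦X⟧} {d d' : ℕ} (h : y ∈ Gm x d) (h' : y' ∈ Gm x d') :
    y * y' ∈ Gm x (d + d') := by
  have := Submodule.mul_mem_mul h h'
  rw [Gm, Gm, Submodule.span_mul_span] at this
  refine Submodule.span_mono ?_ this
  rintro _ ⟨_, ⟨i, j, e, hi, rfl⟩, _, ⟨i', j', e', hi', rfl⟩, rfl⟩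
  exact ⟨i + i', j + j', e + e', by omega, by ring⟩

lemma Gm_mul0 {x y y' : R⟦X⟧} {d : ℕ} (h : y ∈ Gm x 0) (h' : y' ∈ Gm x d) :
    y * y' ∈ Gm x d := by simpa using Gm_mul h h'

lemma Gm_one (x : R⟦X⟧) (d : ℕ) : 1 ∈ Gm x d := by simpa using Gm_gen x 0 0 (Nat.zero_le d)
lemma Gm_C (x : R⟦X⟧) (d : ℕ) (c : R) : C c ∈ Gm x d := by
  simpa [smul_eq_C_mul] using (Gm x d).smul_mem c (Gm_one x d)
lemma Gm_C_mul {x y : R⟦X⟧} {d : ℕ} (c : R) (h : y ∈ Gm x d) : C c * y ∈ Gm x d :=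
  Gm_mul0 (Gm_C x 0 c) h
lemma Gm_nat (x : R⟦X⟧) (d n : ℕ) : (n : R⟦X⟧) ∈ Gm x d := by
  rw [← map_natCast (C (R := R)) n]; exact Gm_C x d _
lemma Gm_ofNat (x : R⟦X⟧) (d n : ℕ) [n.AtLeastTwo] : (ofNat(n) : R⟦X⟧) ∈ Gm x d := Gm_nat x d n
lemma Gm_8v (x : R⟦X⟧) : 8 * vv R ∈ Gm x 0 := by simpa using Gm_gen x 1 0 (le_refl 0)
lemma Gm_x (x : R⟦X⟧) : x ∈ Gm x 0 := by simpa using Gm_gen x 0 1 (le_refl 0)
lemma Gm_v (x : R⟦X⟧) : vv R ∈ Gm x 1 := by simpa using Gm_gen x 0 0 (le_refl 1)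
lemma Gm_pow {x y : R⟦X⟧} {d : ℕ} (h : y ∈ Gm x d) (n : ℕ) : y ^ n ∈ Gm x (d * n) := by
  induction n with
  | zero => simpa using Gm_one x 0
  | succ n ih => rw [pow_succ, mul_add, mul_one]; exact Gm_mul ih h
lemma Gm_pow0 {x y : R⟦X⟧} (h : y ∈ Gm x 0) (n : ℕ) : y ^ n ∈ Gm x 0 := by
  simpa using Gm_pow h n

lemma Gm_le {x x' : R⟦X⟧} (h : x ∈ Gm x' 0) (d : ℕ) : Gm x d ≤ Gm x' d := by
  refine Submodule.span_le.mpr ?_
  rintro _ ⟨i, j, e, hi, rfl⟩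
  have := Gm_mul0 (Gm_pow0 h e) (Gm_gen x' j 0 hi)
  simpa [mul_comm] using this

lemma Gm_24v (x : R⟦X⟧) : 1 + 24 * vv R ∈ Gm x 0 := by
  have := (Gm x 0).add_mem (Gm_one x 0) (Gm_mul0 (Gm_ofNat x 0 3) (Gm_8v x))
  rwa [show 3 * (8 * vv R) = 24 * vv R by ring] at this

variable {N : ℕ}

lemma two_pow_series (hN : (2 : R) ^ N = 0) : (2 : R⟦X⟧) ^ N = 0 := by
  rw [show (2 : R⟦X⟧) = C (2 : R) from rfl, ← map_pow, hN, map_zero]

lemma Gm_ww (hN : (2 : R) ^ N = 0) (x : R⟦X⟧) : ww R ∈ Gm x 0 := by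
  have h1 : (-(24 * vv R)) ^ N = 0 := by
    rw [show -(24 * vv R) = 2 * (-12 * vv R) by ring, mul_pow, two_pow_series hN, zero_mul]
  have h2 := mul_neg_geom_sum (-(24 * vv R)) N
  rw [h1] at h2
  have h3 : ww R = ∑ i ∈ range N, (-(24 * vv R)) ^ i := by
    have := ww_mul (R := R)
    linear_combination -ww R * h2 + (∑ i ∈ range N, (-(24 * vv R)) ^ i) * this
  rw [h3]
  refine Submodule.sum_mem _ fun i _ => Gm_pow0 (Submodule.neg_mem _ ?_) i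
  have := Gm_mul0 (Gm_ofNat x 0 3) (Gm_8v x)
  rwa [show 3 * (8 * vv R) = 24 * vv R by ring] at this

lemma Gm_oo (hN : (2 : R) ^ N = 0) (x : R⟦X⟧) : (1 + 8 * vv R) * ww R ^ 2 ∈ Gm x 0 :=
  Gm_mul0 ((Gm x 0).add_mem (Gm_one x 0) (Gm_8v x)) (Gm_pow0 (Gm_ww hN x) 2)

lemma Gm_s (hN : (2 : R) ^ N = 0) (x : R⟦X⟧) : ss R ∈ Gm x 1 := by
  rw [A4, mul_comm]; exact Gm_mul0 (Gm_oo hN x) (Gm_v x)

lemma Gm_8s (hN : (2 : R) ^ N = 0) (x : R⟦X⟧) : 8 * ss R ∈ Gm x 0 := by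
  rw [A4, ← mul_assoc]; exact Gm_mul0 (Gm_8v x) (Gm_oo hN x)

lemma UU_vv_pow (n : ℕ) (x : R⟦X⟧) :
    UU 2 (vv R ^ n * V2 x) = if Even n then ss R ^ (n / 2) * x else 0 := by
  split_ifs with h
  · obtain ⟨l, rfl⟩ := h
    rw [← two_mul, pow_mul, ← V2_ss, ← map_pow, ← map_mul, UU_expand,
      Nat.mul_div_cancel_left _ two_pos]
  · obtain ⟨l, rfl⟩ := Nat.not_even_iff_odd.mp h
    rw [pow_succ', pow_mul, ← V2_ss, ← map_pow, mul_assoc, ← map_mul, UU_vv]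

lemma UU_eight_pow (j : ℕ) (φ : R⟦X⟧) : UU 2 (8 ^ j * φ) = 8 ^ j * UU 2 φ := by
  rw [show (8 : R⟦X⟧) = C (8 : R) from rfl, ← map_pow, ← smul_eq_C_mul, map_smul, smul_eq_C_mul]

lemma Gm_UU (hN : (2 : R) ^ N = 0) {x y : R⟦X⟧} {d : ℕ} (h : y ∈ Gm (V2 x) d) :
    UU 2 y ∈ Gm x (d / 2) := by
  induction h using Submodule.span_induction with
  | mem y hy =>
    obtain ⟨i, j, e, hi, rfl⟩ := hy
    rw [show vv R ^ i * (8 * vv R) ^ j * V2 x ^ e = 8 ^ j * (vv R ^ (i + j) * V2 (x ^ e)) by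
      rw [map_pow]; ring, UU_eight_pow, UU_vv_pow]
    split_ifs with h
    · obtain ⟨l, hl⟩ := h
      rw [show (i + j) / 2 = l by omega, A4, mul_pow]
      rcases le_total j l with h1 | h1
      · obtain ⟨m, rfl⟩ := Nat.exists_eq_add_of_le h1
        have := Gm_mul0 (Gm_pow0 (Gm_oo hN x) (j + m)) (Gm_gen x j e (show m ≤ d / 2 by omega))
        rwa [show ((1 + 8 * vv R) * ww R ^ 2) ^ (j + m) * (vv R ^ m * (8 * vv R) ^ j * x ^ e) =
          8 ^ j * (vv R ^ (j + m) * ((1 + 8 * vv R) * ww R ^ 2) ^ (j + m) * x ^ e) by ring] at this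
      · obtain ⟨m, rfl⟩ := Nat.exists_eq_add_of_le h1
        have := Gm_mul0 (Gm_mul0 (Gm_pow0 (Gm_ofNat x 0 8) m) (Gm_pow0 (Gm_oo hN x) l))
          (Gm_gen x l e (Nat.zero_le (d / 2)))
        rwa [show 8 ^ m * ((1 + 8 * vv R) * ww R ^ 2) ^ l * (vv R ^ 0 * (8 * vv R) ^ l * x ^ e) =
          8 ^ (l + m) * (vv R ^ l * ((1 + 8 * vv R) * ww R ^ 2) ^ l * x ^ e) by ring] at this
    · simp
  | zero => simp
  | add y z _ _ hy hz => rw [map_add]; exact Submodule.add_mem _ hy hz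
  | smul c y _ hy => rw [map_smul]; exact Submodule.smul_mem _ _ hy

lemma UU_aa_pow (k : ℕ) (y : R⟦X⟧) :
    UU 2 (aa R ^ k * y) = aa R ^ k * UU 2 ((1 + 24 * vv R) ^ k * y) := by
  rw [← UU_V2_mul, ← mul_assoc, map_pow, ← mul_pow, ← A2]

variable (R) in
noncomputable def eps : R⟦X⟧ := E2 R * ai R

lemma aa_eps : aa R * eps R = E2 R := by
  rw [eps]; linear_combination E2 R * aa_mul_ai (R := R)

lemma eps_eq : eps R = -1 + 2 * ww R * V2 (eps R) := by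
  have h1 := congrArg V2 (aa_eps (R := R))
  rw [map_mul] at h1
  have h2 : aa R = 2 * V2 (E2 R) - E2 R := rfl
  have h3 := aa_mul_ai (R := R)
  have h4 : eps R = E2 R * ai R := rfl
  rw [ww]
  linear_combination h4 + ai R * h2 - h3 - 2 * ai R * h1

/-- membership in a^k Gm x d -/
def InG (k : ℕ) (x : R⟦X⟧) (d : ℕ) (Y : R⟦X⟧) : Prop := ∃ y ∈ Gm x d, Y = aa R ^ k * y

lemma InG.step (hN : (2 : R) ^ N = 0) {k j d : ℕ} {Y : R⟦X⟧} (h : InG k (2 ^ j * eps R) d Y) :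
    InG k (2 ^ (j + 1) * eps R) (d / 2) (UU 2 Y) := by
  obtain ⟨y, hy, rfl⟩ := h
  refine ⟨_, Gm_UU hN (Gm_mul0 (Gm_pow0 (Gm_24v _) k) (Gm_le ?_ d hy)), UU_aa_pow k y⟩
  have : 2 ^ j * eps R = -2 ^ j + ww R * V2 (2 ^ (j + 1) * eps R) := by
    rw [map_mul, map_pow, map_ofNat]
    linear_combination 2 ^ j * eps_eq (R := R)
  rw [this]
  exact Submodule.add_mem _ (Submodule.neg_mem _ (Gm_pow0 (Gm_ofNat _ 0 2) j))
    (Gm_mul0 (Gm_ww hN _) (Gm_x _))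

lemma InG.iter (hN : (2 : R) ^ N = 0) {k d : ℕ} {Y : R⟦X⟧} (h : InG k (eps R) d Y) (i : ℕ) :
    InG k (2 ^ i * eps R) (d / 2 ^ i) ((UU (R := R) 2)^[i] Y) := by
  induction i with
  | zero => simpa using h
  | succ i ih =>
    rw [Function.iterate_succ_apply', pow_succ (2 : ℕ) i, ← Nat.div_div_eq_div_mul]
    exact ih.step hN

lemma InG.iter0 (hN : (2 : R) ^ N = 0) {k d : ℕ} {Y : R⟦X⟧} (h : InG k (eps R) d Y) {i : ℕ}
    (hi : N ≤ i) : InG k 0 (d / 2 ^ i) ((UU (R := R) 2)^[i] Y) := by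
  have := h.iter hN i
  obtain ⟨m, rfl⟩ := Nat.exists_eq_add_of_le hi
  rwa [pow_add (2 : R⟦X⟧), two_pow_series hN, zero_mul, zero_mul] at this

lemma Gm_split {y : R⟦X⟧} {d : ℕ} (h : y ∈ Gm 0 d) :
    ∃ ψ ∈ Gm (0 : R⟦X⟧) d, y = C (constantCoeff y) + vv R * ψ := by
  induction h using Submodule.span_induction with
  | mem y hy =>
    obtain ⟨i, j, e, hi, rfl⟩ := hy
    have hv := constantCoeff_vv (R := R)
    rcases Nat.eq_zero_or_pos e with rfl | he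
    · cases i with
      | zero =>
        cases j with
        | zero => exact ⟨0, Submodule.zero_mem _, by simp⟩
        | succ j =>
          refine ⟨8 * (vv R ^ 0 * (8 * vv R) ^ j * 0 ^ 0), Gm_mul0 (Gm_ofNat _ 0 8)
            (Gm_gen _ j 0 hi), ?_⟩
          simp [hv]; ring
      | succ i =>
        refine ⟨vv R ^ i * (8 * vv R) ^ j * 0 ^ 0, Gm_gen _ j 0 (by omega), ?_⟩
        simp [hv]; ring
    · exact ⟨0, Submodule.zero_mem _, by simp [he.ne']⟩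
  | zero => exact ⟨0, Submodule.zero_mem _, by simp⟩
  | add y z _ _ hy hz =>
    obtain ⟨a, ha, h1⟩ := hy
    obtain ⟨b, hb, h2⟩ := hz
    refine ⟨a + b, Submodule.add_mem _ ha hb, ?_⟩
    rw [map_add, map_add]; linear_combination h1 + h2
  | smul c y _ hy =>
    obtain ⟨a, ha, h1⟩ := hy
    refine ⟨C c * a, Gm_C_mul c ha, ?_⟩
    rw [smul_eq_C_mul, map_mul, constantCoeff_C, map_mul]; linear_combination C c * h1

lemma Gm_split0 {y : R⟦X⟧} (h : y ∈ Gm 0 0) :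
    ∃ ψ ∈ Gm (0 : R⟦X⟧) 0, y = C (constantCoeff y) + 8 * vv R * ψ := by
  induction h using Submodule.span_induction with
  | mem y hy =>
    obtain ⟨i, j, e, hi, rfl⟩ := hy
    have hv := constantCoeff_vv (R := R)
    obtain rfl : i = 0 := by omega
    rcases Nat.eq_zero_or_pos e with rfl | he
    · cases j with
      | zero => exact ⟨0, Submodule.zero_mem _, by simp⟩
      | succ j =>
        refine ⟨vv R ^ 0 * (8 * vv R) ^ j * 0 ^ 0, Gm_gen _ j 0 hi, ?_⟩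
        simp [hv]; ring
    · exact ⟨0, Submodule.zero_mem _, by simp [he.ne']⟩
  | zero => exact ⟨0, Submodule.zero_mem _, by simp⟩
  | add y z _ _ hy hz =>
    obtain ⟨a, ha, h1⟩ := hy
    obtain ⟨b, hb, h2⟩ := hz
    refine ⟨a + b, Submodule.add_mem _ ha hb, ?_⟩
    rw [map_add, map_add]; linear_combination h1 + h2
  | smul c y _ hy =>
    obtain ⟨a, ha, h1⟩ := hy
    refine ⟨C c * a, Gm_C_mul c ha, ?_⟩
    rw [smul_eq_C_mul, map_mul, constantCoeff_C, map_mul]; linear_combination C c * h1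

lemma UU_8v (hN : (2 : R) ^ N = 0) {y : R⟦X⟧} (h : y ∈ Gm 0 0) :
    ∃ ψ ∈ Gm (0 : R⟦X⟧) 0, UU 2 (8 * vv R * y) = 2 * (8 * vv R * ψ) := by
  induction h using Submodule.span_induction with
  | mem y hy =>
    obtain ⟨i, j, e, hi, rfl⟩ := hy
    obtain rfl : i = 0 := by omega
    rcases Nat.eq_zero_or_pos e with rfl | he
    · rw [show 8 * vv R * (vv R ^ 0 * (8 * vv R) ^ j * 0 ^ 0) =
        8 ^ (j + 1) * (vv R ^ (j + 1) * V2 1) by rw [map_one]; ring, UU_eight_pow, UU_vv_pow]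
      split_ifs with h
      · obtain ⟨l, hl⟩ := h
        obtain ⟨m, rfl⟩ : ∃ m, l = m + 1 := ⟨l - 1, by omega⟩
        refine ⟨4 * 8 ^ m * (8 * vv R) ^ m * ((1 + 8 * vv R) * ww R ^ 2) ^ (m + 1),
          Gm_mul0 (Gm_mul0 (Gm_mul0 (Gm_ofNat _ 0 4) (Gm_pow0 (Gm_ofNat _ 0 8) m))
            (Gm_pow0 (Gm_8v _) m)) (Gm_pow0 (Gm_oo hN _) _), ?_⟩
        rw [show (j + 1) / 2 = m + 1 by omega, hl, A4, mul_pow (vv R)]; ring
      · exact ⟨0, Submodule.zero_mem _, by simp⟩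
    · exact ⟨0, Submodule.zero_mem _, by simp [he.ne']⟩
  | zero => exact ⟨0, Submodule.zero_mem _, by simp⟩
  | add y z _ _ hy hz =>
    obtain ⟨a, ha, h1⟩ := hy
    obtain ⟨b, hb, h2⟩ := hz
    refine ⟨a + b, Submodule.add_mem _ ha hb, ?_⟩
    rw [mul_add, map_add]; linear_combination h1 + h2
  | smul c y _ hy =>
    obtain ⟨a, ha, h1⟩ := hy
    refine ⟨C c * a, Gm_C_mul c ha, ?_⟩
    rw [mul_smul_comm, map_smul, h1, smul_eq_C_mul]; ring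

lemma iter_kill (hN : (2 : R) ^ N = 0) (k : ℕ) {y : R⟦X⟧} (h : y ∈ Gm 0 0) (i : ℕ) :
    ∃ ψ ∈ Gm (0 : R⟦X⟧) 0,
      (UU (R := R) 2)^[i] (aa R ^ k * (8 * vv R * y)) = 2 ^ i * (aa R ^ k * (8 * vv R * ψ)) := by
  induction i with
  | zero => exact ⟨y, h, by simp⟩
  | succ i ih =>
    obtain ⟨ψ, hψ, h1⟩ := ih
    obtain ⟨φ, hφ, h2⟩ := UU_8v hN (Gm_mul0 (Gm_pow0 (Gm_24v _) k) hψ)
    refine ⟨φ, hφ, ?_⟩
    rw [Function.iterate_succ_apply', h1, show (2 : R⟦X⟧) = C (2 : R) from rfl, ← map_pow,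
      ← smul_eq_C_mul, map_smul, UU_aa_pow, show (1 + 24 * vv R) ^ k * (8 * vv R * ψ) =
        8 * vv R * ((1 + 24 * vv R) ^ k * ψ) by ring, h2, smul_eq_C_mul, map_pow,
      show C (2 : R) = (2 : R⟦X⟧) from rfl]
    ring

lemma constantCoeff_iter (i : ℕ) (Y : R⟦X⟧) :
    constantCoeff ((UU (R := R) 2)^[i] Y) = constantCoeff Y := by
  rw [← coeff_zero_eq_constantCoeff_apply, UU_iterate]; simp

/-- the ordinary projection kills everything with zero constant term -/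
theorem InG.ord (hN : (2 : R) ^ N = 0) {k d b : ℕ} {Y : R⟦X⟧} (h : InG k (eps R) d Y)
    (hd : d < 2 ^ b) (h0 : constantCoeff Y = 0) {i : ℕ} (hi : 2 * N + b ≤ i) (n : ℕ) :
    coeff (2 ^ i * n) Y = 0 := by
  obtain ⟨y, hy, h1⟩ := h.iter0 hN (i := N + b) (by omega)
  rw [Nat.div_eq_of_lt (hd.trans_le (Nat.pow_le_pow_right two_pos (by omega)))] at hy
  obtain ⟨ψ, hψ, h2⟩ := Gm_split0 hy
  have h3 : constantCoeff y = 0 := by
    have := congrArg constantCoeff h1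
    rw [constantCoeff_iter, h0] at this
    simpa using this.symm
  rw [h3, map_zero, zero_add] at h2
  obtain ⟨φ, _, h4⟩ := iter_kill hN k hψ N
  rw [two_pow_series hN, zero_mul, ← h2, ← h1, ← Function.iterate_add_apply] at h4
  obtain ⟨m, rfl⟩ := Nat.exists_eq_add_of_le hi
  have := congrArg (coeff (2 ^ m * n)) h4
  rw [UU_iterate, map_zero] at this
  rw [← this]; congr 2; ring

/-- closure under the theta operator -/
lemma Gm_th (hN : (2 : R) ^ N = 0) {y : R⟦X⟧} (h : y ∈ Gm (eps R) 0) :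
    ∃ y' ∈ Gm (eps R) 0, 24 * th y = aa R * y' := by
  let P : R⟦X⟧ → Prop := fun y => y ∈ Gm (eps R) 0 ∧ ∃ y' ∈ Gm (eps R) 0, 24 * th y = aa R * y'
  have hmul : ∀ y z, P y → P z → P (y * z) := by
    rintro y z ⟨hy, y', hy', h1⟩ ⟨hz, z', hz', h2⟩
    refine ⟨Gm_mul0 hy hz, y' * z + y * z',
      Submodule.add_mem _ (Gm_mul0 hy' hz) (Gm_mul0 hy hz'), ?_⟩
    rw [th_mul]; linear_combination z * h1 + y * h2
  have hpow : ∀ y n, P y → P (y ^ n) := by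
    intro y n hy
    induction n with
    | zero => exact ⟨by simpa using Gm_one _ 0, 0, Submodule.zero_mem _, by simp⟩
    | succ n ih => rw [pow_succ]; exact hmul _ _ ih hy
  have h8 : P (8 * vv R) := by
    refine ⟨Gm_8v _, 24 * (8 * vv R) * (1 + 8 * vv R) * (1 - 8 * vv R) * ww R,
      Gm_mul0 (Gm_mul0 (Gm_mul0 (Gm_mul0 (Gm_ofNat _ 0 24) (Gm_8v _))
        (Submodule.add_mem _ (Gm_one _ 0) (Gm_8v _)))
        (Submodule.sub_mem _ (Gm_one _ 0) (Gm_8v _))) (Gm_ww hN _), ?_⟩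
    rw [th_mul, A7]; simp only [th_ofNat]; ring
  have he : P (eps R) := by
    refine ⟨Gm_x _, -2 * eps R ^ 2 - 2 - 48 * (8 * ss R) + 4 * eps R - 96 * (8 * ss R) * eps R,
      ?_, ?_⟩
    · refine Submodule.sub_mem _ (Submodule.add_mem _ (Submodule.sub_mem _ (Submodule.sub_mem _
        (Gm_mul0 (Submodule.neg_mem _ (Gm_ofNat _ 0 2)) (Gm_pow0 (Gm_x _) 2)) (Gm_ofNat _ 0 2))
        (Gm_mul0 (Gm_ofNat _ 0 48) (Gm_8s hN _))) (Gm_mul0 (Gm_ofNat _ 0 4) (Gm_x _)))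
        (Gm_mul0 (Gm_mul0 (Gm_ofNat _ 0 96) (Gm_8s hN _)) (Gm_x _))
    · have h1 := congrArg th (aa_eps (R := R))
      rw [th_mul] at h1
      have h2 := A6' (R := R)
      have h3 := R1 R
      have h4 := A5 (R := R)
      have h5 := aa_eps (R := R)
      apply isUnit_aa.mul_left_cancel
      linear_combination 24 * h1 - 2 * eps R * h2 + 2 * h3 - 2 * h4
        + (2 * aa R * eps R - 2 * E2 R) * h5
  induction h using Submodule.span_induction with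
  | mem y hy =>
    obtain ⟨i, j, e, hi, rfl⟩ := hy
    obtain rfl : i = 0 := by omega
    simpa using (hmul _ _ (hpow _ j h8) (hpow _ e he)).2
  | zero => exact ⟨0, Submodule.zero_mem _, by simp⟩
  | add y z _ _ hy hz =>
    obtain ⟨a, ha, h1⟩ := hy
    obtain ⟨b, hb, h2⟩ := hz
    refine ⟨a + b, Submodule.add_mem _ ha hb, ?_⟩
    rw [th_add]; linear_combination h1 + h2
  | smul c y _ hy =>
    obtain ⟨a, ha, h1⟩ := hy
    refine ⟨C c * a, Gm_C_mul c ha, ?_⟩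
    rw [th_smul, smul_eq_C_mul]; linear_combination C c * h1

lemma InG.th (hN : (2 : R) ^ N = 0) {k : ℕ} {Y : R⟦X⟧} (h : InG k (eps R) 0 Y) :
    InG (k + 1) (eps R) 0 (24 * th Y) := by
  obtain ⟨y, hy, rfl⟩ := h
  obtain ⟨y', hy', h1⟩ := Gm_th hN hy
  refine ⟨(k : R⟦X⟧) * (4 * eps R - 4 + 96 * (8 * ss R)) * y + y', Submodule.add_mem _
    (Gm_mul0 (Gm_mul0 (Gm_nat _ 0 k) (Submodule.add_mem _ (Submodule.sub_mem _
      (Gm_mul0 (Gm_ofNat _ 0 4) (Gm_x _)) (Gm_ofNat _ 0 4))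
      (Gm_mul0 (Gm_ofNat _ 0 96) (Gm_8s hN _)))) hy) hy', ?_⟩
  have h2 := th_pow_mul (aa R) k
  have h3 := A6' (R := R)
  have h5 := aa_eps (R := R)
  apply isUnit_aa.mul_left_cancel
  rw [th_mul]
  linear_combination 24 * y * h2 + 2 * (k : R⟦X⟧) * aa R ^ k * y * h3
    + aa R ^ (k + 1) * h1 - 4 * (k : R⟦X⟧) * aa R ^ (k + 1) * y * h5

end Pool.Agent.Lib.MP_a3366f_nt.H28
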