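import Pool.Agent.Lib.MP_a3366f_nt.H28.Ord

open PowerSeries Finset

namespace Pool.Agent.Lib.MP_a3366f_nt.H28

variable {R : Type*} [CommRing R] {N : ℕ}

namespace InG
variable {k l d d' : ℕ} {x Y Z : R⟦X⟧}

lemma mul (h : InG k x d Y) (h' : InG l x d' Z) : InG (k + l) x (d + d') (Y * Z) := by
  obtain ⟨y, hy, rfl⟩ := h
  obtain ⟨z, hz, rfl⟩ := h'
  exact ⟨y * z, Gm_mul hy hz, by ring⟩

lemma add (h : InG k x d Y) (h' : InG k x d Z) : InG k x d (Y + Z) := by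
  obtain ⟨y, hy, rfl⟩ := h
  obtain ⟨z, hz, rfl⟩ := h'
  exact ⟨y + z, Submodule.add_mem _ hy hz, by ring⟩

lemma sub (h : InG k x d Y) (h' : InG k x d Z) : InG k x d (Y - Z) := by
  obtain ⟨y, hy, rfl⟩ := h
  obtain ⟨z, hz, rfl⟩ := h'
  exact ⟨y - z, Submodule.sub_mem _ hy hz, by ring⟩

lemma C_mul (c : R) (h : InG k x d Y) : InG k x d (C c * Y) := by
  obtain ⟨y, hy, rfl⟩ := h
  exact ⟨C c * y, Gm_C_mul c hy, by ring⟩

lemma mono (h : InG k x d Y) (hd : d ≤ d') : InG k x d' Y := by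
  obtain ⟨y, hy, rfl⟩ := h
  exact ⟨y, Gm_mono x hd hy, rfl⟩

lemma of_mem (h : Y ∈ Gm x d) : InG 0 x d Y := ⟨Y, h, by simp⟩

lemma pow (h : InG k x d Y) (n : ℕ) : InG (k * n) x (d * n) (Y ^ n) := by
  obtain ⟨y, hy, rfl⟩ := h
  exact ⟨y ^ n, Gm_pow hy n, by ring⟩

end InG

lemma InG_monos (hN : (2 : R) ^ N = 0) (x : R⟦X⟧) {k : ℕ} {g : ℤ⟦X⟧}
    (h : g ∈ Submodule.span ℤ (monos (2 * k))) :
    InG k x k (PowerSeries.map (Int.castRingHom R) g) := by
  induction h using Submodule.span_induction with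
  | mem y hy =>
    obtain ⟨i, j, l, h, rfl⟩ := hy
    have h4 : InG 2 x 0 (E4 R) := ⟨1 + 24 * (8 * ss R), Submodule.add_mem _ (Gm_one _ _)
      (Gm_mul0 (Gm_ofNat _ 0 24) (Gm_8s hN _)), by rw [A5]; ring⟩
    have h6 : InG 3 x 0 (E6 R) := ⟨1 - 72 * (8 * ss R), Submodule.sub_mem _ (Gm_one _ _)
      (Gm_mul0 (Gm_ofNat _ 0 72) (Gm_8s hN _)), by rw [A8]; ring⟩
    have hD : InG 6 x 1 (DD R) := ⟨(1 - 8 * (8 * ss R)) ^ 2 * ss R, Gm_mul0 (Gm_pow0
      (Submodule.sub_mem _ (Gm_one _ _) (Gm_mul0 (Gm_ofNat _ 0 8) (Gm_8s hN _))) 2) (Gm_s hN _),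
      by rw [A9]; ring⟩
    have := ((h4.pow i).mul (h6.pow j)).mul (hD.pow l)
    rw [show 2 * i + 3 * j + 6 * l = k by omega] at this
    simp only [map_mul, map_pow, map_E4, map_E6, map_DD]
    exact this.mono (by omega)
  | zero => exact ⟨0, Submodule.zero_mem _, by simp⟩
  | add y z _ _ hy hz => rw [map_add]; exact hy.add hz
  | smul c y _ hy =>
    rw [zsmul_eq_mul, map_mul, map_intCast, ← map_intCast (C (R := R)) c]; exact hy.C_mul _

lemma isUnit_odd (hN : (2 : R) ^ N = 0) {q : ℕ} (hq : Odd q) : IsUnit (q : R) := by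
  obtain ⟨m, rfl⟩ := hq
  push_cast
  exact IsNilpotent.isUnit_add_one ⟨N, by rw [mul_pow, hN, zero_mul]⟩

lemma geom_stable (hN : (2 : R) ^ N = 0) {m i : ℕ} (hm : m ≠ 0) (hi : N ≤ i) :
    ∑ j ∈ range i, (2 : R) ^ (j * m) = ∑ j ∈ range N, (2 : R) ^ (j * m) := by
  induction i, hi using Nat.le_induction with
  | base => rfl
  | succ i hi ih =>
    rw [sum_range_succ, ih]
    obtain ⟨c, hc⟩ : ∃ c, i * m = N + c :=
      Nat.exists_eq_add_of_le (hi.trans (Nat.le_mul_of_pos_right _ (Nat.pos_of_ne_zero hm)))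
    rw [hc, pow_add, hN, zero_mul, add_zero]

lemma exists_Eis_int {k : ℕ} (hk : 2 ≤ k) : ∃ (p : ℤ) (q : ℕ), Nat.Coprime p.natAbs q ∧
    (PowerSeries.mk fun n => if n = 0 then (q : ℤ) else
      p * (ArithmeticFunction.sigma (2 * k - 1) n : ℤ)) ∈ Submodule.span ℤ (monos (2 * k)) := by
  obtain ⟨c, hc⟩ : ∃ c : ℚ, c = -(2 * (2 * k : ℕ) / bernoulli (2 * k)) := ⟨_, rfl⟩
  refine ⟨c.num, c.den, c.reduced, structure_thm _ _ ?_⟩
  have h := (isMF_Eis (k := 2 * k) (by omega) ⟨k, two_mul k⟩).const_mul (c.den : ℂ)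
  have h2 : (c.den : ℂ) * -(2 * ((2 * k : ℕ) : ℂ) / (bernoulli (2 * k) : ℂ)) = c.num := by
    have := congrArg (Rat.cast : ℚ → ℂ) (Rat.den_mul_eq_num c)
    rw [Rat.cast_mul, Rat.cast_natCast, Rat.cast_intCast] at this
    rw [← this, hc]; push_cast; ring
  have : C (c.den : ℂ) * Eis (-(2 * ((2 * k : ℕ) : ℂ) / (bernoulli (2 * k) : ℂ))) (2 * k - 1) =
      cx (PowerSeries.mk fun n => if n = 0 then (c.den : ℤ) else
      c.num * (ArithmeticFunction.sigma (2 * k - 1) n : ℤ)) := by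
    ext n
    rw [coeff_C_mul, coeff_Eis, coeff_map, coeff_mk]
    split_ifs
    · simp
    · rw [← mul_assoc, h2]; simp
  rwa [this] at h

lemma exists_Eis (hN : (2 : R) ^ N = 0) (k : ℕ) :
    ∃ e : R, (k = 0 → e = 0) ∧ InG k (eps R) k (Eis e (2 * k - 1)) := by
  rcases Nat.lt_or_ge k 2 with hk | hk
  · interval_cases k
    · refine ⟨0, fun _ => rfl, 1, Gm_one _ _, ?_⟩
      ext n; rw [coeff_Eis, pow_zero, one_mul, coeff_one]; split_ifs <;> simp
    · exact ⟨-24, by simp, eps R, Gm_mono _ zero_le_one (Gm_x _), by rw [pow_one, aa_eps]; rfl⟩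
  · obtain ⟨p, q, hpq, h⟩ := exists_Eis_int hk
    have hq : Odd q := by
      by_contra hq
      rw [Nat.not_odd_iff_even] at hq
      have h2 : (2 : ZMod 2) ^ 1 = 0 := rfl
      have hq0 : (q : ZMod 2) = 0 := (ZMod.natCast_eq_zero_iff_even).mpr hq
      have h3 := (InG_monos h2 (eps _) h).ord h2 (b := k) Nat.lt_two_pow_self (by
        rw [← coeff_zero_eq_constantCoeff_apply, coeff_map, coeff_mk]; simpa using hq0)
        (i := 2 * 1 + k) le_rfl 1
      rw [coeff_map, coeff_mk, if_neg (by positivity), sigma_two_pow_mul _ _ odd_one] at h3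
      simp only [map_mul, eq_intCast, ArithmeticFunction.sigma_one, mul_one,
        Nat.cast_sum, Nat.cast_pow, Nat.cast_ofNat, Int.cast_sum, Int.cast_pow,
        Int.cast_ofNat] at h3
      rw [geom_stable h2 (by omega) (by omega)] at h3
      simp only [range_one, sum_singleton, zero_mul, pow_zero, mul_one] at h3
      have h4 : 2 ∣ p.natAbs := by
        have := (ZMod.intCast_zmod_eq_zero_iff_dvd p 2).mp h3
        exact Int.natCast_dvd.mp this
      have := Nat.dvd_gcd h4 hq.two_dvd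
      rw [hpq] at this; omega
    obtain ⟨qi, hqi⟩ := (isUnit_odd hN hq).exists_left_inv
    refine ⟨qi * p, by omega, ?_⟩
    have h3 := (InG_monos hN (eps R) h).C_mul qi
    have : Eis (qi * p) (2 * k - 1) = C qi * PowerSeries.map (Int.castRingHom R)
        (PowerSeries.mk fun n => if n = 0 then (q : ℤ) else
          p * (ArithmeticFunction.sigma (2 * k - 1) n : ℤ)) := by
      ext n
      rw [coeff_C_mul, coeff_Eis, coeff_map, coeff_mk]
      split_ifs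
      · simp [hqi]
      · simp [mul_assoc]
    rwa [this]

/-- the ordinary projection is Eisenstein -/
theorem coeff_ord (hN : (2 : R) ^ N = 0) (k : ℕ) : ∃ E : R, (k = 0 → E = 0) ∧
    ∀ (d b : ℕ) (Y : R⟦X⟧), InG k (eps R) d Y → d < 2 ^ b → k < 2 ^ b → ∀ i, 2 * N + b ≤ i →
      ∀ n, Odd n → coeff (2 ^ i * n) Y =
        constantCoeff Y * E * (ArithmeticFunction.sigma (2 * k - 1) n : R) := by
  obtain ⟨e, he, hE⟩ := exists_Eis hN k
  refine ⟨e * ∑ j ∈ range N, (2 : R) ^ (j * (2 * k - 1)), fun h => by rw [he h, zero_mul],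
    fun d b Y hY hd hk i hi n hn => ?_⟩
  have h1 := ((hY.mono (le_max_left d k)).sub ((hE.C_mul (constantCoeff Y)).mono
    (le_max_right d k))).ord hN (max_lt hd hk) (by simp) hi n
  rw [map_sub, coeff_C_mul, coeff_Eis, if_neg (by have := hn.pos; positivity),
    sigma_two_pow_mul _ _ hn, sub_eq_zero] at h1
  rw [h1]
  rcases Nat.eq_zero_or_pos k with rfl | hk0
  · simp [he rfl]
  · push_cast
    rw [geom_stable hN (by omega) (by omega)]; ring

/-- twisted theta series -/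
noncomputable def TT (κ : ℕ) (Θ : R⟦X⟧) (k : ℕ) : R⟦X⟧ :=
  PowerSeries.mk fun g => ((κ * g + 1 : ℕ) : R) ^ k * coeff g Θ

lemma InG_TT (hN : (2 : R) ^ N = 0) {κ κ' : ℕ} (hκ : κ * κ' = 24) (hodd : Odd κ')
    {Θ Θi β : R⟦X⟧} (hΘ : Θ * Θi = 1) (hβ : β ∈ Gm (eps R) 0)
    (hth : 24 * th Θ = (aa R * β - κ') * Θ) (k : ℕ) : InG k (eps R) 0 (TT κ Θ k * Θi) := by
  obtain ⟨i3, hi3⟩ := (isUnit_odd hN hodd).exists_left_inv
  induction k with
  | zero =>
    have : TT κ Θ 0 = Θ := by ext n; simp [TT]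
    rw [this, hΘ]; exact InG.of_mem (Gm_one _ _)
  | succ k ih =>
    have h1 : TT κ Θ (k + 1) = C i3 * (24 * th (TT κ Θ k) + κ' * TT κ Θ k) := by
      ext n
      rw [coeff_C_mul, map_add, show (24 : R⟦X⟧) = C (24 : R) from rfl, coeff_C_mul,
        ← map_natCast (C (R := R)) κ', coeff_C_mul, coeff_th]
      simp only [TT, coeff_mk]
      have h24 : (24 : R) = κ * κ' := by exact_mod_cast congrArg (Nat.cast : ℕ → R) hκ.symm
      rw [h24]; push_cast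
      linear_combination -((κ * n + 1 : R) ^ (k + 1) * coeff n Θ) * hi3
    have hb : InG 1 (eps R) 0 (aa R ^ 1 * β) := ⟨β, hβ, rfl⟩
    have h2 := (ih.th hN).add (by simpa only [add_zero] using ih.mul hb)
    have h3 : TT κ Θ (k + 1) * Θi =
        C i3 * (24 * th (TT κ Θ k * Θi) + TT κ Θ k * Θi * (aa R ^ 1 * β)) := by
      have h4 := congrArg th hΘ
      rw [th_mul, th_one] at h4
      rw [h1, th_mul]
      have h5 : 24 * th Θi + aa R * β * Θi = κ' * Θi := by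
        linear_combination 24 * Θi * h4 - Θi * Θi * hth -
          (24 * th Θi + aa R * β * Θi - (κ' : R⟦X⟧) * Θi) * hΘ
      linear_combination -(C i3 * TT κ Θ k) * h5
    rw [h3]; exact h2.C_mul i3

lemma UU_iter_eq (s : ℕ) (g : R⟦X⟧) : (UU (R := R) 2)^[s] g = UU (2 ^ s) g := by
  ext n; rw [UU_iterate, coeff_UU]

lemma exists_v1 : ∃ v1 v1i : R⟦X⟧, vv R = X * v1 ∧ v1 * v1i = 1 := by
  obtain ⟨v1, h⟩ := X_dvd_iff.mpr (constantCoeff_vv (R := R))
  have h1 := A9 (R := R)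
  rw [A4, DD] at h1
  have h2 : ff R ^ 24 = v1 * (aa R ^ 6 * ((1 + 8 * vv R) * ww R ^ 2) *
      (1 - 64 * (vv R * ((1 + 8 * vv R) * ww R ^ 2))) ^ 2) := by
    apply X_mul_cancel
    rw [h1]; nth_rewrite 1 [h]; ring
  have h3 : IsUnit v1 := isUnit_of_mul_isUnit_left (h2 ▸ isUnit_ff.pow 24)
  obtain ⟨w, hw⟩ := h3.exists_right_inv
  exact ⟨v1, w, h, hw⟩

/-- clearing a pole -/
lemma pole_clear (hN : (2 : R) ^ N = 0) {k s d0 : ℕ} (hs : N ≤ s) {h D v1 v1i : R⟦X⟧}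
    (hv : vv R = X * v1) (hv1 : v1 * v1i = 1) (hh : h ∈ Gm (eps R) (2 ^ s + d0))
    (h0 : constantCoeff h = 0) (hD : InG k (eps R) 0 D) :
    ∃ Z, InG k (eps R) (d0 + 1) Z ∧
      ∀ n, coeff n Z = coeff (2 ^ s * n + 2 ^ s) (h * D * expand (2 ^ s) (by positivity) v1i) := by
  have h1 := ((InG.of_mem hh).mul hD).iter0 hN hs
  rw [zero_add, add_zero, UU_iter_eq] at h1
  obtain ⟨y, hy, h2⟩ := h1
  obtain ⟨ψ, hψ, h3⟩ := Gm_split hy
  have h4 : constantCoeff y = 0 := by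
    have := congrArg constantCoeff h2
    rw [← UU_iter_eq, constantCoeff_iter] at this
    simpa [h0] using this.symm
  rw [h4, map_zero, zero_add] at h3
  refine ⟨aa R ^ k * ψ, ⟨ψ, Gm_mono _ ?_ (Gm_le (Submodule.zero_mem _) _ hψ), rfl⟩, fun n => ?_⟩
  · rw [Nat.add_div_left _ (by positivity)]
    exact Nat.succ_le_succ (Nat.div_le_self _ _)
  · rw [← mul_add_one, ← coeff_UU, UU_mul_expand, h2, h3, hv,
      show aa R ^ k * (X * v1 * ψ) * v1i = X * (aa R ^ k * ψ * (v1 * v1i)) by ring, hv1, mul_one,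
      coeff_succ_X_mul]

/-- polynomials in the discriminant modulo two -/
noncomputable def PD : Subalgebra (ZMod 2) (ZMod 2)⟦X⟧ := Algebra.adjoin (ZMod 2) {DD (ZMod 2)}

lemma PD_lift {p : (ZMod 2)⟦X⟧} (hp : p ∈ PD) : ∃ d0 : ℕ, ∀ (R : Type) [CommRing R]
    (ρ : R →+* ZMod 2) (x : R⟦X⟧), ∃ h ∈ Gm x d0, PowerSeries.map ρ h = p := by
  induction hp using Algebra.adjoin_induction with
  | mem y hy =>
    obtain rfl : y = DD (ZMod 2) := hy
    exact ⟨1, fun R _ ρ x => ⟨vv R, Gm_v x, by rw [map_vv, vv_two]⟩⟩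
  | algebraMap r =>
    refine ⟨0, fun R _ ρ x => ⟨(r.val : R⟦X⟧), Gm_nat _ _ _, ?_⟩⟩
    rw [map_natCast, ← map_natCast (algebraMap (ZMod 2) (ZMod 2)⟦X⟧), ZMod.natCast_zmod_val]
  | add y z _ _ hy hz =>
    obtain ⟨d, hd⟩ := hy
    obtain ⟨d', hd'⟩ := hz
    refine ⟨max d d', fun R _ ρ x => ?_⟩
    obtain ⟨a, ha, rfl⟩ := hd R ρ x
    obtain ⟨b, hb, rfl⟩ := hd' R ρ x
    exact ⟨a + b, Submodule.add_mem _ (Gm_mono _ (le_max_left _ _) ha)
      (Gm_mono _ (le_max_right _ _) hb), map_add _ _ _⟩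
  | mul y z _ _ hy hz =>
    obtain ⟨d, hd⟩ := hy
    obtain ⟨d', hd'⟩ := hz
    refine ⟨d + d', fun R _ ρ x => ?_⟩
    obtain ⟨a, ha, rfl⟩ := hd R ρ x
    obtain ⟨b, hb, rfl⟩ := hd' R ρ x
    exact ⟨a * b, Gm_mul ha hb, map_mul _ _ _⟩

lemma pow_two_pow_eq_expand (s : ℕ) (g : (ZMod 2)⟦X⟧) :
    g ^ 2 ^ s = expand (2 ^ s) (by positivity) g := by
  induction s with
  | zero => simp
  | succ s ih =>
    rw [show g ^ 2 ^ (s + 1) = (g ^ 2 ^ s) ^ 2 by rw [pow_succ, pow_mul], ih, sq_eq_V2,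
      ← expand_mul]
    congr 2; ring

end Pool.Agent.Lib.MP_a3366f_nt.H28
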