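import Pool.Agent.Lib.MP_a3366f_nt.H28.Gauss

open PowerSeries Finset Complex
open scoped Real MatrixGroups ModularForm Manifold Topology

namespace Pool.Agent.Lib.MP_a3366f_nt.H28

noncomputable def ee (z : ℂ) : ℂ := cexp (2 * π * I * z)

lemma ee_add (z w : ℂ) : ee (z + w) = ee z * ee w := by simp [ee, mul_add, exp_add]
lemma ee_ne_zero (z : ℂ) : ee z ≠ 0 := exp_ne_zero _
lemma ee_nat_mul (n : ℕ) (z : ℂ) : ee (n * z) = ee z ^ n := by
  rw [ee, ee, ← exp_nat_mul]; congr 1; ring
lemma ee_int (n : ℤ) : ee n = 1 := by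
  rw [ee, exp_eq_one_iff]; exact ⟨n, by ring⟩
lemma ee_one : ee 1 = 1 := by simpa using ee_int 1
lemma ee_zero : ee 0 = 1 := by simp [ee]
lemma norm_ee (z : ℂ) : ‖ee z‖ = Real.exp (-2 * π * z.im) := by
  rw [ee, norm_exp]; congr 1; simp
lemma two_pi_I_ne : (2 * π * I : ℂ) ≠ 0 := by simp [Real.pi_ne_zero]
lemma ee_eq_one_iff {z : ℂ} : ee z = 1 ↔ ∃ n : ℤ, z = n := by
  rw [ee, exp_eq_one_iff]
  refine exists_congr fun n => ⟨fun h => ?_, fun h => by rw [h]; ring⟩
  apply mul_left_cancel₀ two_pi_I_ne; rw [h]; ring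
lemma qParam_eq (z : ℂ) : Function.Periodic.qParam 1 z = ee z := by
  simp [Function.Periodic.qParam, ee]
lemma hasDerivAt_ee (z : ℂ) : HasDerivAt ee (2 * π * I * ee z) z := by
  have := ((hasDerivAt_id z).const_mul (2 * π * I)).cexp
  unfold ee
  simpa [mul_comm] using this

lemma hs_congr {f g : ℕ → ℂ} {a : ℂ} (h : HasSum f a) (hfg : ∀ m, g m = f m) : HasSum g a := by
  rwa [show g = f from funext hfg]

def Rep (c : ℂ⟦X⟧) (F : ℂ → ℂ) : Prop :=
  ∀ z : ℂ, 0 < z.im → HasSum (fun m => coeff m c * ee z ^ m) (F z)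

def Mod (k : ℕ) (F : ℂ → ℂ) : Prop := ∀ z : ℂ, 0 < z.im → F (-1 / z) = z ^ k * F z

def IsMF (k : ℕ) (c : ℂ⟦X⟧) : Prop := ∃ F, Rep c F ∧ Mod k F

namespace Rep
variable {c d : ℂ⟦X⟧} {F G : ℂ → ℂ}

lemma congr (h : Rep c F) (hFG : ∀ z : ℂ, 0 < z.im → F z = G z) : Rep c G :=
  fun z hz => hFG z hz ▸ h z hz

lemma add (h : Rep c F) (h' : Rep d G) : Rep (c + d) (fun z => F z + G z) := fun z hz => by
  simpa [add_mul] using (h z hz).add (h' z hz)

lemma sub (h : Rep c F) (h' : Rep d G) : Rep (c - d) (fun z => F z - G z) := fun z hz => by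
  simpa [sub_mul] using (h z hz).sub (h' z hz)

lemma const_mul (a : ℂ) (h : Rep c F) : Rep (C a * c) (fun z => a * F z) := fun z hz => by
  simpa [mul_assoc] using (h z hz).mul_left a

lemma mul (h : Rep c F) (h' : Rep d G) : Rep (c * d) (fun z => F z * G z) := fun z hz => by
  have h1 := (h z hz).summable.norm
  have h2 := (h' z hz).summable.norm
  have h3 := (summable_norm_sum_mul_antidiagonal_of_summable_norm h1 h2).of_norm.hasSum
  rw [← tsum_mul_tsum_eq_tsum_sum_antidiagonal_of_summable_norm h1 h2, (h z hz).tsum_eq,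
    (h' z hz).tsum_eq] at h3
  refine hs_congr h3 fun m => ?_
  rw [coeff_mul, Finset.sum_mul]
  refine Finset.sum_congr rfl fun p hp => ?_
  rw [HasAntidiagonal.mem_antidiagonal] at hp
  rw [← hp]; ring

lemma X_pow (n : ℕ) : Rep (X ^ n) (fun z => ee z ^ n) := fun z _ => by
  have := hasSum_ite_eq n (ee z ^ n)
  convert this using 2 with m
  rw [coeff_X_pow]; split_ifs with h <;> simp [h]

lemma one : Rep 1 (fun _ => 1) := by simpa using X_pow 0

lemma const (a : ℂ) : Rep (C a) (fun _ => a) := by simpa using one.const_mul a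

lemma zero : Rep 0 (fun _ => 0) := by simpa using const 0

lemma pow (h : Rep c F) (n : ℕ) : Rep (c ^ n) (fun z => F z ^ n) := by
  induction n with
  | zero => simpa using one
  | succ n ih => simpa [pow_succ] using ih.mul h

lemma sum {ι : Type*} (s : Finset ι) {c : ι → ℂ⟦X⟧} {F : ι → ℂ → ℂ}
    (h : ∀ i ∈ s, Rep (c i) (F i)) : Rep (∑ i ∈ s, c i) (fun z => ∑ i ∈ s, F i z) := by
  classical
  induction s using Finset.induction_on with
  | empty => simpa using zero
  | insert a s ha ih =>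
    simp only [Finset.sum_insert ha]
    exact (h a (by simp)).add (ih fun i hi => h i (by simp [hi]))

lemma periodic (h : Rep c F) (z : ℂ) (hz : 0 < z.im) (n : ℤ) : F (z + n) = F z := by
  have h1 := h (z + n) (by simpa using hz)
  rw [ee_add, ee_int, mul_one] at h1
  exact h1.unique (h z hz)

lemma aux (h : Rep c F) {z : ℂ} (hz : 0 < z.im) :
    ∃ u : ℕ → ℝ, Summable u ∧ ∀ m, ∀ w ∈ {w : ℂ | z.im / 2 < w.im},
      ‖coeff m c * ee w ^ m‖ ≤ u m := by
  have h0 : (0 : ℝ) < (I * (z.im / 2 : ℝ)).im := by simpa using hz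
  refine ⟨_, (h _ h0).summable.norm, fun m w hw => ?_⟩
  simp only [norm_mul, norm_pow, norm_ee]
  have : (I * (z.im / 2 : ℝ)).im = z.im / 2 := by simp
  rw [this]
  have hw' : z.im / 2 < w.im := hw
  refine mul_le_mul_of_nonneg_left (pow_le_pow_left₀ (by positivity)
    (Real.exp_le_exp.mpr ?_) _) (norm_nonneg _)
  nlinarith [Real.pi_pos]

lemma eventuallyEq (h : Rep c F) {z : ℂ} (hz : 0 < z.im) :
    F =ᶠ[𝓝 z] fun w => ∑' m, coeff m c * ee w ^ m := by
  filter_upwards [UpperHalfPlane.isOpen_upperHalfPlaneSet.mem_nhds hz] with w hw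
  exact (h w hw).tsum_eq.symm

lemma diff_term (m : ℕ) : Differentiable ℂ fun w => coeff m c * ee w ^ m := fun w =>
  (((hasDerivAt_ee w).pow m).const_mul _).differentiableAt

lemma differentiableAt (h : Rep c F) {z : ℂ} (hz : 0 < z.im) : DifferentiableAt ℂ F z := by
  obtain ⟨u, hu, hle⟩ := h.aux hz
  have ho : IsOpen {w : ℂ | z.im / 2 < w.im} := isOpen_lt continuous_const continuous_im
  have := differentiableOn_tsum_of_summable_norm hu (fun m => (diff_term m).differentiableOn) ho hle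
  exact ((this z (by simpa using hz)).differentiableAt
    (ho.mem_nhds (by simpa using hz))).congr_of_eventuallyEq (h.eventuallyEq hz)

lemma deriv (h : Rep c F) : Rep (th c) (fun z => _root_.deriv F z / (2 * π * I)) := fun z hz => by
  obtain ⟨u, hu, hle⟩ := h.aux hz
  have ho : IsOpen {w : ℂ | z.im / 2 < w.im} := isOpen_lt continuous_const continuous_im
  have h1 := hasSum_deriv_of_summable_norm hu (fun m => (diff_term m).differentiableOn) ho hle
    (z := z) (by simpa using hz)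
  rw [← (h.eventuallyEq hz).deriv_eq] at h1
  refine hs_congr (h1.div_const (2 * π * I)) fun m => ?_
  have h2 := (((hasDerivAt_ee z).pow m).const_mul (coeff m c)).deriv
  have h3 : (fun w => coeff m c * ee w ^ m) = fun w => coeff m c * (ee ^ m) w := by
    funext w; simp
  rw [h3, h2, coeff_th, eq_div_iff two_pi_I_ne]
  cases m with
  | zero => simp
  | succ m => simp only [Nat.add_sub_cancel]; ring

lemma eq_zero (h : Rep c (fun _ => 0)) : c = 0 := by
  ext m
  have := ModularFormClass.qExpansion_coeff_unique (c := fun m => coeff m c) one_pos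
    one_mem_strictPeriods_SL (f := (0 : ModularForm 𝒮ℒ 0)) (fun τ => by
      simpa [qParam_eq] using h τ τ.im_pos) m
  simpa [UpperHalfPlane.qExpansion_zero] using this

lemma unique (h : Rep c F) (h' : Rep d F) : c = d :=
  sub_eq_zero.mp (eq_zero (by simpa using h.sub h'))

lemma expand (h : Rep c F) (l : ℕ) (hl : l ≠ 0) : Rep (expand l hl c) (fun z => F (l * z)) :=
  fun z hz => by
  have hl0 : 0 < l := Nat.pos_of_ne_zero hl
  have h1 := h (l * z) (by simp; positivity)
  have hinj : Function.Injective fun m : ℕ => l * m := fun a b hab =>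
    Nat.eq_of_mul_eq_mul_left hl0 hab
  rw [← hinj.hasSum_iff]
  · convert h1 using 2 with m
    simp [ee_nat_mul, pow_mul]
  · intro m hm
    rw [coeff_expand_of_not_dvd, zero_mul]
    rintro ⟨k, rfl⟩; exact hm ⟨k, rfl⟩

lemma root_sum (l w m : ℕ) (hl : l ≠ 0) (hw : Nat.Coprime l w) :
    ∑ b ∈ range l, ee ((w * b : ℕ) / l) ^ m = if l ∣ m then (l : ℂ) else 0 := by
  have hl' : (l : ℂ) ≠ 0 := by exact_mod_cast hl
  have h1 : ∀ b : ℕ, ee ((w * b : ℕ) / l) ^ m = ee ((w * m : ℕ) / l) ^ b := fun b => by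
    rw [← ee_nat_mul, ← ee_nat_mul]; congr 1; push_cast; ring
  simp_rw [h1]
  split_ifs with h
  · obtain ⟨k, rfl⟩ := h
    have : ee ((w * (l * k) : ℕ) / l) = 1 := by
      rw [ee_eq_one_iff]; refine ⟨w * k, ?_⟩; push_cast; field_simp
    rw [this]; simp
  · have h2 : ee ((w * m : ℕ) / l) ≠ 1 := by
      rw [Ne, ee_eq_one_iff]
      rintro ⟨n, hn⟩
      rw [div_eq_iff hl'] at hn
      have h3 : ((w * m : ℕ) : ℤ) = n * l := by exact_mod_cast hn
      have h4 : (l : ℤ) ∣ (w * m : ℕ) := ⟨n, by rw [h3]; ring⟩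
      exact h (hw.dvd_of_dvd_mul_left (by exact_mod_cast h4))
    rw [geom_sum_eq h2, ← ee_nat_mul, mul_div_cancel₀ _ hl']
    have : ee ((w * m : ℕ) : ℂ) = 1 := by simpa using ee_int ((w * m : ℕ) : ℤ)
    rw [this]; simp

lemma UU (h : Rep c F) (l w : ℕ) (hl : l ≠ 0) (hw : Nat.Coprime l w) :
    Rep (C (l : ℂ) * UU l c) (fun z => ∑ b ∈ range l, F ((z + (w * b : ℕ)) / l)) := fun z hz => by
  have hl0 : 0 < l := Nat.pos_of_ne_zero hl
  have hl' : (l : ℂ) ≠ 0 := by exact_mod_cast hl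
  have h1 : HasSum (fun m => ∑ b ∈ range l, coeff m c * ee ((z + (w * b : ℕ)) / l) ^ m)
      (∑ b ∈ range l, F ((z + (w * b : ℕ)) / l)) := by
    refine hasSum_sum fun b _ => h _ ?_
    rw [← ofReal_natCast l, div_ofReal_im]
    simp only [add_im, natCast_im, add_zero]; positivity
  have h2 : ∀ m, ∑ b ∈ range l, coeff m c * ee ((z + (w * b : ℕ)) / l) ^ m =
      coeff m c * ee (z / l) ^ m * (if l ∣ m then (l : ℂ) else 0) := fun m => by
    rw [← root_sum l w m hl hw, Finset.mul_sum]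
    refine Finset.sum_congr rfl fun b _ => ?_
    rw [add_div, ee_add, mul_pow, mul_assoc]
  simp_rw [h2] at h1
  have hinj : Function.Injective fun m : ℕ => l * m := fun a b hab =>
    Nat.eq_of_mul_eq_mul_left hl0 hab
  rw [← hinj.hasSum_iff] at h1
  · convert h1 using 2 with m
    simp only [coeff_C_mul, coeff_UU, Function.comp, dvd_mul_right, if_true]
    rw [pow_mul, ← ee_nat_mul l, mul_div_cancel₀ _ hl']; ring
  · intro m hm
    rw [if_neg, mul_zero]
    rintro ⟨k, rfl⟩; exact hm ⟨k, rfl⟩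

lemma rescale (h : Rep c F) : Rep (rescale (-1) c) (fun z => F (z + 1 / 2)) := fun z hz => by
  have h1 := h (z + 1 / 2) (by simpa using hz)
  have h2 : ee (1 / 2) = -1 := by
    rw [ee, show 2 * π * I * (1 / 2) = π * I by ring, exp_pi_mul_I]
  convert h1 using 2 with m
  rw [coeff_rescale, ee_add, h2, mul_pow]; ring

end Rep

open UpperHalfPlane hiding I

lemma exists_rep_of_good {F : ℂ → ℂ} (hper : ∀ z : ℂ, 0 < z.im → F (z + 1) = F z)
    (hd : ∀ z : ℂ, 0 < z.im → DifferentiableAt ℂ F z) {a : ℂ}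
    (hb : Filter.Tendsto (fun τ : ℍ => F τ) atImInfty (𝓝 a)) :
    ∃ c, Rep c F ∧ constantCoeff c = a := by
  let f : ℍ → ℂ := fun τ => F τ
  have h1 : Function.Periodic (f ∘ ofComplex) (1 : ℝ) := by
    intro w
    by_cases hw : 0 < w.im
    · have : 0 < (w + (1 : ℝ)).im := by simpa using hw
      simp only [Function.comp_apply, ofComplex_apply_of_im_pos this, ofComplex_apply_of_im_pos hw]
      simpa [f] using hper w hw
    · have hw' : w.im ≤ 0 := not_lt.mp hw
      have : (w + (1 : ℝ)).im ≤ 0 := by simpa using hw'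
      simp only [Function.comp_apply, ofComplex_apply_of_im_nonpos this,
        ofComplex_apply_of_im_nonpos hw']
  have h2 : MDiff f := by
    rw [UpperHalfPlane.mdifferentiable_iff]
    refine DifferentiableOn.congr (f := F) (fun z hz => (hd z hz).differentiableWithinAt) ?_
    intro z hz
    simp [f, ofComplex_apply_of_im_pos hz]
  have h3 : IsBoundedAtImInfty f := hb.isBigO_one ℝ
  refine ⟨qExpansion 1 f, fun z hz => ?_, ?_⟩
  · simpa [qParam_eq] using hasSum_qExpansion one_pos h1 h2 h3 ⟨z, hz⟩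
  · rw [← coeff_zero_eq_constantCoeff_apply,
      qExpansion_coeff_zero one_pos (analyticAt_cuspFunction_zero one_pos h1 h2 h3) h1]
    exact hb.limUnder_eq

lemma isMF_of_modularForm {k : ℕ} (g : ModularForm 𝒮ℒ k) : IsMF k (qExpansion 1 g) := by
  refine ⟨g ∘ ofComplex, fun z hz => ?_, fun z hz => ?_⟩
  · simpa [qParam_eq, ofComplex_apply_of_im_pos hz] using
      ModularForm.hasSum_qExpansion g one_pos one_mem_strictPeriods_SL ⟨z, hz⟩
  · have h1 := congrFun (g.slash_action_eq' (ModularGroup.S : SL(2, ℤ)) ⟨_, rfl⟩) ⟨z, hz⟩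
    have h2 := SlashInvariantForm.slash_S_apply g k ⟨z, hz⟩
    rw [ModularForm.SL_slash] at h2
    have hz0 : z ≠ 0 := fun h => by simp [h] at hz
    have h3 : 0 < (-1 / z).im := by
      have := (⟨z, hz⟩ : ℍ).im_inv_neg_coe_pos
      simpa [neg_div, inv_neg] using this
    simp only [Function.comp_apply, ofComplex_apply_of_im_pos hz, ofComplex_apply_of_im_pos h3]
    have h4 : g ⟨z, hz⟩ = g ⟨-1 / z, h3⟩ * z ^ (-(k : ℤ)) := by
      refine (h1.symm.trans h2).trans ?_
      congr 2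
      ext; simp [neg_div, inv_neg]
    rw [h4, zpow_neg, zpow_natCast]; field_simp

lemma IsMF.exists_modularForm {k : ℕ} {c : ℂ⟦X⟧} (h : IsMF k c) :
    ∃ g : ModularForm 𝒮ℒ k, qExpansion 1 g = c := by
  obtain ⟨F, hR, hM⟩ := h
  let f : ℍ → ℂ := fun τ => F τ
  have hS : f ∣[(k : ℤ)] ModularGroup.S = f := by
    ext z
    rw [SlashInvariantForm.slash_S_apply]
    have := hM z z.im_pos
    simp only [f, zpow_neg, zpow_natCast]
    rw [show (-(z : ℂ))⁻¹ = -1 / z by simp [neg_div, inv_neg], this]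
    field_simp [z.ne_zero]
  have hT : f ∣[(k : ℤ)] ModularGroup.T = f := by
    ext z
    rw [ModularForm.SL_slash_apply, modular_T_smul]
    have := hR.periodic z z.im_pos 1
    simp only [f, ModularGroup.T, denom]
    simpa [add_comm] using this
  have hsum : ∀ τ : ℍ, HasSum (fun m => coeff m c • Function.Periodic.qParam (1 : ℝ) τ ^ m)
      (f τ) := fun τ => by simpa [qParam_eq] using hR τ τ.im_pos
  let g : ModularForm 𝒮ℒ k :=
    { toFun := f
      slash_action_eq' := fun A ⟨B, hB⟩ =>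
        hB ▸ SlashInvariantForm.slash_action_generators_SL2Z hS hT B
      holo' := by
        rw [UpperHalfPlane.mdifferentiable_iff]
        refine DifferentiableOn.congr (f := F)
          (fun z hz => (hR.differentiableAt hz).differentiableWithinAt) ?_
        intro z hz
        simp [f, ofComplex_apply_of_im_pos hz]
      bdd_at_cusps' := fun {x} hx => by
        rw [Subgroup.IsArithmetic.isCusp_iff_isCusp_SL2Z] at hx
        rw [OnePoint.isBoundedAt_iff_forall_SL2Z hx]
        intro γ _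
        change IsBoundedAtImInfty (f ∣[(k : ℤ)] γ)
        rw [SlashInvariantForm.slash_action_generators_SL2Z hS hT γ]
        exact isBoundedAtImInfty_of_hasSum_qExpansion one_pos hsum }
  refine ⟨g, ?_⟩
  ext m
  exact (ModularFormClass.qExpansion_coeff_unique one_pos one_mem_strictPeriods_SL
    (f := g) hsum m).symm

namespace IsMF
variable {k l : ℕ} {c d : ℂ⟦X⟧}

lemma mul (h : IsMF k c) (h' : IsMF l d) : IsMF (k + l) (c * d) := by
  obtain ⟨F, h1, h2⟩ := h
  obtain ⟨G, h3, h4⟩ := h'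
  exact ⟨_, h1.mul h3, fun z hz => by rw [h2 z hz, h4 z hz]; ring⟩

lemma add (h : IsMF k c) (h' : IsMF k d) : IsMF k (c + d) := by
  obtain ⟨F, h1, h2⟩ := h
  obtain ⟨G, h3, h4⟩ := h'
  exact ⟨_, h1.add h3, fun z hz => by rw [h2 z hz, h4 z hz]; ring⟩

lemma sub (h : IsMF k c) (h' : IsMF k d) : IsMF k (c - d) := by
  obtain ⟨F, h1, h2⟩ := h
  obtain ⟨G, h3, h4⟩ := h'
  exact ⟨_, h1.sub h3, fun z hz => by rw [h2 z hz, h4 z hz]; ring⟩

lemma const_mul (a : ℂ) (h : IsMF k c) : IsMF k (C a * c) := by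
  obtain ⟨F, h1, h2⟩ := h
  exact ⟨_, h1.const_mul a, fun z hz => by rw [h2 z hz]; ring⟩

lemma one : IsMF 0 1 := ⟨_, Rep.one, fun z _ => by simp⟩

lemma zero : IsMF k 0 := ⟨_, Rep.zero, fun z _ => by simp⟩

lemma pow (h : IsMF k c) (n : ℕ) : IsMF (k * n) (c ^ n) := by
  induction n with
  | zero => simpa using one
  | succ n ih => simpa [pow_succ, mul_add] using ih.mul h

lemma sturm (h : IsMF k c) (h0 : ∀ m ≤ k / 12, coeff m c = 0) : c = 0 := by
  obtain ⟨g, rfl⟩ := h.exists_modularForm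
  have : g = 0 := by
    apply ModularForm.sturm_bound_levelOne_nat
    refine lt_of_lt_of_le ?_ (nat_le_order _ (k / 12 + 1) fun i hi => h0 i (by omega))
    exact_mod_cast Nat.lt_succ_self _
  simp [this, qExpansion_zero]

end IsMF

end Pool.Agent.Lib.MP_a3366f_nt.H28
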