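import Pool.Agent.Lib.MP_a3366f_nt.H28.Proj
import Pool.Agent.Lib.MP_a3366f_nt.H28.Lg

open PowerSeries Finset

namespace Pool.Agent.Lib.MP_a3366f_nt.H28

def Good (κ κ' : ℕ) : Prop := (κ = 24 ∧ κ' = 1) ∨ (κ = 8 ∧ κ' = 3)

/-- indicator of squares -/
def th2 (κ g : ℕ) : ZMod 2 := if IsSquare (κ * g + 1) then 1 else 0

lemma Good.coeff_pow {κ κ' : ℕ} (h : Good κ κ') (g : ℕ) :
    coeff g (ff (ZMod 2) ^ κ') = th2 κ g := by
  rcases h with ⟨rfl, rfl⟩ | ⟨rfl, rfl⟩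
  · rw [pow_one, coeff_ff_two, th2]
  · rw [← psi_two, psi, coeff_mk, th2]

lemma Good.mod_eight {κ κ' : ℕ} (h : Good κ κ') (g : ℕ) : (κ * g + 1) % 8 = 1 := by
  rcases h with ⟨rfl, rfl⟩ | ⟨rfl, rfl⟩ <;> omega

lemma Good.mul {κ κ' : ℕ} (h : Good κ κ') : κ * κ' = 24 := by
  rcases h with ⟨rfl, rfl⟩ | ⟨rfl, rfl⟩ <;> rfl

lemma Good.odd {κ κ' : ℕ} (h : Good κ κ') : Odd κ' := by
  rcases h with ⟨rfl, rfl⟩ | ⟨rfl, rfl⟩ <;> decide

lemma Good.theta {κ κ' : ℕ} (h : Good κ κ') (R : Type) [CommRing R] (ρ : R →+* ZMod 2) :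
    ∃ Θ Θi β : R⟦X⟧, Θ * Θi = 1 ∧ β ∈ Gm (eps R) 0 ∧ 24 * th Θ = (aa R * β - κ') * Θ ∧
      constantCoeff Θ = 1 ∧ PowerSeries.map ρ Θ = ff (ZMod 2) ^ κ' := by
  rcases h with ⟨rfl, rfl⟩ | ⟨rfl, rfl⟩
  · refine ⟨ff R, Pgf R, eps R, by rw [mul_comm, Pgf_mul_ff], Gm_x _, ?_, by simp,
      by rw [map_ff, pow_one]⟩
    rw [aa_eps, th_ff']; simp
  · refine ⟨psi R, invOfUnit (psi R) 1, eps R + 2, mul_invOfUnit _ _ (by simp),
      Submodule.add_mem _ (Gm_x _) (Gm_ofNat _ 0 2), ?_, by simp, by rw [map_psi, psi_two]⟩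
    rw [mul_add, aa_eps, th_psi]; push_cast; ring

/-- the vector of partial convolution sums -/
noncomputable def vec (r κ : ℕ) (c : (ZMod 2)⟦X⟧) (n : ℕ) : GA r :=
  ∑ g ∈ range (n + 1), AddMonoidAlgebra.single (lg r (κ * g + 1)) (coeff (n - g) c * th2 κ g)

/-- the divisor element -/
noncomputable def sig (r n : ℕ) : GA r :=
  ∑ d ∈ n.divisors, AddMonoidAlgebra.single (lg r (d ^ 2)) 1

lemma vec_shift (r κ : ℕ) (c : (ZMod 2)⟦X⟧) (n e : ℕ) :
    vec r κ (X ^ e * c) (n + e) = vec r κ c n := by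
  rw [vec, vec]
  symm
  refine Finset.sum_subset_zero_on_sdiff (range_mono (by omega)) (fun g hg => ?_) (fun g hg => ?_)
  · simp only [mem_sdiff, mem_range] at hg
    rw [coeff_X_pow_mul', if_neg (by omega)]; simp
  · rw [mem_range] at hg
    rw [coeff_X_pow_mul', if_pos (by omega), show n + e - g - e = n - g by omega]

lemma coeff_mul_TT {R : Type*} [CommRing R] (κ k n : ℕ) (H Θ : R⟦X⟧) :
    coeff n (H * TT κ Θ k) =
      ∑ g ∈ range (n + 1), (coeff (n - g) H * coeff g Θ) * ((κ * g + 1 : ℕ) : R) ^ k := by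
  rw [mul_comm, coeff_mul, Finset.Nat.sum_antidiagonal_eq_sum_range_succ_mk]
  refine Finset.sum_congr rfl fun g _ => ?_
  simp only [TT, coeff_mk]; ring

theorem vec_eq {κ κ' : ℕ} (hκ : Good κ κ') {c : (ZMod 2)⟦X⟧} {D : ℕ}
    (hc : ff (ZMod 2) ^ κ' * c * ff (ZMod 2) ^ (24 * D) ∈ PD) :
    ∃ C0, ∀ r a a' n, 13 * 2 ^ r + C0 ≤ a → 13 * 2 ^ r + C0 ≤ a' → Odd n →
      vec r κ c (2 ^ a * n + D) =
        vec r κ c D * vec r κ (Pgf (ZMod 2) ^ κ') (2 ^ a') * sig r n := by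
  obtain ⟨d0, hd0⟩ := PD_lift hc
  refine ⟨D + d0 + 1, fun r a a' n ha ha' hn => ?_⟩
  obtain ⟨N, hN4, htest⟩ := test_lemma r
  set ρ := ZMod.castHom (dvd_pow_self 2 (Nat.succ_ne_zero N)) (ZMod 2) with hρ
  have hN : (2 : ZMod (2 ^ (N + 1))) ^ (N + 1) = 0 := by
    exact_mod_cast ZMod.natCast_self (2 ^ (N + 1))
  obtain ⟨Θ, Θi, β, hΘ, hβ, hth, hΘ0, hΘρ⟩ := hκ.theta _ ρ
  obtain ⟨h0, hh0, hh0ρ⟩ := hd0 _ ρ (eps _)
  obtain ⟨v1, v1i, hv, hv1⟩ := exists_v1 (R := ZMod (2 ^ (N + 1)))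
  have hrM : r < 2 ^ r := Nat.lt_two_pow_self
  obtain ⟨s, hs⟩ : ∃ s, s = N + 1 + D := ⟨_, rfl⟩
  obtain ⟨e, he⟩ : ∃ e, 2 ^ s = D + (e + 1) :=
    ⟨2 ^ s - D - 1, by have : s < 2 ^ s := Nat.lt_two_pow_self; omega⟩
  obtain ⟨i, rfl⟩ : ∃ i, a = s + i := Nat.exists_eq_add_of_le (by omega)
  set h := vv (ZMod (2 ^ (N + 1))) ^ (e + 1) * h0 with hh
  have hhG : h ∈ Gm (eps _) (2 ^ s + d0) :=
    Gm_mono _ (by omega) (Gm_mul (Gm_pow (Gm_v _) (e + 1)) hh0)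
  have hhc : constantCoeff h = 0 := by simp [hh, constantCoeff_vv]
  set H := h * Θi * expand (2 ^ s) (by positivity) v1i with hH
  have hΘiρ : PowerSeries.map ρ Θi = Pgf (ZMod 2) ^ κ' := by
    have h1 := congrArg (PowerSeries.map ρ) hΘ
    rw [map_mul, hΘρ, map_one] at h1
    have h2 : Pgf (ZMod 2) ^ κ' * ff (ZMod 2) ^ κ' = 1 := by rw [← mul_pow, Pgf_mul_ff, one_pow]
    linear_combination Pgf (ZMod 2) ^ κ' * h1 - PowerSeries.map ρ Θi * h2
  have hHρ : PowerSeries.map ρ H = X ^ (e + 1) * c := by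
    have h1 := congrArg (PowerSeries.map ρ) hv
    rw [map_vv, vv_two, map_mul, map_X, DD] at h1
    have h2 := X_mul_cancel h1
    have h3 := congrArg (PowerSeries.map ρ) hv1
    rw [map_mul, map_one, ← h2] at h3
    have h4 : (ff (ZMod 2) ^ 24) ^ 2 ^ s * PowerSeries.map ρ v1i ^ 2 ^ s = 1 := by
      rw [← mul_pow, h3, one_pow]
    have h5 : Pgf (ZMod 2) ^ κ' * ff (ZMod 2) ^ κ' = 1 := by rw [← mul_pow, Pgf_mul_ff, one_pow]
    rw [hH, hh, map_mul, map_mul, map_mul, map_pow, map_vv, vv_two, hh0ρ, hΘiρ, map_expand,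
      ← pow_two_pow_eq_expand, DD]
    rw [he] at h4 ⊢
    linear_combination X ^ (e + 1) * c * ((ff (ZMod 2) ^ 24) ^ (D + (e + 1)) *
      PowerSeries.map ρ v1i ^ (D + (e + 1)) * h5 + h4)
  have key := htest (range (2 ^ (s + i) * n + 2 ^ s + 1))
    (n.divisors ×ˢ (range (2 ^ s + 1) ×ˢ range (2 ^ a' + 1)))
    (fun g => n * (coeff (2 ^ (s + i) * n + 2 ^ s - g) H * coeff g Θ))
    (fun j => ((n / j.1 : ℕ) : ZMod _) * (coeff (2 ^ s - j.2.1) H * coeff j.2.1 Θ) *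
      (coeff (2 ^ a' - j.2.2) Θi * coeff j.2.2 Θ))
    (fun g => κ * g + 1) (fun j => (κ * j.2.1 + 1) * (κ * j.2.2 + 1) * j.1 ^ 2)
    (fun g _ => hκ.mod_eight g)
    (fun j hj => mul_mod_eight (mul_mod_eight (hκ.mod_eight _) (hκ.mod_eight _))
      (sq_mod_eight (hn.of_dvd_nat (Nat.dvd_of_mem_divisors (mem_product.mp hj).1))))
    (fun k hk => by
      obtain ⟨E, hE0, hE⟩ := coeff_ord hN k
      have hD := InG_TT hN hκ.mul hκ.odd hΘ hβ hth k
      obtain ⟨Z, hZ, hZc⟩ := pole_clear hN (s := s) (by omega) hv hv1 hhG hhc hD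
      have hb : r + d0 + 1 < 2 ^ (r + d0 + 1) := Nat.lt_two_pow_self
      have hkb : k < 2 ^ (r + d0 + 1) := hk.trans_le (Nat.pow_le_pow_right two_pos (by omega))
      have h1 := hE _ _ Z hZ (by omega) hkb i (by omega) n hn
      have h2 := hE _ _ _ hD (by positivity) hkb a' (by omega) 1 odd_one
      have h3 : h * (TT κ Θ k * Θi) * expand (2 ^ s) (by positivity) v1i = H * TT κ Θ k := by
        rw [hH]; ring
      have h4 : constantCoeff (TT κ Θ k * Θi) = 1 := by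
        have h5 := congrArg constantCoeff hΘ
        rw [map_mul, hΘ0, one_mul, map_one] at h5
        rw [map_mul, h5, ← coeff_zero_eq_constantCoeff_apply]; simp [TT, hΘ0]
      rw [← coeff_zero_eq_constantCoeff_apply, hZc, hZc, h3, ← mul_assoc, ← pow_add, mul_zero,
        zero_add, coeff_mul_TT, coeff_mul_TT] at h1
      rw [h4, mul_one, mul_comm (TT κ Θ k), coeff_mul_TT, ArithmeticFunction.sigma_one] at h2
      simp only [mul_assoc (n : ZMod (2 ^ (N + 1))), ← Finset.mul_sum]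
      rw [h1, Finset.sum_product]
      have h6 : ∀ d ∈ n.divisors, ∑ j ∈ range (2 ^ s + 1) ×ˢ range (2 ^ a' + 1),
          ((n / d : ℕ) : ZMod (2 ^ (N + 1))) * (coeff (2 ^ s - j.1) H * coeff j.1 Θ) *
            (coeff (2 ^ a' - j.2) Θi * coeff j.2 Θ) *
            (((κ * j.1 + 1) * (κ * j.2 + 1) * d ^ 2 : ℕ) : ZMod _) ^ k =
          (∑ g ∈ range (2 ^ s + 1), coeff (2 ^ s - g) H * coeff g Θ * ((κ * g + 1 : ℕ) : ZMod _) ^ k)
            * E * (((n / d : ℕ) : ZMod _) * (d : ZMod _) ^ (2 * k)) := by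
        intro d _
        rw [show E = 1 * E * ((1 : ℕ) : ZMod _) by simp, ← h2, Finset.sum_mul_sum,
          ← Finset.sum_product', Finset.sum_mul]
        refine Finset.sum_congr rfl fun j _ => ?_
        rw [Nat.cast_mul, Nat.cast_mul, mul_pow, mul_pow, Nat.cast_pow]; ring
      rw [Finset.sum_congr rfl h6, ← Finset.mul_sum, mul_left_comm]
      rcases Nat.eq_zero_or_pos k with rfl | hk0
      · simp [hE0 rfl]
      · congr 1
        rw [ArithmeticFunction.sigma_apply, Nat.cast_sum, Finset.mul_sum]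
        refine Finset.sum_congr rfl fun d hd => ?_
        obtain ⟨m, rfl⟩ := Nat.dvd_of_mem_divisors hd
        rw [Nat.mul_div_cancel_left _ (Nat.pos_of_mem_divisors hd),
          show 2 * k = (2 * k - 1) + 1 by omega]
        push_cast; ring)
  have hodd : ∀ m : ℕ, Odd m → ρ (m : ZMod _) = 1 := fun m hm => by
    rw [map_natCast]; exact (ZMod.natCast_eq_one_iff_odd).mpr hm
  have hcH : ∀ m, ρ (coeff m H) = coeff m (X ^ (e + 1) * c) := fun m => by rw [← hHρ, coeff_map]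
  have hcΘ : ∀ m, ρ (coeff m Θ) = th2 κ m := fun m => by rw [← hκ.coeff_pow, ← hΘρ, coeff_map]
  have hcΘi : ∀ m, ρ (coeff m Θi) = coeff m (Pgf (ZMod 2) ^ κ') := fun m => by
    rw [← hΘiρ, coeff_map]
  rw [← vec_shift r κ c _ (e + 1), ← vec_shift r κ c D (e + 1), add_assoc, ← he]
  refine (Finset.sum_congr rfl fun g _ => ?_).trans (key.trans ?_)
  · rw [map_mul ρ, map_mul ρ, hodd n hn, one_mul, hcH, hcΘ]
  · rw [vec, vec, sig, Finset.sum_mul_sum, ← Finset.sum_product', mul_comm, Finset.sum_mul_sum,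
      ← Finset.sum_product']
    refine Finset.sum_congr rfl fun j hj => ?_
    have hd := Nat.dvd_of_mem_divisors (mem_product.mp hj).1
    rw [AddMonoidAlgebra.single_mul_single, AddMonoidAlgebra.single_mul_single,
      lg_mul r (mul_mod_eight (hκ.mod_eight _) (hκ.mod_eight _)) (sq_mod_eight (hn.of_dvd_nat hd)),
      lg_mul r (hκ.mod_eight _) (hκ.mod_eight _), map_mul ρ, map_mul ρ, map_mul ρ, map_mul ρ,
      hodd _ (hn.of_dvd_nat (Nat.div_dvd_of_dvd hd)), hcH, hcΘ, hcΘ, hcΘi, add_comm, mul_assoc]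

end Pool.Agent.Lib.MP_a3366f_nt.H28
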